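import Pool.Agent.H57.AVN.Lit
import Pool.Agent.H83.OWN.Vfc
import Pool.Agent.H50.AVG.Ase
import Pool.Agent.H3.D2G.RecJ

/-!
# The places 1 and 2 are full behind their own paths: the literal

`FulP`: at the window `b`, given the jets of the places `1`, `2` of all orders `≤ K` to `P` digits
behind the levels, the heights of both places are full up to `N₁`, `N₂` digits behind the levels.
`FulG`: this holds at all windows near `g`, with a small loss, for all `y` which are functions of the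
exact path of the base and of few digits of its velocity.
-/

set_option autoImplicit false

namespace Pool.FUL95

open Finset Real MvPolynomial
open Pool.Agent.H49.Ent Pool.Agent.H32.Dense Pool.STK Pool.KA Pool.KSAT Pool.K2S Pool.PB Pool.S6C
open Pool.GEN Pool.RCD Pool.LA91 Pool.AVG96 Pool.OWN83

variable {m : ℕ} {γ : ∀ J : ℕ, Fam m J → Type} {S : PCl m} {c : ℕ → Fin m}

/-- **The places `1` and `2` are full behind their own paths** at the window `b`: `s l` the level of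
`c l`, the jets of orders `≤ K` known to `P` digits behind the levels. -/
def FulP (S : PCl m) (y : ∀ (J : ℕ) (F : Fam m J), F.Ω → γ J F) (c : ℕ → Fin m) (K : ℕ)
    (b : ℝ) (p s : ℕ → ℝ) (P N₁ N₂ η : ℝ) : Prop :=
  LowN S (fun J F => ptr F J) (vg b) y
    (qJets m c 1 3 K (fun _ _ => b) (fun l _ => p l) (fun l j' => s l - (j' : ℝ) * b + P))
    ((qJet m ((range 1).image c) (c 1) 0 b (p 1) (s 1 + N₁)).prod
      (qJet m ((range 2).image c) (c 2) 0 b (p 2) (s 2 + N₂)))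
    (((N₁ - P) + (N₂ - P)) * Real.log 2 - η)

/-- **The places `1` and `2` are full behind their own paths** at windows near `g`. -/
def FulG (S : PCl m) (c : ℕ → Fin m) (sn : ℝ → ℕ → ℝ) (G : Set ℝ) (g : ℝ) : Prop :=
  ∀ (K : ℕ) (e C : ℝ), 0 < e → 0 < C → ∃ (k : ℕ) (φ : ℝ), 0 < φ ∧
    ∀ (γ : ∀ J : ℕ, Fam m J → Type) (y : ∀ (J : ℕ) (F : Fam m J), F.Ω → γ J F),
    YkV ((range 1).image c) ((1 / 8) ^ k) y → ∃ ρ : ℝ, 0 < ρ ∧ ∀ R : ℝ, 0 < R → R < ρ →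
    ∀ b₀ : ℝ, g - C * R ≤ b₀ → b₀ ≤ g + C * R → ∃ b ∈ G, b₀ - e * R ≤ b ∧ b ≤ b₀ ∧
    ∀ (p : ℕ → ℝ) (P N₁ N₂ : ℝ), 0 ≤ P → P ≤ N₁ → P ≤ N₂ → N₁ ≤ C * R → N₂ ≤ C * R →
    (∀ l, 1 ≤ l → l ≤ 2 → sn b l - φ * R ≤ p l) → FulP S y c K b p (sn b) P N₁ N₂ (e * R)

theorem FulG.sub {S' : PCl m} (hs : ∀ (τ : ℝ) (J : ℕ) (F : Fam m J) (A : F.Ω → Prop),
    S'.St τ J F A → S.St τ J F A) {sn : ℝ → ℕ → ℝ} {G : Set ℝ} {g : ℝ}
    (h : FulG S c sn G g) : FulG S' c sn G g := by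
  intro K e C he hC
  obtain ⟨k, φ, hφ, h⟩ := h K e C he hC
  refine ⟨k, φ, hφ, fun γ y hy => ?_⟩
  obtain ⟨ρ, hρ, h⟩ := h γ y hy
  refine ⟨ρ, hρ, fun R a1 a2 b₀ a3 a4 => ?_⟩
  obtain ⟨b, hb, b1, b2, h⟩ := h R a1 a2 b₀ a3 a4
  exact ⟨b, hb, b1, b2, fun p P N₁ N₂ c1 c2 c3 c4 c5 c6 =>
    (h p P N₁ N₂ c1 c2 c3 c4 c5 c6).sub hs⟩

/-- **The places `1` and `2` are full behind their own paths**, as a property of the windows (the
places `1`, `2`, `3` not dead; `Φ`: a condition on the slopes). -/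
def FulQ (Φ : (ℕ → ℝ) → Prop) {n : ℕ} (_ : Unit) (_ : ℕ) (S : PCl n)
    (_ : List (Fin n) × Fin n → ℝ → ℝ → ℝ) (_ : ℝ) (c : ℕ → Fin n) (_ : ℝ → ℝ → ℝ)
    (_ : ℝ → ℝ) (L _ : ℕ → ℝ → ℝ → ℝ) (_ : ℕ → Pool.PKG.Kg) (G : Set ℝ) (x : ℝ) : Prop :=
  ∀ Sl : ℕ → ℝ, (∀ l, 1 ≤ l → l ≤ 3 → HasDerivAt (fun w => L l w w) (Sl l) x) → Φ Sl →
    (∀ l, 1 ≤ l → l ≤ 3 → 1 < Sl l) → FulG S c (fun w l => L l w w) G x

end Pool.FUL95
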