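import Pool.Agent.H95.VF.Fgd
import Pool.Agent.H4.D2.Flt

/-!
# The places `1` and `2` are full behind their own paths at almost every window, all slopes
-/

set_option autoImplicit false

namespace Pool.FUL95

open Pool.GEN (FZX)
open Pool.PKG (AePG PropG)

/-- **The places `1` and `2` are full behind their own paths** at almost every window, all slopes
larger than one. -/
theorem aePG_fulT (hFn : ∀ k, 1 ≤ k → k ≤ 3 → FZX k) :
    AePG 4 (FulQ (fun _ => True) : PropG 4 Unit) :=
  Pool.D2F2.aePG_ful_all le_rfl hFn (aePG_ful hFn)

end Pool.FUL95
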