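import Pool.Agent.H95.VF.Fgc
import Pool.Agent.H57.AVG.Cgp
import Pool.Agent.H72.OWN.Rxh
import Pool.Agent.H72.KE.Has

/-!
# The places `1` and `2` are full behind their own paths at almost every window

`rate_ae`: the numbers of the coarse velocity of the base near almost every window. `aePG_ful`: the
property `FulQ` at almost every window where the slopes of the places `1`, `2` differ.
-/

set_option autoImplicit false

namespace Pool.FUL95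

open MeasureTheory Finset Filter Topology
open Pool.Agent.H49.Ent Pool.Agent.H32.Dense Pool.STK Pool.KA Pool.KSAT Pool.K2S Pool.PB Pool.GEN
open Pool.S6C Pool.GRW Pool.PKG Pool.RCD Pool.LA91
open Pool.TOP (TopS)
open Pool.CHT
open Pool.MIC6 (ActF)
open Pool.EXC33 (RexS rexS_of)
open Pool.OWN17 (Gdw cnt_L att_all)
open Pool.D2F2 (Den2 den2_ae lin_near)
open Pool.OWN72 (RecExh Nea Ctw Dsc ctw_ae rec_exh gs_act dns_pt fzx_zero)
open Pool.OWN83 (yX dT YkV VelN gp_summable rate_rat)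
open Pool.AVG50 (AsmC)
open Pool.AVG57 (asmC_all)

section rate

variable {m : ℕ}

/-- **The numbers of the coarse velocity of the base** near almost every window. -/
theorem rate_ae {S : PCl m} {c : ℕ → Fin m} {v : ℕ} {sn : ℝ → ℕ → ℝ} {G : Set ℝ}
    (hA : ∀ B : ℝ, 0 < B → B < 1 → AsmC S c 1 v 0 0 B (1 - B) sn G) :
    ∀ᵐ g : ℝ, 0 < g → g < 1 → ∃ (θ : ℕ → ℚ → ℝ) (M₀ ρ : ℝ), 0 ≤ M₀ ∧ 0 < ρ ∧
      (∀ q : ℚ, |(q : ℝ) - g| ≤ ρ → (∃ η, RNum S (fun J F => ptr F J) (vg q) η) ∧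
        ∀ k : ℕ, NN S (fun J F => ptr F J) (vg q) (yX ((range 1).image c))
          (Qt.fn (dT (m := m) ((range 1).image c) ((1 / 8) ^ k))) (θ k q)) ∧
      ∀ r : ℝ, 0 < r → r ≤ ρ → ∀ k : ℕ, ∀ q q' : ℚ, g - r ≤ q → q ≤ q' → (q' : ℝ) ≤ g + r →
        θ k q - θ k q' ≤ (1 / 2) ^ k * (M₀ * r) := by
  have key : ∀ B : ℚ, ∀ᵐ g : ℝ, (B : ℝ) < 1 → 0 < g → g < B →
      ∃ (θ : ℕ → ℚ → ℝ) (M₀ ρ : ℝ), 0 ≤ M₀ ∧ 0 < ρ ∧
      (∀ q : ℚ, |(q : ℝ) - g| ≤ ρ → (∃ η, RNum S (fun J F => ptr F J) (vg q) η) ∧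
        ∀ k : ℕ, NN S (fun J F => ptr F J) (vg q) (yX ((range 1).image c))
          (Qt.fn (dT (m := m) ((range 1).image c) ((1 / 8) ^ k))) (θ k q)) ∧
      ∀ r : ℝ, 0 < r → r ≤ ρ → ∀ k : ℕ, ∀ q q' : ℚ, g - r ≤ q → q ≤ q' → (q' : ℝ) ≤ g + r →
        θ k q - θ k q' ≤ (1 / 2) ^ k * (M₀ * r) := by
    intro B
    by_cases hB : 0 < (B : ℝ) ∧ (B : ℝ) < 1
    · obtain ⟨γ, y, h⟩ := (hA B hB.1 hB.2).gch
      obtain ⟨θ, hθ⟩ := (hA B hB.1 hB.2).vel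
      have hrate := rate_rat (θ := fun q o => ∑' k, (2 : ℝ) ^ k * (θ k q - θ k o)) (A := 0)
        (B := B) (lam := 1) one_pos
        (fun q o a b d _ => tsum_nonneg (gp_summable h hθ (by linarith) b (by linarith)).2)
        (fun w v o a b b' d _ => by
          have c1 : (w : ℝ) ≤ v := by exact_mod_cast b
          have c2 : (v : ℝ) ≤ o := by exact_mod_cast b'
          have g1 := gp_summable h hθ (q := w) (o := v) (by linarith) b (by linarith)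
          have g2 := gp_summable h hθ (q := v) (o := o) (by linarith) b' (by linarith)
          rw [← g1.1.tsum_add g2.1]
          refine le_of_eq (tsum_congr fun k => ?_)
          ring)
      filter_upwards [hrate] with g hg _ g0 gB
      obtain ⟨f₀, hf₀, hrt⟩ := hg ⟨g0, gB⟩
      obtain ⟨r₁, hr₁, R1⟩ := hrt 1 one_pos
      refine ⟨θ, 2 * f₀ + 1, min (r₁ / 2) (min (g / 2) ((B - g) / 2)), by linarith,
        lt_min (by linarith) (lt_min (by linarith) (by linarith)), fun q hq => ?_,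
        fun r hr hrr k q q' a1 a2 a3 => ?_⟩
      · have q1 : |(q : ℝ) - g| ≤ g / 2 := hq.trans ((min_le_right _ _).trans (min_le_left _ _))
        have q2 : |(q : ℝ) - g| ≤ (B - g) / 2 :=
          hq.trans ((min_le_right _ _).trans (min_le_right _ _))
        have q3 := (abs_le.1 q1).1
        have q4 := (abs_le.1 q2).2
        obtain ⟨η, hη⟩ := h.rn q (by linarith) (by linarith)
        rw [add_zero] at hη
        refine ⟨⟨η, hη⟩, fun k => ?_⟩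
        have h3 := hθ k q (by linarith) (by linarith)
        rw [add_zero] at h3
        exact h3
      · have r1 : r ≤ r₁ / 2 := hrr.trans (min_le_left _ _)
        have r2 : r ≤ g / 2 := hrr.trans ((min_le_right _ _).trans (min_le_left _ _))
        have r3 : r ≤ (B - g) / 2 := hrr.trans ((min_le_right _ _).trans (min_le_right _ _))
        obtain ⟨g1, g2⟩ := gp_summable h hθ (q := q) (o := q') (by linarith) a2 (by linarith)
        have g3 := g1.le_tsum k fun j _ => g2 j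
        have g4 := (abs_le.1 (R1 r hr (by linarith) q q' a1 a2 a3)).2
        have g5 : f₀ * ((q' : ℝ) - q) ≤ f₀ * (2 * r) :=
          mul_le_mul_of_nonneg_left (by linarith) hf₀
        have g6 : (2 : ℝ) ^ k * (θ k q - θ k q') ≤ (2 * f₀ + 1) * r := by linarith
        have g7 : (θ k q - θ k q') = (1 / 2) ^ k * (2 ^ k * (θ k q - θ k q')) := by
          rw [← mul_assoc, ← mul_pow]
          norm_num
        rw [g7]
        exact mul_le_mul_of_nonneg_left g6 (by positivity)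
    · exact Filter.Eventually.of_forall fun g h1 h2 h3 => absurd ⟨by linarith, h1⟩ hB
  filter_upwards [ae_all_iff.2 key] with g hg g0 g1
  obtain ⟨B, hB1, hB2⟩ := exists_rat_btwn g1
  exact hg B hB2 g0 hB1

end rate

section fin

/-- The diagonals. -/
theorem dgN_lvl {n : ℕ} {hn : 2 ≤ n} {P : ℝ → ℝ → ℝ} {P' : ℕ → List (Fin n) × Fin n → ℝ → ℝ → ℝ}
    (o : Od n) {l : ℕ} (hl : l ≤ n - 1) :
    (fun w => LvL hn P P' o l w w) = dgN hn P P' o l := by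
  unfold dgN
  rcases hl.lt_or_eq with h | h
  · rw [if_pos h]
    funext w
    exact LvL_lt o h w w
  · subst h
    rw [if_neg (lt_irrefl _)]
    funext w
    exact LvL_top o w w

/-- **The places `1` and `2` are full behind their own paths** at almost every window where their
slopes differ. -/
theorem aePG_ful (hFn : ∀ k, 1 ≤ k → k ≤ 3 → FZX k) :
    AePG 4 (FulQ (fun Sl => Sl 1 ≠ Sl 2) : PropG 4 Unit) := by
  intro hn S P r P' Λ PB PQ H hTop hF o G hG hGs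
  obtain ⟨al, g₀, s, d', e', K₁, N₁, hal, hg₀, hC⟩ := H.cl
  have htm : TmC S 6 := Pool.GEN.N83.clx_tmc hC
  have hM : Bas S (fun J F A => (cnt F.p (ptr F J) A : ℝ) ≤ Real.exp ((4 * (4 : ℕ) + 1) * J)) :=
    Bas.mono 0 hC.cnt fun J _ F A h => h J le_rfl
  have ne : ∀ i j : ℕ, i < 4 → j < 4 → i ≠ j → cc hn o.1.1 i ≠ cc hn o.1.1 j :=
    fun i j hi hj hij h => hij (cc_inj' hn o.1.1 hi hj h)
  have hact : ActF S (cc hn o.1.1 0) := gs_act H.toPk o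
  have hlam := H.toPk.lam
  have hact' : ∀ {S' : PCl 4}, (∀ (τ : ℝ) (J : ℕ) (F : Fam 4 J) (A : F.Ω → Prop),
      S'.St τ J F A → S.St τ J F A) → ActF S' (cc hn o.1.1 0) := fun hs g hg => by
    obtain ⟨c', hc', hbb⟩ := hact g hg
    exact ⟨c', hc', hbb.sub hs⟩
  -- the class
  obtain ⟨S₁, a1, a2, a3⟩ := asmC_all H.toPkT hTop hF hG hGs (v := 2) (by norm_num)
    (by norm_num)
  have hA : ∀ B : ℝ, 0 < B → B < 1 →
      AsmC S₁ (cc hn o.1.1) 1 2 0 0 B (1 - B) (fun w l => LvL hn P P' o l w w) G :=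
    fun B b1 b2 => a3 0 B (1 - B) le_rfl (by linarith) (by linarith) b2.le (by linarith)
  -- the windows
  obtain ⟨G₂, hG₂⟩ : ∃ G₂ : Set ℝ, G₂ = {w | w ∈ G ∧ w ∈ Ctw Λ ∧
      ContinuousAt (fun W => Λ {cc hn o.1.1 0} (cc hn o.1.1 1) W W) w ∧
      ContinuousAt (fun W => Λ {cc hn o.1.1 0, cc hn o.1.1 1} (cc hn o.1.1 2) W W) w} :=
    ⟨_, rfl⟩
  obtain ⟨D, hDG, hDc, hDd⟩ : ∃ D : Set ℝ, D ⊆ G₂ ∧ D.Countable ∧
      ∀ x y : ℝ, (∃ a ∈ G₂, x < a ∧ a < y) → ∃ a ∈ D, x < a ∧ a < y := by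
    obtain ⟨s, hs1, hs2⟩ := TopologicalSpace.exists_countable_dense G₂
    refine ⟨(fun x : G₂ => (x : ℝ)) '' s, ?_, hs1.image _, fun x y h => ?_⟩
    · rintro x ⟨y, -, rfl⟩
      exact y.2
    · obtain ⟨a, ha, h4, h5⟩ := h
      have ho : IsOpen ((fun x : G₂ => (x : ℝ)) ⁻¹' Set.Ioo x y) :=
        isOpen_Ioo.preimage continuous_subtype_val
      obtain ⟨b, hb1, hb2⟩ := hs2.exists_mem_open ho ⟨⟨a, ha⟩, h4, h5⟩
      exact ⟨b, ⟨b, hb1, rfl⟩, hb2.1, hb2.2⟩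
  obtain ⟨S₂, b1, b2, b3⟩ := att_all a1 (by norm_num : (0 : ℝ) ≤ 6)
    (fun τ J F A hτ h => htm τ J F A hτ (a2 τ J F A h)) (hlam.sub a2)
    (ne 0 1 (by norm_num) (by norm_num) (by norm_num)) (v := cc hn o.1.1 2) (hact' a2)
    (G := {t | t ∈ D ∧ Gdw Λ (cc hn o.1.1 0) (cc hn o.1.1 1) (cc hn o.1.1 2) t})
    (hDc.mono fun t ht => ht.1) (fun t ht => ht.2)
  have b2' : ∀ (τ : ℝ) (J : ℕ) (F : Fam 4 J) (A : F.Ω → Prop), S₂.St τ J F A → S.St τ J F A :=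
    fun τ J F A h => a2 τ J F A (b2 τ J F A h)
  obtain ⟨S', c1, c2, c3⟩ := itm_cls b1 (by norm_num : (0 : ℝ) ≤ 6)
    (fun τ J F A hτ h => htm τ J F A hτ (b2' τ J F A h)) (fun τ J F A h => hC.pos τ J F A
      (b2' τ J F A h)) (hlam.sub b2') (c := cc hn o.1.1)
    (ne 0 1 (by norm_num) (by norm_num) (by norm_num)) (hact' b2') (hM.sub b2') hDc
  have c2' : ∀ (τ : ℝ) (J : ℕ) (F : Fam 4 J) (A : F.Ω → Prop), S'.St τ J F A → S.St τ J F A :=
    fun τ J F A h => b2' τ J F A (c2 τ J F A h)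
  have c21 : ∀ (τ : ℝ) (J : ℕ) (F : Fam 4 J) (A : F.Ω → Prop), S'.St τ J F A → S₁.St τ J F A :=
    fun τ J F A h => b2 τ J F A (c2 τ J F A h)
  have hG₂ae : ∀ᵐ g : ℝ, g ∈ G → g ∈ G₂ := by
    have z1 := (ctw_ae (Λ := Λ) hlam).ae_notMem volume
    have z2 := (cnt_L hlam {cc hn o.1.1 0} (cc hn o.1.1 1)).2.ae_notMem volume
    have z3 := (cnt_L hlam {cc hn o.1.1 0, cc hn o.1.1 1} (cc hn o.1.1 2)).2.ae_notMem volume
    filter_upwards [z1, z2, z3] with g y1 y2 y3 hg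
    rw [hG₂]
    exact ⟨hg, by_contra fun hcon => y1 hcon, by_contra fun hcon => y2 hcon,
      by_contra fun hcon => y3 hcon⟩
  refine ⟨S', c1, c2', ?_⟩
  filter_upwards [nea_ae H.toPkT hTop hF o, den2_ae G, dns_pt G₂, hG₂ae, rate_ae hA]
    with g e1 e2 e3 e4 e5 hg κ _ p
  refine ⟨0, fun Sl hd hΦ hS => ?_⟩
  have g0 : 0 < g := (hGs hg).1.1.1
  have g1 : g < 1 := (hGs hg).1.1.2.1
  obtain ⟨c, hc, hNe⟩ := e1 (hGs hg) Sl (fun l l1 l2 => by
      rw [← dgN_lvl o l2]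
      exact hd l l1 (by omega)) (fun l l1 l2 => hS l l1 (by omega)) (fun k l k1 k2 k3 => by
      obtain rfl : k = 1 := by omega
      obtain rfl : l = 2 := by omega
      exact hΦ)
  have d1 := hd 1 le_rfl (by norm_num)
  have d2 := hd 2 (by norm_num) (by norm_num)
  obtain ⟨gu, uv, v1, ρ₀, hρ₀, hwn⟩ := gwn_near H.toPk hTop hF (by norm_num) hGs hg (e2 hg)
    (hS 1 le_rfl (by norm_num)) d1
  obtain ⟨θ, M₀, ρ₂, hM₀, hρ₂, hrn, hrate⟩ := e5 g0 g1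
  obtain ⟨B, hB1, hB2⟩ := exists_between g1
  obtain ⟨γ, y, hgch⟩ := (hA B (g0.trans hB1) hB2).gch
  obtain ⟨ρ₁, hρ₁, p1, p2, p3, p4⟩ : ∃ ρ₁ : ℝ, 0 < ρ₁ ∧ ρ₁ ≤ ρ₀ ∧ ρ₁ ≤ ρ₂ ∧ ρ₁ ≤ g ∧
      ρ₁ < B - g :=
    ⟨min (min ρ₀ ρ₂) (min g ((B - g) / 2)),
      lt_min (lt_min hρ₀ hρ₂) (lt_min g0 (by linarith)),
      (min_le_left _ _).trans (min_le_left _ _), (min_le_left _ _).trans (min_le_right _ _),
      (min_le_right _ _).trans (min_le_left _ _),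
      lt_of_le_of_lt ((min_le_right _ _).trans (min_le_right _ _)) (by linarith)⟩
  have hloc : ∀ w ∈ D, |w - g| ≤ ρ₁ →
      Gdw Λ (cc hn o.1.1 0) (cc hn o.1.1 1) (cc hn o.1.1 2) w ∧
      LvL hn P P' o 1 w w = Λ {cc hn o.1.1 0} (cc hn o.1.1 1) w w ∧
      LvL hn P P' o 2 w w = Λ {cc hn o.1.1 0, cc hn o.1.1 1} (cc hn o.1.1 2) w w ∧
      Λ ∅ (cc hn o.1.1 0) w 0 ≤ w ∧ ∃ (u₁ : ℝ) (rd : ℕ → ℝ),
        Chn S₁ (cc hn o.1.1) 1 3 w w u₁ (fun l => LvL hn P P' o l w w) rd := by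
    intro w hw hwg
    have hw2 := hDG hw
    rw [hG₂] at hw2
    obtain ⟨x1, x2, x3, x4⟩ := hw2
    obtain ⟨z1, z2, z3, z4⟩ := hwn w x1 (hwg.trans p1) x2 x3 x4
    obtain ⟨y1, y2⟩ := abs_le.1 hwg
    obtain ⟨u₁, rd, -, hch⟩ := hgch.ch w x1 (by linarith) (by linarith)
    exact ⟨z1, z2, z3, z4, u₁, rd, hch⟩
  refine fulG_near (S₂ := S₂) (S' := S') (C₀ := 6) (L := Λ) (D := D) (S₁ := Sl 1) (Sd := Sl 2)
    (u₀ := LvL hn P P' o 1 g g) (v₀ := LvL hn P P' o 2 g g) (ρ₁ := ρ₁) (θ := θ) (M₀ := M₀)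
    (fun τ J F A hτ h => htm τ J F A hτ (c2' τ J F A h))
    (fun τ J F A h => hC.pos τ J F A (c2' τ J F A h)) (fun w hw => by
      have := hDG hw
      rw [hG₂] at this
      exact this.1) g0 (hS 1 le_rfl (by norm_num)) (hS 2 (by norm_num) (by norm_num)) gu uv v1
    ?_ ?_ hρ₁ (fun w hw hwg => ?_) ?_ ?_ c3 hM₀ ?_ ?_
  · intro e he
    obtain ⟨r1, hr1, k1⟩ := lin_near d1 he
    obtain ⟨r2, hr2, k2⟩ := lin_near d2 he
    refine ⟨min r1 r2, lt_min hr1 hr2, fun r hr hrr w hw => ⟨?_, ?_⟩⟩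
    · rw [sub_sub]
      exact k1 r hr (hrr.trans_le (min_le_left _ _)) w hw
    · rw [sub_sub]
      exact k2 r hr (hrr.trans_le (min_le_right _ _)) w hw
  · intro e he
    obtain ⟨r₀, hr₀, h3⟩ := e3 (e4 hg) e he
    exact ⟨r₀, hr₀, fun r hr hrr x y x1 x2 x3 => hDd x y (h3 r hr hrr x y x1 x2 x3)⟩
  · obtain ⟨z1, z2, z3, z4, u₁, rd, hch⟩ := hloc w hw hwg
    exact ⟨z1, z2, z3, z4, u₁, rd, hch.sub c21⟩
  · intro h b o' κ' hb ho hm h1
    have hin : ∀ w, b ≤ w → w ≤ o' → |w - g| ≤ ρ₁ := fun w w1 w2 => by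
      have x1 := (abs_le.1 hb).1
      have x2 := (abs_le.1 ho).2
      rw [abs_le]
      constructor <;> linarith
    refine slo_msh (S := S₂) (C₀ := 6) (D := D) (V := fun w => LvL hn P P' o 2 w w)
      (sn := fun w l => LvL hn P P' o l w w) (c := cc hn o.1.1)
      (fun τ J F A hτ h => htm τ J F A hτ (b2' τ J F A h)) (fun w hw w1 w2 => ?_)
      (fun w hw w1 w2 => ?_) hm h1 (fun w hw w' hw' w1 w2 w3 => ?_)
    · obtain ⟨-, -, -, -, u₁, rd, hch⟩ := hloc w hw (hin w w1 w2)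
      exact ⟨u₁, rd, (hch.take (by norm_num) (by norm_num)).sub b2⟩
    · obtain ⟨z1, -, z3, -, -⟩ := hloc w hw (hin w w1 w2)
      show SRel.Ex S₂ (RL 4 {cc hn o.1.1 0} (cc hn o.1.1 1) (cc hn o.1.1 2) w
        (LvL hn P P' o 2 w w))
      rw [z3]
      exact (b3 w ⟨hw, z1⟩ 0 (by norm_num)).ex
    · obtain ⟨-, z2, -⟩ := hloc w hw (hin w w1 (w2.trans w3))
      obtain ⟨-, z2', -⟩ := hloc w' hw' (hin w' (w1.trans w2) w3)
      show LvL hn P P' o 1 w w ≤ LvL hn P P' o 1 w' w'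
      rw [z2, z2']
      exact hlam.mono _ _ _ _ _ _ _ (Finset.Subset.refl _) w2 w2
  · intro θ' M hθ' hM'
    obtain ⟨ρ, hρ, h3⟩ := rex_g H.toPk hTop hF (by norm_num) (rec_exh 4 3 (by norm_num) (by norm_num))
      (fun k hk => by
        rcases Nat.eq_zero_or_pos k with rfl | h4
        · exact fzx_zero
        · exact hFn k h4 (by omega)) hc hNe hθ' hM'
    refine ⟨ρ, hρ, fun R hR hRρ P₀ η x1 x2 x3 => ?_⟩
    obtain ⟨h, hh, h4⟩ := h3 R hR hRρ P₀ η x1 x2 x3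
    exact ⟨h, hh, h4 S₂ b2'⟩
  · intro q hq
    obtain ⟨⟨η, x1⟩, x2⟩ := hrn q (hq.trans p2)
    exact ⟨⟨η, x1.sub c21⟩, fun k => (x2 k).sub c21⟩
  · exact fun r hr hrr => hrate r hr (hrr.trans p2)

theorem her_ful (Φ : (ℕ → ℝ) → Prop) (n : ℕ) : HerQ (FulQ Φ : PropG n Unit) :=
  fun _ _ _ _ _ _ _ _ _ _ _ _ _ _ hs h Sl h1 h2 h3 => (h Sl h1 h2 h3).sub hs

end fin

end Pool.FUL95
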