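import Pool.Agent.H95.VF.Fle
import Pool.Agent.H17.COR.Mxc

/-!
# The data of an item: records, charts, the record of the tube, the own heights, in one class

`HNm`: the numbers of an item. `ItF`: the data. `itm_root`: in every subclass there is a subclass with
the data, from the exactness behind records.
-/

set_option autoImplicit false

namespace Pool.FUL95

open Finset Real MvPolynomial Filter Topology
open Pool.Agent.H49.Ent Pool.Agent.H32.Dense Pool.STK Pool.KA Pool.KSAT Pool.K2S Pool.PB Pool.S6C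
  Pool.GEN Pool.RCD Pool.LA91 Pool.MIC6 Pool.CH30 Pool.OWN68 Pool.OWN17 Pool.EXC33
open Pool.OWN83 (yX)

variable {m : ℕ}

/-- **The numbers of an item**: the windows `b ≤ o`, the common digits `P₀`, the digits `n₁`, `n₂` of
the own heights, the number `κ` of the slopes. -/
structure HNm (S : PCl m) (L : Finset (Fin m) → Fin m → ℝ → ℝ → ℝ) (y u v : Fin m)
    (b o κ P₀ n₁ n₂ NI ε : ℝ) : Prop where
  gb : Gdw L y u v b
  go : Gdw L y u v o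
  bo : b ≤ o
  o1 : o ≤ 1
  slo : SloN S (RL m {y} u v b (L {y} u b b + κ)) (RL m {y} u v o (L {y} u o o + κ)) κ
  ε0 : 0 < ε
  bU : b < L {y} u b b - ε
  bD : b < L {y, u} v b b - 2 * ε
  UI : L {y} u b b - b + NI ≤ L {y} u o o - o
  DI : L {y, u} v b b - b + NI ≤ L {y} u o o + κ - o
  kb : L {y} u b b + κ ≤ L {y, u} v b b
  ko : L {y} u o o + κ ≤ L {y, u} v o o
  P0 : 0 ≤ P₀
  PI : P₀ ≤ NI
  n10 : 0 ≤ n₁
  n1I : n₁ ≤ NI
  n20 : 0 ≤ n₂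
  n2I : n₂ ≤ NI
  bI : b + NI < 1
  U1 : L {y} u b b + n₁ ≤ 1
  D1 : L {y, u} v b b + n₂ ≤ 1

theorem HNm.sub {S S' : PCl m} {L : Finset (Fin m) → Fin m → ℝ → ℝ → ℝ} {y u v : Fin m}
    {b o κ P₀ n₁ n₂ NI ε : ℝ} (h : HNm S L y u v b o κ P₀ n₁ n₂ NI ε)
    (hs : ∀ (τ : ℝ) (J : ℕ) (F : Fam m J) (A : F.Ω → Prop), S'.St τ J F A → S.St τ J F A) :
    HNm S' L y u v b o κ P₀ n₁ n₂ NI ε :=
  { h with slo := h.slo.sub hs }

/-- **The data of an item** in a class: the records `z` of the window `b`, the charts `a`, `β` of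
`u`, `v` at `b`; the own heights are full given the record of the tube and the exact first
coordinate; the record and the own heights are few bits given a closed function of the window `o`,
the exact first coordinate and `P₀ J` digits of its velocity. -/
def ItF (S : PCl m) (y u v : Fin m) (b o U D P₀ n₁ n₂ ε kM ηx : ℝ) : Prop :=
  ∃ (V : ∀ J : ℕ, Fam m J → Type) (z : ∀ (J : ℕ) (F : Fam m J), LnT F → V J F)
    (a β : ∀ (J : ℕ) (F : Fam m J), LnT F → Fin 4 → ℝ),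
    Bas S (fun J F A =>
      ChA F y y u ⌊b * J⌋₊ ⌊(U - ε) * J⌋₊ ⌊ε * J⌋₊ (a J F) A ∧ (∀ s, a J F s 3 = 0) ∧
      ChA F y u v ⌊b * J⌋₊ ⌊(D - ε) * J⌋₊ ⌊ε * J⌋₊ (β J F) A) ∧
    Bas S (fun J F A => Mx (fun J F => ptr F J) (vg b) kM F A
      (fun ω => z J F (slam F ⌊b * J⌋₊ ω))) ∧
    (∀ ρ : ℝ, 0 < ρ → Bas S (fun J F A =>
      ((n₁ + n₂ - 2 * P₀ - 3 * ε - ηx) * Real.log 2 - ρ) * J ≤
        CH (Pool.Agent.H49.Ent.cond F.p A True)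
          (hgB F y u v ⌊b * J⌋₊ (⌊(U - ε) * J⌋₊ + ⌊n₁ * J⌋₊) (⌊(D - 2 * ε) * J⌋₊ + ⌊n₂ * J⌋₊)
            (a J F) (β J F))
          (fun ω => (yX {y} J F ω, rdR F y u v ⌊b * J⌋₊ ⌊(U - ε) * J⌋₊ ⌊(D - 2 * ε) * J⌋₊
            ⌊P₀ * J⌋₊ (z J F) (a J F) (β J F) ω)))) ∧
    ∀ ρ : ℝ, 0 < ρ → Bas S (fun J F A => ∃ (W : Type) (zo : F.Ω → W),
      Cl2 (ptr F J) (vg o J F) A zo ∧
      CH (Pool.Agent.H49.Ent.cond F.p A True)
        (fun ω => (rdR F y u v ⌊b * J⌋₊ ⌊(U - ε) * J⌋₊ ⌊(D - 2 * ε) * J⌋₊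
            ⌊P₀ * J⌋₊ (z J F) (a J F) (β J F) ω,
          hgB F y u v ⌊b * J⌋₊ (⌊(U - ε) * J⌋₊ + ⌊n₁ * J⌋₊) (⌊(D - 2 * ε) * J⌋₊ + ⌊n₂ * J⌋₊)
            (a J F) (β J F) ω))
        (fun ω => (zo ω, (F.D ⌊P₀ * J⌋₊ ω y, yX {y} J F ω))) ≤ ρ * J)

theorem ItF.sub {S S' : PCl m} {y u v : Fin m} {b o U D P₀ n₁ n₂ ε kM ηx : ℝ}
    (h : ItF S y u v b o U D P₀ n₁ n₂ ε kM ηx)
    (hs : ∀ (τ : ℝ) (J : ℕ) (F : Fam m J) (A : F.Ω → Prop), S'.St τ J F A → S.St τ J F A) :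
    ItF S' y u v b o U D P₀ n₁ n₂ ε kM ηx := by
  obtain ⟨V, z, a, β, h1, h2, h3, h4⟩ := h
  exact ⟨V, z, a, β, h1.sub hs, h2.sub hs,
    fun ρ hρ => (h3 ρ hρ).sub hs, fun ρ hρ => (h4 ρ hρ).sub hs⟩

theorem ev2 (l r : List (ℕ × ℝ)) (k : ℕ) (hl : ∀ a ∈ l, 0 ≤ a.2)
    (h : (l.map fun a => (a.1 : ℝ) * a.2).sum < (r.map fun a => (a.1 : ℝ) * a.2).sum) :
    ∃ J₀ : ℕ, ∀ J : ℕ, J₀ ≤ J → (l.map fun a => a.1 * ⌊a.2 * (J : ℝ)⌋₊).sum + k ≤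
      (r.map fun a => a.1 * ⌊a.2 * (J : ℝ)⌋₊).sum :=
  (fl_ev l r k hl h).exists_forall_of_atTop

/-- The numbers of an item, as natural numbers. -/
theorem HNm.fit {S : PCl m} {L : Finset (Fin m) → Fin m → ℝ → ℝ → ℝ} {y u v : Fin m}
    {b o κ P₀ n₁ n₂ NI ε : ℝ} (h : HNm S L y u v b o κ P₀ n₁ n₂ NI ε) {e : ℝ} (he : 0 < e)
    (hee : e ≤ ε / 4) : ∃ J₀ : ℕ, ∀ J : ℕ, J₀ ≤ J →
      ⌊(L {y} u b b - ε) * J⌋₊ + ⌊NI * J⌋₊ + 1 + ⌊o * J⌋₊ ≤ ⌊(L {y} u o o - e) * J⌋₊ + ⌊b * J⌋₊ ∧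
      ⌊(L {y, u} v b b - 2 * ε) * J⌋₊ + ⌊NI * J⌋₊ + 1 + ⌊o * J⌋₊ ≤
        ⌊(L {y} u o o + κ - ε) * J⌋₊ + ⌊b * J⌋₊ ∧
      ⌊(L {y} u b b - ε) * J⌋₊ + ⌊NI * J⌋₊ + 1 ≤ ⌊(L {y} u o o - e) * J⌋₊ ∧
      ⌊(L {y, u} v b b - 2 * ε) * J⌋₊ + ⌊NI * J⌋₊ + 1 ≤ ⌊(L {y} u o o + κ - ε) * J⌋₊ ∧
      ⌊b * J⌋₊ + ⌊NI * J⌋₊ ≤ J ∧
      ⌊(L {y} u b b - ε) * J⌋₊ + ⌊n₁ * J⌋₊ + ⌊e * J⌋₊ ≤ J ∧
      ⌊(L {y, u} v b b - 2 * ε) * J⌋₊ + ⌊n₂ * J⌋₊ + ⌊e * J⌋₊ + 1 ≤ J := by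
  have hb := h.gb.t0
  have a1 := h.ε0
  have a2 := h.bU
  have a3 := h.bD
  have a4 := h.UI
  have a5 := h.DI
  have a6 := h.bo
  have a7 := h.P0
  have a8 := h.PI
  have a9 := h.n10
  have a10 := h.n20
  have a11 := h.bI
  have a12 := h.U1
  have a13 := h.D1
  obtain ⟨J₁, k1⟩ := ev2 [(1, L {y} u b b - ε), (1, NI), (1, o)]
    [(1, L {y} u o o - e), (1, b)] 1 (by
      simp only [List.mem_cons, List.not_mem_nil, or_false, forall_eq_or_imp, forall_eq]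
      exact ⟨by linarith, by linarith, by linarith⟩) (by
      simp only [List.map_cons, List.map_nil, List.sum_cons, List.sum_nil]
      push_cast
      linarith)
  obtain ⟨J₂, k2⟩ := ev2 [(1, L {y, u} v b b - 2 * ε), (1, NI), (1, o)]
    [(1, L {y} u o o + κ - ε), (1, b)] 1 (by
      simp only [List.mem_cons, List.not_mem_nil, or_false, forall_eq_or_imp, forall_eq]
      exact ⟨by linarith, by linarith, by linarith⟩) (by
      simp only [List.map_cons, List.map_nil, List.sum_cons, List.sum_nil]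
      push_cast
      linarith)
  obtain ⟨J₃, k3⟩ := ev2 [(1, L {y} u b b - ε), (1, NI)] [(1, L {y} u o o - e)] 1 (by
      simp only [List.mem_cons, List.not_mem_nil, or_false, forall_eq_or_imp, forall_eq]
      exact ⟨by linarith, by linarith⟩) (by
      simp only [List.map_cons, List.map_nil, List.sum_cons, List.sum_nil]
      push_cast
      linarith)
  obtain ⟨J₄, k4⟩ := ev2 [(1, L {y, u} v b b - 2 * ε), (1, NI)]
    [(1, L {y} u o o + κ - ε)] 1 (by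
      simp only [List.mem_cons, List.not_mem_nil, or_false, forall_eq_or_imp, forall_eq]
      exact ⟨by linarith, by linarith⟩) (by
      simp only [List.map_cons, List.map_nil, List.sum_cons, List.sum_nil]
      push_cast
      linarith)
  obtain ⟨J₅, k5⟩ := ev2 [(1, b), (1, NI)] [(1, (1 : ℝ))] 0 (by
      simp only [List.mem_cons, List.not_mem_nil, or_false, forall_eq_or_imp, forall_eq]
      exact ⟨by linarith, by linarith⟩) (by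
      simp only [List.map_cons, List.map_nil, List.sum_cons, List.sum_nil]
      push_cast
      linarith)
  obtain ⟨J₆, k6⟩ := ev2 [(1, L {y} u b b - ε), (1, n₁), (1, e)] [(1, (1 : ℝ))] 0 (by
      simp only [List.mem_cons, List.not_mem_nil, or_false, forall_eq_or_imp, forall_eq]
      exact ⟨by linarith, by linarith, by linarith⟩) (by
      simp only [List.map_cons, List.map_nil, List.sum_cons, List.sum_nil]
      push_cast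
      linarith)
  obtain ⟨J₇, k7⟩ := ev2 [(1, L {y, u} v b b - 2 * ε), (1, n₂), (1, e)] [(1, (1 : ℝ))] 1 (by
      simp only [List.mem_cons, List.not_mem_nil, or_false, forall_eq_or_imp, forall_eq]
      exact ⟨by linarith, by linarith, by linarith⟩) (by
      simp only [List.map_cons, List.map_nil, List.sum_cons, List.sum_nil]
      push_cast
      linarith)
  simp only [List.map_cons, List.map_nil, List.sum_cons, List.sum_nil, one_mul, add_zero]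
    at k1 k2 k3 k4 k5 k6 k7
  refine ⟨J₁ + J₂ + J₃ + J₄ + J₅ + J₆ + J₇, fun J hJ => ?_⟩
  have c1 := k1 J (by omega)
  have c2 := k2 J (by omega)
  have c3 := k3 J (by omega)
  have c4 := k4 J (by omega)
  have c5 := k5 J (by omega)
  have c6 := k6 J (by omega)
  have c7 := k7 J (by omega)
  have hJf : ⌊(J : ℝ)⌋₊ = J := Nat.floor_natCast J
  rw [hJf] at c5 c6 c7
  exact ⟨by omega, by omega, by omega, by omega, by omega, by omega, by omega⟩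

theorem img0 (c : ℕ → Fin m) : (range 0).image c = ∅ := by
  rw [range_zero, image_empty]

theorem img1 (c : ℕ → Fin m) : (range 1).image c = {c 0} := by
  rw [range_one, image_singleton]

theorem img2 (c : ℕ → Fin m) : (range 2).image c = {c 0, c 1} := by
  have : range 2 = {0, 1} := rfl
  rw [this, image_insert, image_singleton]

/-- **The data of an item** in a subclass. -/
theorem itm_root {S₀ : PCl m} {C₀ : ℝ} (hC₀ : 0 ≤ C₀) (htm : TmC S₀ C₀)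
    (hpos : ∀ (τ : ℝ) (J : ℕ) (F : Fam m J) (A : F.Ω → Prop), S₀.St τ J F A → 0 < Pe F.p A)
    {L : Finset (Fin m) → Fin m → ℝ → ℝ → ℝ} (hL : LamW S₀ L) {c : ℕ → Fin m} (h01 : c 0 ≠ c 1)
    (hact : ActF S₀ (c 0)) {M : ℝ}
    (hM : Bas S₀ (fun J F A => (cnt F.p (ptr F J) A : ℝ) ≤ Real.exp (M * J)))
    {b o κ P₀ n₁ n₂ NI ε ηx kM b₀ b₁ hx : ℝ}
    (hN : HNm S₀ L (c 0) (c 1) (c 2) b o κ P₀ n₁ n₂ NI ε) (hkM : 0 < kM)
    (hb0 : L ∅ (c 0) b 0 ≤ b) (hrex : RexS S₀ L c 3 b₀ b₁ P₀ ηx hx) (hx0 : 0 < hx)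
    (hb₀ : b₀ < b) (hb₁ : b < b₁)
    {S₁ : PCl m} (hne : S₁.Ne)
    (hs : ∀ (τ : ℝ) (J : ℕ) (F : Fam m J) (A : F.Ω → Prop), S₁.St τ J F A → S₀.St τ J F A) :
    ∃ S₂ : PCl m, S₂.Ne ∧
      (∀ (τ : ℝ) (J : ℕ) (F : Fam m J) (A : F.Ω → Prop), S₂.St τ J F A → S₁.St τ J F A) ∧
      ItF S₂ (c 0) (c 1) (c 2) b o (L {c 0} (c 1) b b) (L {c 0, c 1} (c 2) b b) P₀ n₁ n₂ ε kM
        ηx := by
  classical
  have hl2 : 0 < Real.log 2 := Real.log_pos one_lt_two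
  obtain ⟨y, hy⟩ : ∃ y, y = c 0 := ⟨_, rfl⟩
  obtain ⟨u, hu⟩ : ∃ u, u = c 1 := ⟨_, rfl⟩
  obtain ⟨v, hv⟩ : ∃ v, v = c 2 := ⟨_, rfl⟩
  rw [← hy, ← hu] at h01
  rw [← hy] at hact hb0
  rw [← hy, ← hu, ← hv] at hN ⊢
  have hb := hN.gb.t0
  have hb1 : b < 1 := by
    have := hN.gb.tU
    have := hN.gb.U1
    linarith
  have hε := hN.ε0
  -- the number of the record
  obtain ⟨S₂, hne₂, hs₂, hrn⟩ := ext_rec hne (fun τ J F A h => hpos τ J F A (hs τ J F A h))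
    (fun _ _ F => PtT F) (fun _ _ F => LnT F) (fun _ J F => ptr F J) (fun _ => vg b)
    (fun _ => M) (fun _ => hM.sub hs)
  obtain ⟨ηr, hrn⟩ := hrn 0
  have hs02 : ∀ (τ : ℝ) (J : ℕ) (F : Fam m J) (A : F.Ω → Prop), S₂.St τ J F A →
      S₀.St τ J F A := fun τ J F A h => hs τ J F A (hs₂ τ J F A h)
  -- the accuracy
  obtain ⟨e₀, he₀, hchw⟩ := chw_root htm h01 hact hN.slo hb.le hN.bo hN.o1 hN.bU hN.bD (by
    have := hN.UI
    have := hN.P0.trans hN.PI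
    linarith) hN.kb hN.ko (by
    have := hN.DI
    have := hN.P0.trans hN.PI
    linarith) hε
  obtain ⟨e, he, hee, he4⟩ : ∃ e : ℝ, 0 < e ∧ e ≤ e₀ ∧ e ≤ ε / 4 :=
    ⟨min e₀ (ε / 4), by positivity, min_le_left _ _, min_le_right _ _⟩
  -- the charts
  obtain ⟨S₃, a, β, hne₃, hs₃, hch⟩ := cht_all hne₂ hC₀
    (fun τ J F A hτ h => htm τ J F A hτ (hs02 τ J F A h)) (hL.sub hs02) h01
    (fun g hg => by
      obtain ⟨c', hc', hbb⟩ := hact g hg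
      exact ⟨c', hc', hbb.sub hs02⟩) (ι := Bool) (x := fun i => if i then o else b)
    (by
      intro i
      cases i
      · exact hN.gb
      · exact hN.go) he 0
  have hs03 : ∀ (τ : ℝ) (J : ℕ) (F : Fam m J) (A : F.Ω → Prop), S₃.St τ J F A →
      S₀.St τ J F A := fun τ J F A h => hs02 τ J F A (hs₃ τ J F A h)
  -- the records
  obtain ⟨S₄, V, z, hne₄, hs₄, hz1, -, hz2⟩ := mx_root hne₃
    (fun τ J F A h => hpos τ J F A (hs03 τ J F A h)) (ι := Unit) (fun J F => ptr F J)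
    (fun _ => b) (fun _ => hb1.le) (η := fun _ => ηr) (fun _ => hrn.sub hs₃) hkM
  have hs04 : ∀ (τ : ℝ) (J : ℕ) (F : Fam m J) (A : F.Ω → Prop), S₄.St τ J F A →
      S₀.St τ J F A := fun τ J F A h => hs03 τ J F A (hs₄ τ J F A h)
  -- the charts of the two windows are near
  obtain ⟨J₁, hJ₁⟩ := hN.fit he he4
  obtain ⟨S₅, hne₅, hs₅, hnr⟩ := hchw e he hee S₄ hne₄ hs04 (a false) (β false) (a true) (β true)
    (by
      intro τ J F A hA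
      obtain ⟨-, h1⟩ := hch τ J F A (hs₄ τ J F A hA)
      have hf := h1 false
      have ht := h1 true
      simp only [if_true, Bool.false_eq_true, if_false] at hf ht
      exact ⟨hf.1, hf.2.1, hf.2.2, ht.1, ht.2.1, ht.2.2⟩) J₁
  have hs05 : ∀ (τ : ℝ) (J : ℕ) (F : Fam m J) (A : F.Ω → Prop), S₅.St τ J F A →
      S₀.St τ J F A := fun τ J F A h => hs04 τ J F A (hs₅ τ J F A h)
  obtain ⟨bb, hbb⟩ : ∃ bb : ∀ (J : ℕ) (F : Fam m J), LnT F → Fin 4 → ℝ,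
    bb = fun (J : ℕ) (F : Fam m J) => bsh F ⌊b * J⌋₊ ⌊o * J⌋₊ (β false J F) (a true J F) (β true J F) := ⟨_, rfl⟩
  -- the data of the deep window
  have hdp : ∀ (τ : ℝ) (J : ℕ) (F : Fam m J) (A : F.Ω → Prop), S₅.St τ J F A → J₁ ≤ J ∧
      ChA F y y u ⌊b * J⌋₊ ⌊(L {y} u b b - e) * J⌋₊ ⌊e * J⌋₊ (a false J F) A ∧
      (∀ s, a false J F s 3 = 0) ∧
      ChA F y u v ⌊b * J⌋₊ ⌊(L {y, u} v b b - e) * J⌋₊ ⌊e * J⌋₊ (β false J F) A ∧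
      ChA F y y u ⌊o * J⌋₊ ⌊(L {y} u o o - e) * J⌋₊ ⌊e * J⌋₊ (a true J F) A ∧
      ChA F y u v ⌊o * J⌋₊ ⌊(L {y} u o o + κ - ε) * J⌋₊ (2 * ⌊e * J⌋₊ + 2) (bb J F) A ∧
      Dpl (Pool.Agent.H49.Ent.cond F.p A True) (4 * 1) J ⌊b * J⌋₊ ⌊(L {y} u b b - ε) * J⌋₊
        ⌊(L {y, u} v b b - 2 * ε) * J⌋₊ ⌊NI * J⌋₊ (lnF F y u v ⌊b * J⌋₊)
        (OWN17.hC F ⌊b * J⌋₊ ⌊b * J⌋₊ (a false J F) (β false J F))
        (fC F ⌊o * J⌋₊ (a true J F) (bb J F)) F.T (fun ω => F.X J ω y)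
        (AuC F ⌊b * J⌋₊ ⌊o * J⌋₊ (a false J F) (a true J F))
        (AvC F ⌊b * J⌋₊ ⌊o * J⌋₊ (β false J F) (a true J F) (bb J F)) := by
    intro τ J F A hA
    obtain ⟨hJ, q1, q2⟩ := hnr τ J F A hA
    obtain ⟨-, h1⟩ := hch τ J F A (hs₄ τ J F A (hs₅ τ J F A hA))
    have hf := h1 false
    have ht := h1 true
    simp only [if_true, Bool.false_eq_true, if_false] at hf ht
    obtain ⟨f1, f2, f3⟩ := hf
    obtain ⟨t1, t2, t3⟩ := ht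
    obtain ⟨m1, m2, m3, m4, m5, m6, m7⟩ := hJ₁ J hJ
    have hJ0 : (0 : ℝ) ≤ J := Nat.cast_nonneg J
    rw [hbb]
    refine ⟨hJ, f1, f2, f3, t1, q1, ?_⟩
    have hE : ⌊e * (J : ℝ)⌋₊ ≤ 2 * ⌊e * (J : ℝ)⌋₊ + 2 := by omega
    refine dpl_of le_rfl (MU := ⌊(L {y} u b b - e) * J⌋₊) (MV := ⌊(L {y, u} v b b - e) * J⌋₊)
      (MU' := ⌊(L {y} u o o - e) * J⌋₊) (MV' := ⌊(L {y} u o o + κ - ε) * J⌋₊)
      (E := 2 * ⌊e * J⌋₊ + 2) (k₀ := 1)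
      ⟨f1.mono le_rfl hE, f2, f3.mono le_rfl hE, t1.mono le_rfl hE, t2, q1⟩ (by
        rw [Nat.cast_one]
        exact q2) le_rfl m5 (by norm_num) ?_ ?_ ?_ ?_ ?_ ?_
    · exact Nat.floor_le_floor (mul_le_mul_of_nonneg_right (by linarith) hJ0)
    · exact Nat.floor_le_floor (mul_le_mul_of_nonneg_right (by linarith) hJ0)
    · omega
    · omega
    · omega
    · omega
  -- the code of the deep window
  obtain ⟨W, hW⟩ : ∃ W : ∀ J : ℕ, Fam m J → Type, W = fun J F =>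
    (((Fin 4 → ℝ) × (Fin 4 → ℝ)) × ((Fin 4 → ℝ) × (Fin 4 → ℝ))) × V J F := ⟨_, rfl⟩
  subst hW
  obtain ⟨zo, hzo⟩ : ∃ zo : ∀ (J : ℕ) (F : Fam m J), F.Ω →
      (((Fin 4 → ℝ) × (Fin 4 → ℝ)) × ((Fin 4 → ℝ) × (Fin 4 → ℝ))) × V J F,
    zo = fun (J : ℕ) (F : Fam m J) (ω : F.Ω) =>
    (((a true J F (slam F ⌊o * J⌋₊ ω), bb J F (slam F ⌊o * J⌋₊ ω)),
      (a false J F (slam F ⌊b * J⌋₊ ω), β false J F (slam F ⌊b * J⌋₊ ω))),
        z J F () (slam F ⌊b * J⌋₊ ω)) := ⟨_, rfl⟩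
  have hcl : ∀ (τ : ℝ) (J : ℕ) (F : Fam m J) (A : F.Ω → Prop), S₅.St τ J F A →
      Cl2 (ptr F J) (vg o J F) A (zo J F) := by
    intro τ J F A hA
    obtain ⟨hJ, f1, f2, f3, t1, q1, -⟩ := hdp τ J F A hA
    have hzc := hz1 τ J F A (hs₅ τ J F A hA) ()
    have hcrs : ∃ φ : LnT F → LnT F, ∀ ω, A ω → slam F ⌊b * J⌋₊ ω = φ (vg o J F ω) := by
      obtain ⟨φ, hφ⟩ := vg_mono hN.bo hN.o1 J F
      exact ⟨φ, fun ω _ => hφ ω⟩
    rw [hzo]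
    exact ((t1.cl2.join q1.cl2).join ((f1.cl2.join f3.cl2).mono ⟨id, fun _ _ => rfl⟩ hcrs)).join
      (hzc.mono ⟨id, fun _ _ => rfl⟩ hcrs)
  obtain ⟨R, hR⟩ : ∃ R : ∀ (J : ℕ) (F : Fam m J), F.Ω → ((V J F × ((Fin 4 → ℝ) × (Fin 4 → ℝ))) × ℕ) ×
      (ℕ × ((ℤ × ℤ) × ((ℤ × ℤ) × (ℤ × ℤ)))),
    R = fun (J : ℕ) (F : Fam m J) => rdR F y u v ⌊b * J⌋₊ ⌊(L {y} u b b - ε) * J⌋₊ ⌊(L {y, u} v b b - 2 * ε) * J⌋₊ ⌊P₀ * J⌋₊
      (z J F ()) (a false J F) (β false J F) := ⟨_, rfl⟩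
  obtain ⟨H, hH⟩ : ∃ H : ∀ (J : ℕ) (F : Fam m J), F.Ω → ℤ × ℤ,
    H = fun (J : ℕ) (F : Fam m J) => hgB F y u v ⌊b * J⌋₊ (⌊(L {y} u b b - ε) * J⌋₊ + ⌊n₁ * J⌋₊)
      (⌊(L {y, u} v b b - 2 * ε) * J⌋₊ + ⌊n₂ * J⌋₊) (a false J F) (β false J F) := ⟨_, rfl⟩
  have hfew : ∀ (τ : ℝ) (J : ℕ) (F : Fam m J) (A : F.Ω → Prop), S₅.St τ J F A →
      CH (Pool.Agent.H49.Ent.cond F.p A True) (fun ω => (R J F ω, H J F ω))
        (fun ω => (zo J F ω, (F.D ⌊P₀ * J⌋₊ ω y, (F.X J ω y, F.W ω)))) ≤ cfw (4 * 1) := by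
    intro τ J F A hA
    obtain ⟨hJ, f1, f2, f3, t1, q1, hD⟩ := hdp τ J F A hA
    obtain ⟨m1, m2, m3, m4, m5, m6, m7⟩ := hJ₁ J hJ
    have hJ0 : (0 : ℝ) ≤ J := Nat.cast_nonneg J
    have i1 : ⌊P₀ * (J : ℝ)⌋₊ ≤ ⌊NI * (J : ℝ)⌋₊ :=
      Nat.floor_le_floor (mul_le_mul_of_nonneg_right hN.PI hJ0)
    have i2 : ⌊n₁ * (J : ℝ)⌋₊ ≤ ⌊NI * (J : ℝ)⌋₊ :=
      Nat.floor_le_floor (mul_le_mul_of_nonneg_right hN.n1I hJ0)
    have i3 : ⌊n₂ * (J : ℝ)⌋₊ ≤ ⌊NI * (J : ℝ)⌋₊ :=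
      Nat.floor_le_floor (mul_le_mul_of_nonneg_right hN.n2I hJ0)
    rw [hR, hH, hzo]
    exact rdB_few (isLaw_cond F.isLaw (hpos τ J F A (hs05 τ J F A hA))) f2 hD i1 i2 i3 (by omega)
  -- the exactness
  obtain ⟨J₂, hJ₂⟩ := (ge_ev (cfw (4 * 1)) hx0).exists_forall_of_atTop
  have hvy : ∀ (J : ℕ) (F : Fam m J), (lnV b hb.le hb1 _ R).y J F = fun ω => some (R J F ω) := by
    intro J F
    refine lnV_y fun ω ω' hh => ?_
    rw [hR]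
    exact rd_line (floor_le hb1.le J) hh
  obtain ⟨S₆, hne₆, hs₆, hexr⟩ := hrex S₅ hne₅ hs05 (lnV b hb.le hb1 _ R) hb₀ hb₁
    ⟨1, one_pos, J₂, fun J hJ F A hA => by
      refine le_trans ?_ (hJ₂ J hJ)
      refine le_trans ?_ (hfew 1 J F A hA)
      have hA0 := hpos 1 J F A (hs05 1 J F A hA)
      have h0 := (isLaw_cond F.isLaw hA0).nonneg
      obtain ⟨⟨φ, hφ⟩, -⟩ := hcl 1 J F A hA
      rw [hvy]
      have x1 : CH (Pool.Agent.H49.Ent.cond F.p A True) (fun ω => some (R J F ω))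
          (fun ω => (F.D ⌊P₀ * J⌋₊ ω, (F.X J ω, F.W ω))) ≤
          CH (Pool.Agent.H49.Ent.cond F.p A True) (fun ω => (R J F ω, H J F ω))
            (fun ω => (F.D ⌊P₀ * J⌋₊ ω, (F.X J ω, F.W ω))) :=
        CH_mono_left h0 fun ω ω' _ _ hh => by
          simp only [Prod.mk.injEq] at hh
          rw [hh.1.1]
      refine x1.trans (CH_mono_cond h0 fun ω ω' q1 q2 hh => ?_)
      · simp only [Prod.mk.injEq] at hh ⊢
        obtain ⟨g1, g2, g3⟩ := hh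
        refine ⟨?_, congrFun g1 y, congrFun g2 y, g3⟩
        rw [hφ ω (of_cond_pos q1), hφ ω' (of_cond_pos q2)]
        exact congrArg φ (Prod.ext g2 g3)⟩
  have hs06 : ∀ (τ : ℝ) (J : ℕ) (F : Fam m J) (A : F.Ω → Prop), S₆.St τ J F A →
      S₀.St τ J F A := fun τ J F A h => hs05 τ J F A (hs₆ τ J F A h)
  refine ⟨S₆, hne₆, fun τ J F A h => hs₂ τ J F A (hs₃ τ J F A (hs₄ τ J F A (hs₅ τ J F A
    (hs₆ τ J F A h)))), V, fun J F => z J F (), a false, β false, ?_, ?_, ?_, ?_⟩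
  · refine ⟨1, one_pos, 0, fun J _ F A hA => ?_⟩
    obtain ⟨hJ, f1, f2, f3, -⟩ := hdp 1 J F A (hs₆ 1 J F A hA)
    have hJ0 : (0 : ℝ) ≤ J := Nat.cast_nonneg J
    have hE : ⌊e * (J : ℝ)⌋₊ ≤ ⌊ε * (J : ℝ)⌋₊ :=
      Nat.floor_le_floor (mul_le_mul_of_nonneg_right (by linarith) hJ0)
    exact ⟨f1.mono (Nat.floor_le_floor (mul_le_mul_of_nonneg_right (by linarith) hJ0)) hE, f2,
      f3.mono (Nat.floor_le_floor (mul_le_mul_of_nonneg_right (by linarith) hJ0)) hE⟩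
  · exact Bas.mono 0 ((hz2.sub hs₅).sub hs₆) fun J _ F A hA => hA ()
  · intro ρ hρ
    have hρ2 : 0 < ρ / (2 * Real.log 2) := by positivity
    obtain ⟨J₃, hJ₃⟩ := (ge_ev (6 * Real.log 2 + 3 * Real.log 9) (half_pos hρ)).exists_forall_of_atTop
    refine Bas.mono J₃ ((hexr _ hρ2).and (⟨1, one_pos, 0, fun J _ F A hA =>
      ⟨hdp 1 J F A (hs₆ 1 J F A hA), hpos 1 J F A (hs06 1 J F A hA)⟩⟩ :
        Bas S₆ (fun J F A => _ ∧ 0 < Pe F.p A))) ?_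
    rintro J hJ F A ⟨h1, ⟨hJ1, f1, f2, f3, -⟩, hA0⟩
    obtain ⟨m1, m2, m3, m4, m5, m6, m7⟩ := hJ₁ J hJ1
    have hJ0 : (0 : ℝ) ≤ J := Nat.cast_nonneg J
    have hlw := isLaw_cond F.isLaw hA0
    have h0 := hlw.nonneg
    have i1 : ⌊P₀ * (J : ℝ)⌋₊ ≤ ⌊NI * (J : ℝ)⌋₊ :=
      Nat.floor_le_floor (mul_le_mul_of_nonneg_right hN.PI hJ0)
    have key := ex_hgt (F := F) (y := y) (u := u) (v := v) (w := ⌊b * J⌋₊)
      (NU := ⌊(L {y} u b b - ε) * J⌋₊) (NV := ⌊(L {y, u} v b b - 2 * ε) * J⌋₊) (i := ⌊P₀ * J⌋₊)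
      (nu := ⌊(L {y} u b b - ε) * J⌋₊ + ⌊n₁ * J⌋₊)
      (nv := ⌊(L {y, u} v b b - 2 * ε) * J⌋₊ + ⌊n₂ * J⌋₊) (z := z J F ()) (a := a false J F)
      (b := β false J F) hlw (by omega) (by omega) (by omega) (E := ⌊e * J⌋₊) (by omega)
      (by omega) f2 (fun ω hω => f1.bnd ω (of_cond_pos hω) 2 (by decide))
      (fun ω hω => f3.bnd ω (of_cond_pos hω) 2 (by decide))
      (fun ω hω => f3.bnd ω (of_cond_pos hω) 3 (by decide)) (c := c) hy.symm hu.symm hv.symm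
    have k1 : CH (Pool.Agent.H49.Ent.cond F.p A True) (H J F)
        (fun ω => ((F.X J ω y, F.W ω), R J F ω)) ≤
        CH (Pool.Agent.H49.Ent.cond F.p A True) (H J F) (fun ω => (yX {y} J F ω, R J F ω)) :=
      CH_mono_cond h0 fun ω ω' _ _ hh => by
        simp only [Prod.mk.injEq] at hh ⊢
        obtain ⟨⟨g1, g3⟩, g2⟩ := hh
        refine ⟨Prod.ext (funext fun i => ?_) g3, g2⟩
        show (if i ∈ ({y} : Finset (Fin m)) then _ else _) =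
          if i ∈ ({y} : Finset (Fin m)) then _ else _
        by_cases hi : i ∈ ({y} : Finset (Fin m))
        · rw [if_pos hi, if_pos hi, mem_singleton.1 hi, g1]
        · rw [if_neg hi, if_neg hi]
    rw [hvy] at h1
    have e3 : (∑ l ∈ range 3, (1 - L ((range l).image c) (c l) (lnV b hb.le hb1 _ R).b 0 - P₀)) =
        3 - L ∅ y b 0 - L {y} u b 0 - L {y, u} v b 0 - 3 * P₀ := by
      have : (lnV b hb.le hb1 _ R).b = b := rfl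
      rw [this, sum_range_succ, sum_range_succ, sum_range_succ, sum_range_zero, img0, img1, img2,
        ← hy, ← hu, ← hv]
      ring
    rw [e3] at h1
    obtain ⟨G₀, hG⟩ : ∃ G₀ : ℝ, G₀ = 3 - L ∅ y b 0 - L {y} u b 0 - L {y, u} v b 0 - 3 * P₀ - ηx -
      ρ / (2 * Real.log 2) := ⟨_, rfl⟩
    rw [← hG] at h1
    have l1 : L {y} u b 0 ≤ L {y} u b b := hL.mono _ _ _ _ _ _ _ (Subset.refl _) le_rfl hb.le
    have l2 : L {y, u} v b 0 ≤ L {y, u} v b b :=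
      hL.mono _ _ _ _ _ _ _ (Subset.refl _) le_rfl hb.le
    -- the numbers
    have b1 := Nat.lt_floor_add_one (b * (J : ℝ))
    have b2 := Nat.lt_floor_add_one (P₀ * (J : ℝ))
    have b3 := Nat.lt_floor_add_one ((L {y} u b b - ε) * (J : ℝ))
    have b4 := Nat.lt_floor_add_one (n₁ * (J : ℝ))
    have b5 := Nat.lt_floor_add_one ((L {y, u} v b b - 2 * ε) * (J : ℝ))
    have b6 := Nat.lt_floor_add_one (n₂ * (J : ℝ))
    have c1 : (((J - (⌊b * (J : ℝ)⌋₊ + ⌊P₀ * (J : ℝ)⌋₊) : ℕ)) : ℝ) =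
        J - ⌊b * (J : ℝ)⌋₊ - ⌊P₀ * (J : ℝ)⌋₊ := by
      rw [Nat.cast_sub (by omega), Nat.cast_add]
      ring
    have c2 : (((J - (⌊(L {y} u b b - ε) * (J : ℝ)⌋₊ + ⌊n₁ * (J : ℝ)⌋₊) : ℕ)) : ℝ) =
        J - ⌊(L {y} u b b - ε) * (J : ℝ)⌋₊ - ⌊n₁ * (J : ℝ)⌋₊ := by
      rw [Nat.cast_sub (by omega), Nat.cast_add]
      ring
    have c3 : (((J - (⌊(L {y, u} v b b - 2 * ε) * (J : ℝ)⌋₊ + ⌊n₂ * (J : ℝ)⌋₊) : ℕ)) : ℝ) =
        J - ⌊(L {y, u} v b b - 2 * ε) * (J : ℝ)⌋₊ - ⌊n₂ * (J : ℝ)⌋₊ := by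
      rw [Nat.cast_sub (by omega), Nat.cast_add]
      ring
    rw [c1, c2, c3] at key
    have key2 : CH (Pool.Agent.H49.Ent.cond F.p A True) (fun ω (l : Fin 3) => F.X J ω (c l))
        (fun ω => (some (R J F ω), F.W ω)) ≤
        CH (Pool.Agent.H49.Ent.cond F.p A True) (H J F)
          (fun ω => ((F.X J ω y, F.W ω), R J F ω)) +
        ((J - ⌊b * (J : ℝ)⌋₊ - ⌊P₀ * (J : ℝ)⌋₊) + (J - ⌊(L {y} u b b - ε) * (J : ℝ)⌋₊ -
          ⌊n₁ * (J : ℝ)⌋₊) + (J - ⌊(L {y, u} v b b - 2 * ε) * (J : ℝ)⌋₊ - ⌊n₂ * (J : ℝ)⌋₊)) *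
          Real.log 2 + 3 * Real.log 9 := by
      rw [hH, hR]
      exact key
    have h1' : G₀ * Real.log 2 * J ≤ CH (Pool.Agent.H49.Ent.cond F.p A True)
        (fun ω (l : Fin 3) => F.X J ω (c l)) (fun ω => (some (R J F ω), F.W ω)) := h1
    have hJ3 := hJ₃ J hJ
    have d1 : (3 - b - P₀ - L {y} u b b + ε - n₁ - L {y, u} v b b + 2 * ε - n₂) * J + 6 ≥
        (J - ⌊b * (J : ℝ)⌋₊ - ⌊P₀ * (J : ℝ)⌋₊) + (J - ⌊(L {y} u b b - ε) * (J : ℝ)⌋₊ -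
          ⌊n₁ * (J : ℝ)⌋₊) + (J - ⌊(L {y, u} v b b - 2 * ε) * (J : ℝ)⌋₊ - ⌊n₂ * (J : ℝ)⌋₊) := by
      linarith
    have d2 := mul_le_mul_of_nonneg_right d1 hl2.le
    have d3 : (n₁ + n₂ - 2 * P₀ - 3 * ε - ηx - ρ / (2 * Real.log 2)) ≤ G₀ -
        (3 - b - P₀ - L {y} u b b + ε - n₁ - L {y, u} v b b + 2 * ε - n₂) := by
      rw [hG]
      linarith
    have d4 : (n₁ + n₂ - 2 * P₀ - 3 * ε - ηx - ρ / (2 * Real.log 2)) * Real.log 2 * J ≤ (G₀ -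
        (3 - b - P₀ - L {y} u b b + ε - n₁ - L {y, u} v b b + 2 * ε - n₂)) * Real.log 2 * J :=
      mul_le_mul_of_nonneg_right (mul_le_mul_of_nonneg_right d3 hl2.le) hJ0
    have d5 : (n₁ + n₂ - 2 * P₀ - 3 * ε - ηx - ρ / (2 * Real.log 2)) * Real.log 2 * J =
        ((n₁ + n₂ - 2 * P₀ - 3 * ε - ηx) * Real.log 2 - ρ / 2) * J := by
      field_simp
    have d6 : (G₀ - (3 - b - P₀ - L {y} u b b + ε - n₁ - L {y, u} v b b + 2 * ε - n₂)) *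
        Real.log 2 * J = G₀ * Real.log 2 * J - ((3 - b - P₀ - L {y} u b b + ε - n₁ -
          L {y, u} v b b + 2 * ε - n₂) * J + 6) * Real.log 2 + 6 * Real.log 2 := by ring
    have d7 : ((n₁ + n₂ - 2 * P₀ - 3 * ε - ηx) * Real.log 2 - ρ) * J =
        ((n₁ + n₂ - 2 * P₀ - 3 * ε - ηx) * Real.log 2 - ρ / 2) * J - ρ / 2 * J := by ring
    have fin : ((n₁ + n₂ - 2 * P₀ - 3 * ε - ηx) * Real.log 2 - ρ) * J ≤
        CH (Pool.Agent.H49.Ent.cond F.p A True) (H J F) (fun ω => (yX {y} J F ω, R J F ω)) := by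
      rw [d7, ← d5]
      linarith only [key2, k1, h1', d2, d4, d6, hJ3]
    rw [hH, hR] at fin
    exact fin
  · intro ρ hρ
    obtain ⟨J₃, hJ₃⟩ := (ge_ev (cfw (4 * 1)) hρ).exists_forall_of_atTop
    refine ⟨1, one_pos, J₃, fun J hJ F A hA => ⟨_, zo J F, hcl 1 J F A (hs₆ 1 J F A hA), ?_⟩⟩
    have h1 := hfew 1 J F A (hs₆ 1 J F A hA)
    have h0 := (isLaw_cond F.isLaw (hpos 1 J F A (hs06 1 J F A hA))).nonneg
    rw [hR, hH] at h1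
    refine le_trans ?_ (h1.trans (hJ₃ J hJ))
    refine CH_mono_cond h0 fun ω ω' _ _ hh => ?_
    simp only [Prod.mk.injEq] at hh ⊢
    obtain ⟨g1, g2, g3⟩ := hh
    have g4 := congrFun (congrArg Prod.fst g3) y
    have g5 := congrArg Prod.snd g3
    simp only [yX, mem_singleton, if_true] at g4 g5
    exact ⟨g1, g2, g4, g5⟩

end Pool.FUL95
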