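import Pool.Agent.H95.VF.Ffa

/-!
# The jets over the affine charts from the record of the tube

`rj`: the digits of the jets of the places `1`, `2` over the affine charts. `rj_P`: they are labels of
the natural quantities. `rj_few`: they are few bits given the record of the tube.
-/

set_option autoImplicit false

namespace Pool.FUL95

open Finset Real MvPolynomial Filter Topology
open Pool.Agent.H49.Ent Pool.Agent.H32.Dense Pool.STK Pool.KA Pool.KSAT Pool.K2S Pool.PB Pool.S6C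
  Pool.GEN Pool.RCD Pool.LA91 Pool.MIC6 Pool.CH30 Pool.OWN68 Pool.OWN17 Pool.EXC33
open Pool.OWN83 (yX)

variable {m J : ℕ}

/-- The jets of order at least `2` over an affine chart. -/
theorem cpl_ojet2 (F : Fam m J) (κ ι k : Fin m) (c : Fin 4 → ℝ) (ω : F.Ω) (j : ℕ) :
    ojet F k (j + 2) (cpl κ ι c) ω = 0 := by
  have h1 : aeval (lp (bt F ω) (bd F ω)) (X (some k) - cpl κ ι c) =
      Polynomial.C (oh F κ ι k c ω) + Polynomial.C (ov F κ ι k c ω) * Polynomial.X := by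
    refine Polynomial.funext fun t => ?_
    rw [eval_alp, map_sub, eval_X]
    unfold cpl
    rw [eval_afq]
    simp only [Polynomial.eval_add, Polynomial.eval_mul, Polynomial.eval_C, Polynomial.eval_X]
    show (F.x ω k + t * F.d ω k) - (c 0 + (c 1 * (F.t ω + t * 1) +
      (c 2 * (F.x ω κ + t * F.d ω κ) + c 3 * (F.x ω ι + t * F.d ω ι)))) = _
    unfold oh ov
    ring
  unfold ojet jet
  rw [h1, Function.iterate_add_apply]
  have h2 : Polynomial.derivative^[2] (Polynomial.C (oh F κ ι k c ω) +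
      Polynomial.C (ov F κ ι k c ω) * Polynomial.X) = 0 := by
    simp
  rw [h2, Polynomial.iterate_derivative_zero, Polynomial.eval_zero]

/-- The jets over a chart of two coordinates are labels of the natural quantities. -/
theorem chA_qj2 {F : Fam m J} {κ ι k : Fin m} {W : ℝ} {M E : ℕ} {a : LnT F → Fin 4 → ℝ}
    {A : F.Ω → Prop} (h : ChA F κ ι k ⌊W * J⌋₊ M E a A) (hJ : 1 ≤ J) (hW : ⌊W * J⌋₊ ≤ J)
    {p e N : ℝ} (hM : ⌊(p - e) * J⌋₊ ≤ M) (hN : N ≤ 1) {K : ℕ} (hK : 4 ≤ K) :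
    (qJet m {κ, ι} k 0 W p N).P K e J F A
      (fd (N * J) fun ω => oh F κ ι k (a (slam F ⌊W * J⌋₊ ω)) ω) ∧
    (qJet m {κ, ι} k 1 W p N).P K e J F A
      (fd (N * J) fun ω => ov F κ ι k (a (slam F ⌊W * J⌋₊ ω)) ω) := by
  obtain ⟨z, hz⟩ := h.lb
  have hJ0 : (0 : ℝ) ≤ J := Nat.cast_nonneg J
  have hNJ : N * J ≤ J := by nlinarith
  have hz' := hz.mono (Finset.Subset.refl _) (by omega : 1 ≤ K) hM
  refine ⟨⟨cnt_fd hJ hNJ (fun ω hω => ?_) hK, _, z, a, cpl κ ι, hz', fun ω _ => ?_⟩,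
    ⟨cnt_fd hJ hNJ (fun ω hω => ?_) hK, _, z, a, cpl κ ι, hz', fun ω _ => ?_⟩⟩
  · refine (h.pos ω hω).trans ?_
    rw [div_le_iff₀ (by positivity)]
    have a1 : (1 : ℝ) ≤ 2 ^ J := one_le_pow₀ (by norm_num)
    have a2 : (1 : ℝ) ≤ 2 ^ M := one_le_pow₀ (by norm_num)
    nlinarith
  · unfold fd
    rw [(cpl_ojet F κ ι k _ ω).1]
  · refine (h.vel ω hω).trans ?_
    rw [div_le_iff₀ (by positivity)]
    have a1 : (2 : ℝ) ^ ⌊W * J⌋₊ ≤ 2 ^ J := pow_le_pow_right₀ (by norm_num) hW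
    have a2 : (1 : ℝ) ≤ 2 ^ M := one_le_pow₀ (by norm_num)
    have a3 : (0 : ℝ) < 2 ^ J := by positivity
    nlinarith
  · unfold fd
    rw [(cpl_ojet F κ ι k _ ω).2]

theorem chA_qj0 {F : Fam m J} {κ ι k : Fin m} {W : ℝ} {M E : ℕ} {a : LnT F → Fin 4 → ℝ}
    {A : F.Ω → Prop} (h : ChA F κ ι k ⌊W * J⌋₊ M E a A) (hJ : 1 ≤ J) (j : ℕ)
    {p e N : ℝ} (hM : ⌊(p - e) * J⌋₊ ≤ M) {K : ℕ} (hK : 4 ≤ K) :
    (qJet m {κ, ι} k (j + 2) W p N).P K e J F A (fun _ => 0) := by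
  obtain ⟨z, hz⟩ := h.lb
  have hz' := hz.mono (Finset.Subset.refl _) (by omega : 1 ≤ K) hM
  refine ⟨?_, _, z, a, cpl κ ι, hz', fun ω _ => ?_⟩
  · have h1 := cnt_fd (p := F.p) (A := A) (N := 0) (X := fun _ => 0) hJ (Nat.cast_nonneg J)
      (fun ω _ => by
        rw [abs_zero]
        positivity) hK
    have e1 : (fd 0 (fun _ : F.Ω => (0 : ℝ))) = fun _ => 0 := by
      funext ω
      unfold fd
      rw [mul_zero, Int.floor_zero]
    rw [e1] at h1
    exact h1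
  · rw [cpl_ojet2, mul_zero, Int.floor_zero]

section jets

variable (F : Fam m J) (y u v : Fin m) (w : ℕ) (a b : LnT F → Fin 4 → ℝ) (Pv : ℕ → ℕ → ℝ)

/-- **The digits of the jets** of `u` and `v` over the affine charts, of the orders up to `K`. -/
noncomputable def rj (K : ℕ) (ω : F.Ω) (i j : ℕ) : ℤ :=
  if j ≤ K then
    if i = 1 ∧ j = 0 then fd (Pv 1 0) (fun ω => oh F y y u (a (slam F w ω)) ω) ω else
    if i = 1 ∧ j = 1 then fd (Pv 1 1) (fun ω => ov F y y u (a (slam F w ω)) ω) ω else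
    if i = 2 ∧ j = 0 then fd (Pv 2 0) (fun ω => oh F y u v (b (slam F w ω)) ω) ω else
    if i = 2 ∧ j = 1 then fd (Pv 2 1) (fun ω => ov F y u v (b (slam F w ω)) ω) ω else 0
  else 0

end jets

/-- The digits of the jets are labels of the natural quantities. -/
theorem rj_P {F : Fam m J} {c : ℕ → Fin m} {W : ℝ} {MU MV E : ℕ} {a b : LnT F → Fin 4 → ℝ}
    {A : F.Ω → Prop} (hu : ChA F (c 0) (c 0) (c 1) ⌊W * J⌋₊ MU E a A)
    (hv : ChA F (c 0) (c 1) (c 2) ⌊W * J⌋₊ MV E b A) (hJ : 1 ≤ J) (hW : ⌊W * J⌋₊ ≤ J)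
    {pv Nv : ℕ → ℕ → ℝ} {e : ℝ} (hMU : ∀ j, ⌊(pv 1 j - e) * J⌋₊ ≤ MU)
    (hMV : ∀ j, ⌊(pv 2 j - e) * J⌋₊ ≤ MV) (hN1 : ∀ j, Nv 1 j ≤ 1)
    (hN2 : ∀ j, Nv 2 j ≤ 1) {k : ℕ} (hk : 4 ≤ k) (K : ℕ) :
    (qJets m c 1 3 K (fun _ _ => W) pv Nv).P k e J F A
      (rj F (c 0) (c 1) (c 2) ⌊W * J⌋₊ a b (fun i j => Nv i j * J) K) := by
  have i1 : (range 1).image c = {c 0, c 0} := by rw [img1, pair_eq_singleton]
  have i2 := img2 c
  refine ⟨fun i h1 h3 j hj => ?_, fun ω _ i j hij => ?_⟩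
  · obtain rfl | rfl : i = 1 ∨ i = 2 := by omega
    · rw [i1]
      have q := chA_qj2 hu hJ hW (hMU j) (hN1 j) hk
      rcases j with _ | _ | j
      · have e1 : (fun ω => rj F (c 0) (c 1) (c 2) ⌊W * J⌋₊ a b (fun i j => Nv i j * J) K ω 1 0) =
            fd (Nv 1 0 * J) (fun ω => oh F (c 0) (c 0) (c 1) (a (slam F ⌊W * J⌋₊ ω)) ω) := by
          funext ω
          simp [rj]
        rw [e1]
        exact q.1
      · have e1 : (fun ω => rj F (c 0) (c 1) (c 2) ⌊W * J⌋₊ a b (fun i j => Nv i j * J) K ω 1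
            (0 + 1)) = fd (Nv 1 (0 + 1) * J)
              (fun ω => ov F (c 0) (c 0) (c 1) (a (slam F ⌊W * J⌋₊ ω)) ω) := by
          funext ω
          unfold rj
          rw [if_pos hj, if_neg (by omega), if_pos ⟨rfl, rfl⟩]
        rw [e1]
        exact q.2
      · have e1 : (fun ω => rj F (c 0) (c 1) (c 2) ⌊W * J⌋₊ a b (fun i j => Nv i j * J) K ω 1
            (j + 1 + 1)) = fun _ => 0 := by
          funext ω
          unfold rj
          rw [if_pos hj, if_neg (by omega), if_neg (by omega), if_neg (by omega),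
            if_neg (by omega)]
        rw [e1]
        exact chA_qj0 hu hJ j (hMU _) hk
    · rw [i2]
      have q := chA_qj2 hv hJ hW (hMV j) (hN2 j) hk
      rcases j with _ | _ | j
      · have e1 : (fun ω => rj F (c 0) (c 1) (c 2) ⌊W * J⌋₊ a b (fun i j => Nv i j * J) K ω 2 0) =
            fd (Nv 2 0 * J) (fun ω => oh F (c 0) (c 1) (c 2) (b (slam F ⌊W * J⌋₊ ω)) ω) := by
          funext ω
          simp [rj]
        rw [e1]
        exact q.1
      · have e1 : (fun ω => rj F (c 0) (c 1) (c 2) ⌊W * J⌋₊ a b (fun i j => Nv i j * J) K ω 2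
            (0 + 1)) = fd (Nv 2 (0 + 1) * J)
              (fun ω => ov F (c 0) (c 1) (c 2) (b (slam F ⌊W * J⌋₊ ω)) ω) := by
          funext ω
          unfold rj
          rw [if_pos hj, if_neg (by omega), if_neg (by omega), if_neg (by omega),
            if_pos ⟨rfl, rfl⟩]
        rw [e1]
        exact q.2
      · have e1 : (fun ω => rj F (c 0) (c 1) (c 2) ⌊W * J⌋₊ a b (fun i j => Nv i j * J) K ω 2
            (j + 1 + 1)) = fun _ => 0 := by
          funext ω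
          unfold rj
          rw [if_pos hj, if_neg (by omega), if_neg (by omega), if_neg (by omega),
            if_neg (by omega)]
        rw [e1]
        exact chA_qj0 hv hJ j (hMV _) hk
  · unfold rj
    split_ifs with g1 g2 g3 g4 g5
    · exact absurd ⟨by omega, by omega, g1⟩ hij
    · exact absurd ⟨by omega, by omega, g1⟩ hij
    · exact absurd ⟨by omega, by omega, g1⟩ hij
    · exact absurd ⟨by omega, by omega, g1⟩ hij
    · rfl
    · rfl

/-- **The jets over the affine charts are few bits given the record of the tube.** -/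
theorem rj_few {V : Type} {F : Fam m J} {y u v : Fin m} {w NU NV i : ℕ} {z : LnT F → V}
    {a b : LnT F → Fin 4 → ℝ} {p : F.Ω → ℝ} (hp : IsLaw p) (hw : w ≤ J) (h3 : ∀ s, a s 3 = 0)
    {Pv : ℕ → ℕ → ℝ} (K : ℕ) (p1 : Pv 1 0 ≤ (NU : ℝ) + i) (p2 : Pv 1 1 ≤ (NU : ℝ) + i - w)
    (p3 : Pv 2 0 ≤ (NV : ℝ) + i) (p4 : Pv 2 1 ≤ (NV : ℝ) + i - w) {S : Type} {Z : F.Ω → S}
    (hZ : Det p Z (fun ω => (rdR F y u v w NU NV i z a b ω, (F.T ω, F.X J ω y)))) :
    CH p (rj F y u v w a b Pv K) Z ≤ 2 * Real.log 11 + 4 * Real.log 9 := by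
  have h0 := hp.nonneg
  obtain ⟨N, hN⟩ : ∃ N, N = Nd J w NU NV i (lnF F y u v w) (OWN17.hC F w w a b) F.T
    (fun ω => F.X J ω y) (csF F w z a b) := ⟨_, rfl⟩
  have k0 : CH p N Z ≤ 2 * Real.log 11 := by
    rw [hN]
    exact Nd_few hp hw (Y := fun ω => F.X J ω y) hZ
  -- the four numbers
  have dN : ∀ ω ω', N ω = N ω' →
      ⌊(2 : ℝ) ^ (NU + i) * oh F y y u (a (slam F w ω)) ω⌋ =
        ⌊(2 : ℝ) ^ (NU + i) * oh F y y u (a (slam F w ω')) ω'⌋ ∧
      ⌊(2 : ℝ) ^ (NV + i) * oh F y u v (b (slam F w ω)) ω⌋ =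
        ⌊(2 : ℝ) ^ (NV + i) * oh F y u v (b (slam F w ω')) ω'⌋ ∧
      ⌊(2 : ℝ) ^ (NU + i) / 2 ^ w * ov F y y u (a (slam F w ω)) ω⌋ =
        ⌊(2 : ℝ) ^ (NU + i) / 2 ^ w * ov F y y u (a (slam F w ω')) ω'⌋ ∧
      ⌊(2 : ℝ) ^ (NV + i) / 2 ^ w * ov F y u v (b (slam F w ω)) ω⌋ =
        ⌊(2 : ℝ) ^ (NV + i) / 2 ^ w * ov F y u v (b (slam F w ω')) ω'⌋ := by
    intro ω ω' hh
    have e1 := congrFun (hgB_eq (F := F) (y := y) (u := u) (v := v) (nu := NU + i) (nv := NV + i)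
      (a := a) (b := b) hw h3) ω
    have e2 := congrFun (hgB_eq (F := F) (y := y) (u := u) (v := v) (nu := NU + i) (nv := NV + i)
      (a := a) (b := b) hw h3) ω'
    unfold hgB at e1 e2
    rw [hN] at hh
    unfold Nd vU vV at hh
    simp only [Prod.mk.injEq] at hh e1 e2
    obtain ⟨⟨⟨c1, c2⟩, c3, c4⟩, -⟩ := hh
    have f1 : ∀ ω : F.Ω, (lnF F y u v w ω).hu' (OWN17.hC F w w a b ω) =
        ov F y y u (a (slam F w ω)) ω := by
      intro ω
      unfold OWN17.hC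
      rw [lnF_hu']
      unfold ov
      rw [h3]
      ring
    have f2 : ∀ ω : F.Ω, (lnF F y u v w ω).hv' (OWN17.hC F w w a b ω) =
        ov F y u v (b (slam F w ω)) ω := by
      intro ω
      unfold OWN17.hC
      rw [lnF_hv']
      unfold ov
      ring
    rw [f1, f1] at c3
    rw [f2, f2] at c4
    exact ⟨e1.1.trans (c1.trans e2.1.symm), e1.2.trans (c2.trans e2.2.symm), c3, c4⟩
  have cv : ∀ (n : ℕ) (x : ℝ), (2 : ℝ) ^ n * x = 2 ^ ((n : ℕ) : ℝ) * x := fun n x => by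
    rw [Real.rpow_natCast]
  have cv' : ∀ (n : ℕ) (x : ℝ), (2 : ℝ) ^ n / 2 ^ w * x = 2 ^ ((n : ℝ) - w) * x := fun n x => by
    rw [Real.rpow_sub (by norm_num), Real.rpow_natCast, Real.rpow_natCast]
  have k1 : CH p (fd (Pv 1 0) (fun ω => oh F y y u (a (slam F w ω)) ω)) (fun ω => (N ω, Z ω)) ≤
      0 * Real.log 2 + Real.log 9 := by
    refine fl_few hp le_rfl (a' := ((NU + i : ℕ) : ℝ)) (by push_cast; linarith) ?_
    intro ω ω' _ _ hh
    have := (dN ω ω' (Prod.ext_iff.mp hh).1).1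
    rw [cv, cv] at this
    exact this
  have k2 : CH p (fd (Pv 1 1) (fun ω => ov F y y u (a (slam F w ω)) ω)) (fun ω => (N ω, Z ω)) ≤
      0 * Real.log 2 + Real.log 9 := by
    refine fl_few hp le_rfl (a' := ((NU + i : ℕ) : ℝ) - w) (by push_cast; linarith) ?_
    intro ω ω' _ _ hh
    have := (dN ω ω' (Prod.ext_iff.mp hh).1).2.2.1
    rw [cv', cv'] at this
    exact this
  have k3 : CH p (fd (Pv 2 0) (fun ω => oh F y u v (b (slam F w ω)) ω)) (fun ω => (N ω, Z ω)) ≤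
      0 * Real.log 2 + Real.log 9 := by
    refine fl_few hp le_rfl (a' := ((NV + i : ℕ) : ℝ)) (by push_cast; linarith) ?_
    intro ω ω' _ _ hh
    have := (dN ω ω' (Prod.ext_iff.mp hh).1).2.1
    rw [cv, cv] at this
    exact this
  have k4 : CH p (fd (Pv 2 1) (fun ω => ov F y u v (b (slam F w ω)) ω)) (fun ω => (N ω, Z ω)) ≤
      0 * Real.log 2 + Real.log 9 := by
    refine fl_few hp le_rfl (a' := ((NV + i : ℕ) : ℝ) - w) (by push_cast; linarith) ?_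
    intro ω ω' _ _ hh
    have := (dN ω ω' (Prod.ext_iff.mp hh).1).2.2.2
    rw [cv', cv'] at this
    exact this
  obtain ⟨Q, hQ⟩ : ∃ Q : F.Ω → (ℤ × ℤ) × (ℤ × ℤ), Q = fun ω =>
    ((fd (Pv 1 0) (fun ω => oh F y y u (a (slam F w ω)) ω) ω,
      fd (Pv 1 1) (fun ω => ov F y y u (a (slam F w ω)) ω) ω),
     (fd (Pv 2 0) (fun ω => oh F y u v (b (slam F w ω)) ω) ω,
      fd (Pv 2 1) (fun ω => ov F y u v (b (slam F w ω)) ω) ω)) := ⟨_, rfl⟩
  have s1 : CH p (rj F y u v w a b Pv K) Z ≤ CH p Q Z :=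
    CH_mono_left h0 fun ω ω' _ _ hh => by
      simp only [Prod.mk.injEq] at hh
      obtain ⟨g, -⟩ := hh
      rw [hQ] at g
      simp only [Prod.mk.injEq] at g
      obtain ⟨⟨g1, g2⟩, g3, g4⟩ := g
      funext i' j'
      unfold rj
      rw [g1, g2, g3, g4]
  have s2 := CH_le_add h0 Q N Z
  have s3 := CH_subadd h0 (fun ω => (fd (Pv 1 0) (fun ω => oh F y y u (a (slam F w ω)) ω) ω,
      fd (Pv 1 1) (fun ω => ov F y y u (a (slam F w ω)) ω) ω))
     (fun ω => (fd (Pv 2 0) (fun ω => oh F y u v (b (slam F w ω)) ω) ω,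
      fd (Pv 2 1) (fun ω => ov F y u v (b (slam F w ω)) ω) ω)) (fun ω => (N ω, Z ω))
  have s4 := CH_subadd h0 (fd (Pv 1 0) (fun ω => oh F y y u (a (slam F w ω)) ω))
      (fd (Pv 1 1) (fun ω => ov F y y u (a (slam F w ω)) ω)) (fun ω => (N ω, Z ω))
  have s5 := CH_subadd h0 (fd (Pv 2 0) (fun ω => oh F y u v (b (slam F w ω)) ω))
      (fd (Pv 2 1) (fun ω => ov F y u v (b (slam F w ω)) ω)) (fun ω => (N ω, Z ω))
  rw [← hQ] at s3
  linarith

end Pool.FUL95
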