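import Pool.Agent.H95.VF.Ffb
import Pool.Agent.H95.VF.Lit

/-!
# The places `1` and `2` are full behind their own paths, from the data of an item

`fulP_of`: from `ItF` and the numbers of the coarse velocity of the base at windows near `b` and `o`.
-/

set_option autoImplicit false

namespace Pool.FUL95

open Finset Real MvPolynomial Filter Topology
open Pool.Agent.H49.Ent Pool.Agent.H32.Dense Pool.STK Pool.KA Pool.KSAT Pool.K2S Pool.PB Pool.S6C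
  Pool.GEN Pool.RCD Pool.LA91 Pool.MIC6 Pool.CH30 Pool.OWN68 Pool.OWN17 Pool.EXC33
open Pool.OWN83 (yX dT YkV)

section law

variable {Ω : Type} [Fintype Ω] {p : Ω → ℝ} {TB TC T1 T2 TU TZ1 TZ2 TW : Type}

/-- The own heights from other labels. -/
theorem b_few (h0 : ∀ ω, 0 ≤ p ω) {BU : Ω → TB} {BV : Ω → TC} {x₁ : Ω → T1} {x₂ : Ω → T2}
    {ul : Ω → TU} {z₁ : Ω → TZ1} {z₂ : Ω → TZ2} {W : Ω → TW} {c₁ c₂ c₃ c₄ c₅ c₆ c₇ : ℝ}
    (s1 : CH p z₁ W ≤ c₁) (s2 : CH p z₂ W ≤ c₂) (s3 : CH p x₁ (fun ω => (z₁ ω, W ω)) ≤ c₃)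
    (s4 : CH p BU (fun ω => (x₁ ω, W ω)) ≤ c₄) (s5 : CH p ul (fun ω => (BU ω, W ω)) ≤ c₅)
    (s6 : CH p x₂ (fun ω => (ul ω, (z₂ ω, W ω))) ≤ c₆)
    (s7 : CH p BV (fun ω => (x₂ ω, W ω)) ≤ c₇) :
    CH p (fun ω => (BU ω, BV ω)) W ≤ c₁ + c₂ + c₃ + c₄ + c₅ + c₆ + c₇ := by
  have a1 := CH_chain2 h0 BU BV W
  have a2 := CH_le_add h0 BU x₁ W
  have a3 := CH_le_add h0 x₁ z₁ W
  have a4 := CH_le_add h0 BV x₂ (fun ω => (BU ω, W ω))
  have a5 : CH p BV (fun ω => (x₂ ω, (BU ω, W ω))) ≤ CH p BV (fun ω => (x₂ ω, W ω)) :=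
    CH_mono_cond h0 fun ω ω' _ _ hh => by
      simp only [Prod.mk.injEq] at hh ⊢
      exact ⟨hh.1, hh.2.2⟩
  have a6 := CH_le_add h0 x₂ ul (fun ω => (BU ω, W ω))
  have a7 := CH_le_add h0 x₂ z₂ (fun ω => (ul ω, (BU ω, W ω)))
  have a8 : CH p z₂ (fun ω => (ul ω, (BU ω, W ω))) ≤ CH p z₂ W :=
    CH_mono_cond h0 fun ω ω' _ _ hh => by
      simp only [Prod.mk.injEq] at hh
      exact hh.2.2
  have a9 : CH p x₂ (fun ω => (z₂ ω, (ul ω, (BU ω, W ω)))) ≤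
      CH p x₂ (fun ω => (ul ω, (z₂ ω, W ω))) :=
    CH_mono_cond h0 fun ω ω' _ _ hh => by
      simp only [Prod.mk.injEq] at hh ⊢
      exact ⟨hh.2.1, hh.1, hh.2.2.2⟩
  have a10 := CH_chain2 h0 BV BU W
  have a11 := CH_swap2 h0 BU BV W
  linarith

/-- A quantity from other labels. -/
theorem u_few (h0 : ∀ ω, 0 ≤ p ω) {u : Ω → TB} {uu : Ω → TC} {z : Ω → TZ1} {W : Ω → TW}
    {c₁ c₂ c₃ : ℝ} (s1 : CH p uu W ≤ c₁) (s2 : CH p z W ≤ c₂)
    (s3 : CH p u (fun ω => (uu ω, (z ω, W ω))) ≤ c₃) : CH p u W ≤ c₁ + c₂ + c₃ := by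
  have a1 := CH_le_add h0 u z W
  have a2 := CH_le_add h0 u uu (fun ω => (z ω, W ω))
  have a3 : CH p uu (fun ω => (z ω, W ω)) ≤ CH p uu W :=
    CH_mono_cond h0 fun ω ω' _ _ hh => (Prod.ext_iff.mp hh).2
  linarith

end law

variable {m : ℕ} {S : PCl m}

/-- The exact positions and the coarse velocity of the base. -/
noncomputable def yXD (I : Finset (Fin m)) (lam : ℝ) (J : ℕ) (F : Fam m J) (ω : F.Ω) :
    ((Fin m → ℤ) × (ℕ × F.ζ)) × (Fin m → ℤ) := (yX I J F ω, dT I lam J F ω)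

theorem kn_yXD (I : Finset (Fin m)) (lam : ℝ) : Kn I 1 lam (yXD (m := m) I lam) := fun J F =>
  ⟨fun v => (v.1.2.1, v.1.1, v.2), fun ω => by
    have e1 : ⌊(1 : ℝ) * J⌋₊ = J := by rw [one_mul, Nat.floor_natCast]
    rw [e1]
    rfl⟩

/-- **The places `1` and `2` are full behind their own paths**, from the data of an item. -/
theorem fulP_of
    (hpos : ∀ (τ : ℝ) (J : ℕ) (F : Fam m J) (A : F.Ω → Prop), S.St τ J F A → 0 < Pe F.p A)
    {C₀ : ℝ} (htm : TmC S C₀) {c : ℕ → Fin m} {b o P₀ n₁ n₂ ε kM ηx : ℝ} {s rd : ℕ → ℝ} {u₁ : ℝ}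
    (hI : ItF S (c 0) (c 1) (c 2) b o (s 1) (s 2) P₀ n₁ n₂ ε kM ηx)
    (hch : Chn S c 1 3 b b u₁ s rd) {γ : ∀ J : ℕ, Fam m J → Type}
    {y : ∀ (J : ℕ) (F : Fam m J), F.Ω → γ J F} {lam : ℝ} (hy : YkV ((range 1).image c) lam y)
    {xa xb θa θb ηa ηb : ℝ} (hxa : xa ≤ b) (hbo : b ≤ o) (hxb : o ≤ xb) (xb1 : xb ≤ 1)
    (ra : RNum S (fun J F => ptr F J) (vg xa) ηa) (rb : RNum S (fun J F => ptr F J) (vg xb) ηb)
    (na : NN S (fun J F => ptr F J) (vg xa) (yX ((range 1).image c))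
      (Qt.fn (dT (m := m) ((range 1).image c) lam)) θa)
    (nb : NN S (fun J F => ptr F J) (vg xb) (yX ((range 1).image c))
      (Qt.fn (dT (m := m) ((range 1).image c) lam)) θb)
    {p : ℕ → ℝ} {P N₁ N₂ δ η : ℝ} {K : ℕ} (hε : 0 < ε) (hεδ : ε ≤ δ)
    (hp : ∀ l, 1 ≤ l → l ≤ 2 → s l - δ ≤ p l) (hP : 0 ≤ P) (hP₀ : P + δ + 7 * ε ≤ P₀)
    (hN10 : 0 ≤ N₁) (hN20 : 0 ≤ N₂)
    (hN1 : N₁ + ε ≤ n₁) (hN12 : N₂ + δ + 4 * ε ≤ n₁) (hN2 : N₂ + 2 * ε ≤ n₂)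
    (hl1 : n₁ + δ + ε ≤ lam) (hl3 : P₀ ≤ lam) (hl4 : lam ≤ 1 - b)
    (hU1 : s 1 + n₁ ≤ 1) (hD1 : s 2 + n₂ ≤ 1) (hU2 : s 1 + P₀ ≤ 1) (hD2 : s 2 + P₀ ≤ 1)
    (hb0 : 0 ≤ b) (hbU : b ≤ s 1 - ε) (hbD : b ≤ s 2 - 2 * ε)
    (hη : (2 * (P₀ - P) + ηx) * Real.log 2 + (θa - θb) + 2 * kM ≤ η) :
    FulP S y c K b p s P N₁ N₂ η := by
  classical
  have hl20 : 0 < Real.log 2 := Real.log_pos one_lt_two
  have hI1 : (range 1).image c = {c 0} := img1 c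
  have hlam : 0 < lam := by linarith
  have hb1 : b < 1 := hch.u0
  intro h hh
  obtain ⟨t, ht⟩ : ∃ t : ℝ, t = h / 16 := ⟨_, rfl⟩
  have ht0 : 0 < t := by rw [ht]; positivity
  obtain ⟨V, z, a, β, hI1', hI2, hI3, hI4⟩ := hI
  -- the passage from the affine charts to the jets
  obtain ⟨e1, he1, hF1⟩ := few_jets (α := fun J F => PtT F) (f := fun J F => ptr F J)
    (y := yXD ((range 1).image c) lam) htm hpos hch (j := K) (wv := fun _ _ => b)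
    (pv := fun l _ => s l - ε) (Nv := fun l j' => s l - (j' : ℝ) * b + (P₀ - 3 * ε))
    (wv' := fun _ _ => b) (pv' := fun l _ => p l)
    (Nv' := fun l j' => s l - (j' : ℝ) * b + P)
    (lv := fun l => if l = 1 then P₀ - 4 * ε else P₀ - 6 * ε) (p₀ := 1) (lam := lam) (σ₀ := ε)
    (fun _ _ _ _ _ => le_rfl) (fun _ _ _ _ _ => le_rfl) hb1 le_rfl hlam hε
    (by
      intro i h1 h3
      show 0 < if i = 1 then _ else _
      split_ifs <;> linarith)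
    (by
      intro i h1 h3 j' hj'
      show s i + (if i = 1 then _ else _) + ε ≤ _
      split_ifs <;> linarith)
    (by
      intro i h1 h3 j' hj'
      show s i + (if i = 1 then _ else _) + ε ≤ _
      rw [min_eq_left (by linarith : s i - ε ≤ s i), min_eq_left (by linarith : lam ≤ 1 - b)]
      split_ifs <;> linarith)
    (by
      intro i h1 h3 j' hj' l hl1 hl2
      show s i + (if i = 1 then _ else _) + ε ≤ _ + if l = 1 then _ else _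
      rw [min_eq_left (by linarith : s i - ε ≤ s i), if_neg (by omega : ¬ i = 1),
        if_pos (by omega : l = 1)]
      linarith)
    (by
      intro i h1 h3 j' hj'
      show s i - (j' : ℝ) * b + P ≤ s i - (j' : ℝ) * b + (P₀ - 3 * ε)
      linarith)
    (by
      intro i h1 h3 j' hj'
      have h5 := hp i h1 (by omega)
      have h6 : s i - δ ≤ min (s i - ε) (p i) := le_min (by linarith) h5
      rw [min_eq_left (by linarith : lam ≤ 1 - b)]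
      show s i - (j' : ℝ) * b + P + j' * b + ε ≤ min (s i - ε) (p i) + lam
      linarith)
    (by
      intro i h1 h3 j' hj' l hl1 hl2
      have h5 := hp i h1 (by omega)
      have h6 : s i - δ ≤ min (s i - ε) (p i) := le_min (by linarith) h5
      show s i - (j' : ℝ) * b + P + j' * b + ε ≤ min (s i - ε) (p i) + if l = 1 then _ else _
      rw [if_pos (by omega : l = 1)]
      linarith) (fun J F => ⟨id, fun _ => rfl⟩) (kn_yXD _ lam) t ht0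
  obtain ⟨e2, he2, hF2⟩ := few_jetN (α := fun J F => PtT F) (f := fun J F => ptr F J)
    (y := yXD ((range 1).image c) lam) htm (hch.take le_rfl (by norm_num : 1 ≤ 3)) (k := c 1)
    (j := 0) (wv := fun _ _ => b) (pv := fun l _ => s l - ε) (Nv := fun l _ => s l)
    (lv := fun _ => P₀) (w₁ := b) (w₂ := b) (p₁ := p 1) (p₂ := s 1 - ε) (N₁ := s 1 + N₁)
    (N₂ := s 1 + N₁) (p₀ := 1) (lam := lam) (σ₀ := ε)
    (fun _ _ _ _ _ => le_rfl) le_rfl le_rfl hb1 le_rfl hlam hε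
    (fun i h1 h3 => by omega) (fun i h1 h3 => by omega) (fun i h1 h3 => by omega)
    (fun i h1 h3 => by omega) le_rfl (by
      have h5 := hp 1 le_rfl (by norm_num)
      have h6 : s 1 - δ ≤ min (p 1) (s 1 - ε) := le_min h5 (by linarith)
      rw [min_eq_left (by linarith : lam ≤ 1 - b)]
      push_cast
      linarith) (fun l h1 h3 => by omega) (fun J F => ⟨id, fun _ => rfl⟩) (kn_yXD _ lam) t ht0
  obtain ⟨e3, he3, hF3⟩ := few_jetN (α := fun J F => PtT F) (f := fun J F => ptr F J)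
    (y := yXD ((range 1).image c) lam) htm (hch.take (by norm_num : 1 ≤ 2) (by norm_num : 2 ≤ 3))
    (k := c 2) (j := 0) (wv := fun _ _ => b) (pv := fun l _ => s l - ε)
    (Nv := fun l _ => s l + (n₁ - 2 * ε)) (lv := fun _ => n₁ - 3 * ε) (w₁ := b) (w₂ := b)
    (p₁ := p 2) (p₂ := s 2 - ε) (N₁ := s 2 + N₂) (N₂ := s 2 + N₂) (p₀ := 1) (lam := lam)
    (σ₀ := ε) (fun _ _ _ _ _ => le_rfl) le_rfl le_rfl hb1 le_rfl hlam hε
    (fun i h1 h3 => by linarith) (by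
      intro i h1 h3 j' hj'
      obtain rfl : j' = 0 := by omega
      push_cast
      linarith) (by
      intro i h1 h3 j' hj'
      rw [min_eq_left (by linarith : s i - ε ≤ s i), min_eq_left (by linarith : lam ≤ 1 - b)]
      linarith) (by
      intro i h1 h3 j' hj' l hl1 hl2
      omega) le_rfl (by
      have h5 := hp 2 (by norm_num) le_rfl
      have h6 : s 2 - δ ≤ min (p 2) (s 2 - ε) := le_min h5 (by linarith)
      rw [min_eq_left (by linarith : lam ≤ 1 - b)]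
      push_cast
      linarith) (by
      intro l h1 h3
      have h5 := hp 2 (by norm_num) le_rfl
      have h6 : s 2 - δ ≤ min (p 2) (s 2 - ε) := le_min h5 (by linarith)
      push_cast
      linarith) (fun J F => ⟨id, fun _ => rfl⟩) (kn_yXD _ lam) t ht0
  obtain ⟨ka, hka, ea, hea, hNa⟩ := na t ht0
  obtain ⟨kb, hkb, eb, heb, hNb⟩ := nb t ht0
  obtain ⟨J₁, hJ₁⟩ := (ge_ev (2 * Real.log 11 + 9 * Real.log 9) ht0).exists_forall_of_atTop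
  obtain ⟨J₂, hJ₂⟩ := (ge_ev 4 hε).exists_forall_of_atTop
  refine ⟨t, ht0, min e1 (min e2 e3), lt_min he1 (lt_min he2 he3), fun K' => ?_⟩
  have hbig : Bas S (fun J F A => (0 < Pe F.p A ∧
      (ChA F (c 0) (c 0) (c 1) ⌊b * J⌋₊ ⌊(s 1 - ε) * J⌋₊ ⌊ε * J⌋₊ (a J F) A ∧
        (∀ s, a J F s 3 = 0) ∧
        ChA F (c 0) (c 1) (c 2) ⌊b * J⌋₊ ⌊(s 2 - ε) * J⌋₊ ⌊ε * J⌋₊ (β J F) A))) :=
    Bas.and ⟨1, one_pos, 0, fun J _ F A hA => hpos 1 J F A hA⟩ hI1'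
  refine Bas.mono (max (max J₁ J₂) 1) ((((hF1 (max K' 4)).and (hF2 (max K' 4))).and
    ((hF3 (max K' 4)).and hI2)).and (((hI3 t ht0).and (hI4 t ht0)).and
      (((hNa 0).and (hNb 0)).and (((mx_ex hpos ra ka hka).and
        (mx_ex hpos rb (min kb t) (lt_min hkb ht0))).and hbig)))) ?_
  rintro J hJ F A ⟨⟨⟨H1, H2⟩, H3, Hz⟩, ⟨H4, H5⟩, ⟨HNa, HNb⟩, ⟨⟨Va, za, hza⟩, Vb, zb, hzb⟩,
    hA, hcu, ha3, hcv⟩ V' z' hz' u₀ u hu₀ hu
  have hJ1 : 1 ≤ J := (le_max_right _ _).trans hJ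
  have hJa := hJ₁ J (((le_max_left _ _).trans (le_max_left _ _)).trans hJ)
  have hJb := hJ₂ J (((le_max_right _ _).trans (le_max_left _ _)).trans hJ)
  have hJ0 : (0 : ℝ) ≤ J := Nat.cast_nonneg J
  have hcl := isLaw_cond F.isLaw hA
  have h0 := hcl.nonneg
  have hwJ : ⌊b * (J : ℝ)⌋₊ ≤ J := floor_le hb1.le J
  obtain ⟨q, hq⟩ : ∃ q, q = Pool.Agent.H49.Ent.cond F.p A True := ⟨_, rfl⟩
  rw [← hq] at hcl h0 H4
  -- the names
  obtain ⟨R, hR⟩ : ∃ R, R = rdR F (c 0) (c 1) (c 2) ⌊b * J⌋₊ ⌊(s 1 - ε) * J⌋₊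
    ⌊(s 2 - 2 * ε) * J⌋₊ ⌊P₀ * J⌋₊ (z J F) (a J F) (β J F) := ⟨_, rfl⟩
  obtain ⟨B, hB⟩ : ∃ B, B = hgB F (c 0) (c 1) (c 2) ⌊b * J⌋₊ (⌊(s 1 - ε) * J⌋₊ + ⌊n₁ * J⌋₊)
    (⌊(s 2 - 2 * ε) * J⌋₊ + ⌊n₂ * J⌋₊) (a J F) (β J F) := ⟨_, rfl⟩
  obtain ⟨X, hX⟩ : ∃ X, X = yX (m := m) {c 0} J F := ⟨_, rfl⟩
  obtain ⟨D, hD⟩ : ∃ D, D = dT (m := m) {c 0} lam J F := ⟨_, rfl⟩
  obtain ⟨zi, hzi⟩ : ∃ zi : F.Ω → V J F, zi = fun ω => z J F (slam F ⌊b * J⌋₊ ω) := ⟨_, rfl⟩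
  rw [← hzi] at Hz
  obtain ⟨Wo, zo, hzo, H5⟩ := H5
  have H4' : ((n₁ + n₂ - 2 * P₀ - 3 * ε - ηx) * Real.log 2 - t) * J ≤
      CH q B (fun ω => (X ω, R ω)) := by
    rw [hB, hX, hR]
    exact H4
  have H5' : CH q (fun ω => (R ω, B ω)) (fun ω => (zo ω, (F.D ⌊P₀ * J⌋₊ ω (c 0), X ω))) ≤
      t * J := by
    rw [hB, hX, hR, hq]
    exact H5
  -- the velocity of the base
  have Ha : |CH q D (fun ω => (za ω, X ω)) - θa * J| ≤ t * J := by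
    have := HNa Va za hza D (by
      intro ω _
      rw [hD, hI1])
    rw [hI1] at this
    rw [hX, hq]
    exact this
  have Hb : |CH q D (fun ω => (zb ω, X ω)) - θb * J| ≤ t * J := by
    have := HNb Vb zb (hzb.le' (min_le_left _ _)) D (by
      intro ω _
      rw [hD, hI1])
    rw [hI1] at this
    rw [hX, hq]
    exact this
  have mz : ∀ (V₂ : Type) (z₂ : F.Ω → V₂), Cl2 (ptr F J) (vg b J F) A z₂ → CH q z₂ zi ≤ kM * J := by
    intro V₂ z₂ h2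
    rw [hq]
    exact Hz.2 V₂ z₂ h2
  have mz' : ∀ (V₂ : Type) (z₂ : F.Ω → V₂), Cl2 (ptr F J) (vg b J F) A z₂ →
      CH q z₂ z' ≤ t * J := by
    intro V₂ z₂ h2
    rw [hq]
    exact hz'.2 V₂ z₂ h2
  have mzb : ∀ (V₂ : Type) (z₂ : F.Ω → V₂), Cl2 (ptr F J) (vg xb J F) A z₂ →
      CH q z₂ zb ≤ t * J := by
    intro V₂ z₂ h2
    rw [hq]
    refine (hzb.2 V₂ z₂ h2).trans ?_
    exact mul_le_mul_of_nonneg_right (min_le_right _ _) hJ0
  have hbD : CH q D (fun ω => (zi ω, X ω)) ≤ (θa + t + kM) * J := by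
    have g1 := CH_le_add h0 D za (fun ω => (zi ω, X ω))
    have g2 : CH q za (fun ω => (zi ω, X ω)) ≤ CH q za zi :=
      CH_mono_cond h0 fun ω ω' _ _ hh => (Prod.ext_iff.mp hh).1
    have g3 : CH q D (fun ω => (za ω, (zi ω, X ω))) ≤ CH q D (fun ω => (za ω, X ω)) :=
      CH_mono_cond h0 fun ω ω' _ _ hh => by
        simp only [Prod.mk.injEq] at hh ⊢
        exact ⟨hh.1, hh.2.2⟩
    have g4 := mz _ za (cl2_vg (f := fun J F => ptr F J) hxa hb1.le hza.1)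
    have g5 := (abs_le.1 Ha).2
    linarith
  have hoD : (θb - t) * J ≤ CH q D (fun ω => (zb ω, X ω)) := by
    have := (abs_le.1 Hb).1
    linarith
  have hRB : CH q (fun ω => (R ω, B ω)) (fun ω => (zb ω, (F.D ⌊P₀ * J⌋₊ ω (c 0), X ω))) ≤
      (2 * t) * J := by
    have g1 := CH_le_add h0 (fun ω => (R ω, B ω)) zo
      (fun ω => (zb ω, (F.D ⌊P₀ * J⌋₊ ω (c 0), X ω)))
    have g2 : CH q zo (fun ω => (zb ω, (F.D ⌊P₀ * J⌋₊ ω (c 0), X ω))) ≤ CH q zo zb :=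
      CH_mono_cond h0 fun ω ω' _ _ hh => (Prod.ext_iff.mp hh).1
    have g3 : CH q (fun ω => (R ω, B ω))
        (fun ω => (zo ω, (zb ω, (F.D ⌊P₀ * J⌋₊ ω (c 0), X ω)))) ≤
        CH q (fun ω => (R ω, B ω)) (fun ω => (zo ω, (F.D ⌊P₀ * J⌋₊ ω (c 0), X ω))) :=
      CH_mono_cond h0 fun ω ω' _ _ hh => by
        simp only [Prod.mk.injEq] at hh ⊢
        exact ⟨hh.1, hh.2.2⟩
    have g4 := mzb _ zo (cl2_vg (f := fun J F => ptr F J) hxb xb1 hzo)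
    linarith
  have hzz : CH q zi zb ≤ t * J := mzb _ zi
    (cl2_vg (f := fun J F => ptr F J) (hbo.trans hxb) xb1 Hz.1)
  have dP : Det q D (fun ω => F.D ⌊P₀ * J⌋₊ ω (c 0)) := by
    intro ω ω' _ _ hh
    rw [hD] at hh
    have g1 := congrFun hh (c 0)
    simp only [dT, mem_singleton, if_true] at g1
    have g2 : ⌊P₀ * (J : ℝ)⌋₊ ≤ ⌊lam * (J : ℝ)⌋₊ :=
      Nat.floor_le_floor (mul_le_mul_of_nonneg_right hl3 hJ0)
    show F.D ⌊P₀ * J⌋₊ ω (c 0) = F.D ⌊P₀ * J⌋₊ ω' (c 0)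
    rw [D_nest F g2, D_nest F g2, g1]
  have dR : Det q R (fun ω => (zi ω, F.D ⌊P₀ * J⌋₊ ω (c 0))) := by
    intro ω ω' _ _ hh
    rw [hR] at hh
    unfold rdR Rd csF at hh
    simp only [Prod.mk.injEq] at hh
    obtain ⟨⟨⟨g1, -⟩, -⟩, -, ⟨-, g2⟩, -⟩ := hh
    rw [hzi]
    exact Prod.ext g1 g2
  have M1 := add_dir h0 H4' hbD hoD hRB hzz dP dR
  -- the labels
  have dY : Det q (fun ω => (X ω, D ω)) (y J F) := by
    intro ω ω' _ _ hh
    obtain ⟨ψ, hψ⟩ := hy J F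
    rw [hI1] at hψ
    rw [hψ ω, hψ ω']
    rw [hX, hD] at hh
    exact congrArg ψ hh
  have hzR : CH q z' R ≤ kM * J := by
    refine le_trans (CH_mono_cond h0 fun ω ω' g1 g2 hh => ?_) (mz _ z' hz'.1)
    exact (Prod.ext_iff.mp (dR ω ω' g1 g2 hh)).1
  obtain ⟨W, hW⟩ : ∃ W : F.Ω → V' × ((Fin m → ℤ) × (((Fin m → ℤ) × (ℕ × F.ζ)) × _)),
    W = fun ω => (z' ω, (D ω, (X ω, R ω))) := ⟨_, rfl⟩
  have wz : ∀ (V₂ : Type) (z₂ : F.Ω → V₂), Cl2 (ptr F J) (vg b J F) A z₂ →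
      CH q z₂ W ≤ t * J := by
    intro V₂ z₂ h2
    refine le_trans (CH_mono_cond h0 fun ω ω' g1 g2 hh => ?_) (mz' _ z₂ h2)
    rw [hW] at hh
    exact (Prod.ext_iff.mp hh).1
  have wy : ∀ ω ω', W ω = W ω' → yXD ((range 1).image c) lam J F ω =
      yXD ((range 1).image c) lam J F ω' := by
    intro ω ω' hh
    rw [hW] at hh
    simp only [Prod.mk.injEq] at hh
    unfold yXD
    rw [hI1, ← hX, ← hD, hh.2.1, hh.2.2.1]
  have hk4 : 4 ≤ max K' 4 := le_max_right _ _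
  have hee1 : min e1 (min e2 e3) ≤ e1 := min_le_left _ _
  have hee2 : min e1 (min e2 e3) ≤ e2 := (min_le_right _ _).trans (min_le_left _ _)
  have hee3 : min e1 (min e2 e3) ≤ e3 := (min_le_right _ _).trans (min_le_right _ _)
  have f1 := Nat.lt_floor_add_one ((s 1 - ε) * (J : ℝ))
  have f2 := Nat.lt_floor_add_one ((s 2 - 2 * ε) * (J : ℝ))
  have f3 := Nat.lt_floor_add_one (P₀ * (J : ℝ))
  have f4 := Nat.floor_le (mul_nonneg hb0 hJ0)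
  have f5 := Nat.lt_floor_add_one (n₁ * (J : ℝ))
  have f6 := Nat.floor_le (mul_nonneg (by linarith : (0 : ℝ) ≤ n₁) hJ0)
  have f7 := Nat.floor_le (mul_nonneg (by linarith : (0 : ℝ) ≤ n₂) hJ0)
  have f8 := Nat.floor_le (mul_nonneg (by linarith : (0 : ℝ) ≤ s 1 - ε) hJ0)
  have f9 := Nat.floor_le (mul_nonneg (by linarith : (0 : ℝ) ≤ s 2 - 2 * ε) hJ0)
  have fl2 : ∀ x e' : ℝ, 0 ≤ e' → ⌊(x - e') * (J : ℝ)⌋₊ ≤ ⌊x * (J : ℝ)⌋₊ := fun x e' he' =>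
    Nat.floor_le_floor (mul_le_mul_of_nonneg_right (by linarith) hJ0)
  -- the jets of the places
  have hU : CH q u₀ W ≤ (2 * Real.log 11 + 4 * Real.log 9) + t * J + t * J := by
    obtain ⟨uu, huu⟩ : ∃ uu, uu = rj F (c 0) (c 1) (c 2) ⌊b * J⌋₊ (a J F) (β J F)
      (fun i j => (s i - (j : ℝ) * b + (P₀ - 3 * ε)) * J) K := ⟨_, rfl⟩
    have guu : (qJets m c 1 3 K (fun _ _ => b) (fun l _ => s l - ε)
        (fun l j' => s l - (j' : ℝ) * b + (P₀ - 3 * ε))).P (max K' 4) e1 J F A uu := by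
      rw [huu]
      have jb : ∀ j : ℕ, 0 ≤ (j : ℝ) * b := fun j => mul_nonneg (Nat.cast_nonneg j) hb0
      refine rj_P hcu hcv hJ1 hwJ (fun j => fl2 _ _ he1.le) (fun j => fl2 _ _ he1.le)
        (fun j => ?_) (fun j => ?_) hk4 K
      · have := jb j
        show s 1 - (j : ℝ) * b + (P₀ - 3 * ε) ≤ 1
        linarith
      · have := jb j
        show s 2 - (j : ℝ) * b + (P₀ - 3 * ε) ≤ 1
        linarith
    obtain ⟨V₂, z₂, hz₂, g1⟩ := H1 uu u₀ guu ((qJets m c 1 3 K (fun _ _ => b)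
      (fun l _ => p l) (fun l j' => s l - (j' : ℝ) * b + P)).mono (le_max_left _ _) hee1 hu₀)
    refine u_few h0 (uu := uu) (z := z₂) ?_ (wz _ z₂ hz₂) ?_
    · rw [huu]
      refine rj_few (z := z J F) (NU := ⌊(s 1 - ε) * J⌋₊) (NV := ⌊(s 2 - 2 * ε) * J⌋₊)
        (i := ⌊P₀ * J⌋₊) hcl hwJ ha3 K ?_ ?_ ?_ ?_ ?_
      · push_cast
        linarith
      · push_cast
        linarith
      · push_cast
        linarith
      · push_cast
        linarith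
      · intro ω ω' _ _ hh
        rw [hW] at hh
        simp only [Prod.mk.injEq] at hh
        obtain ⟨-, -, g2, g3⟩ := hh
        rw [hX] at g2
        have g4 := congrFun (congrArg Prod.fst g2) (c 0)
        have g5 := congrArg Prod.snd g2
        simp only [yX, mem_singleton, if_true] at g4 g5
        rw [← hR]
        simp only [Prod.mk.injEq]
        exact ⟨g3, congrArg Prod.fst g5, g4⟩
    · rw [← hq] at g1
      refine le_trans (CH_mono_cond h0 fun ω ω' _ _ hh => ?_) g1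
      simp only [Prod.mk.injEq] at hh ⊢
      exact ⟨hh.1, hh.2.1, wy ω ω' hh.2.2⟩
  -- the own heights
  obtain ⟨nu, hnu⟩ : ∃ nu, nu = ⌊(s 1 - ε) * (J : ℝ)⌋₊ + ⌊n₁ * (J : ℝ)⌋₊ := ⟨_, rfl⟩
  obtain ⟨nv, hnv⟩ : ∃ nv, nv = ⌊(s 2 - 2 * ε) * (J : ℝ)⌋₊ + ⌊n₂ * (J : ℝ)⌋₊ := ⟨_, rfl⟩
  obtain ⟨ou, hou⟩ : ∃ ou : F.Ω → ℝ, ou = fun ω =>
    oh F (c 0) (c 0) (c 1) (a J F (slam F ⌊b * J⌋₊ ω)) ω := ⟨_, rfl⟩
  obtain ⟨ov', hov⟩ : ∃ ov' : F.Ω → ℝ, ov' = fun ω =>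
    oh F (c 0) (c 1) (c 2) (β J F (slam F ⌊b * J⌋₊ ω)) ω := ⟨_, rfl⟩
  have hBB : B = fun ω => (fd (nu : ℝ) ou ω, fd (nv : ℝ) ov' ω) := by
    rw [hB, ← hnu, ← hnv]
    funext ω
    unfold hgB fd
    rw [Real.rpow_natCast, Real.rpow_natCast, hou, hov]
  have nu1 : (nu : ℝ) ≤ (s 1 + N₁) * J + (n₁ - ε - N₁) * J := by
    rw [hnu]
    push_cast
    linarith
  have nu2 : (s 1 + (n₁ - 2 * ε)) * J ≤ nu := by
    rw [hnu]
    push_cast
    linarith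
  have nv1 : (nv : ℝ) ≤ (s 2 + N₂) * J + (n₂ - 2 * ε - N₂) * J := by
    rw [hnv]
    push_cast
    linarith
  have i11 : (range 1).image c = {c 0, c 0} := by rw [hI1, pair_eq_singleton]
  have i22 := img2 c
  -- the labels of the affine charts
  have q1 : (qJet m ((range 1).image c) (c 1) 0 b (s 1 - ε) (s 1 + N₁)).P (max K' 4) e2 J F A
      (fd ((s 1 + N₁) * J) ou) := by
    rw [i11, hou]
    exact (chA_qj2 hcu hJ1 hwJ (fl2 _ _ he2.le) (by linarith) hk4).1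
  have q2 : (qJet m ((range 2).image c) (c 2) 0 b (s 2 - ε) (s 2 + N₂)).P (max K' 4) e3 J F A
      (fd ((s 2 + N₂) * J) ov') := by
    rw [i22, hov]
    exact (chA_qj2 hcv hJ1 hwJ (fl2 _ _ he3.le) (by linarith) hk4).1
  obtain ⟨ul, hul⟩ : ∃ ul : F.Ω → ℕ → ℕ → ℤ, ul = fun ω i j =>
    if i = 1 ∧ j = 0 then fd ((s 1 + (n₁ - 2 * ε)) * J) ou ω else 0 := ⟨_, rfl⟩
  have q3 : (qJets m c 1 2 0 (fun _ _ => b) (fun l _ => s l - ε)
      (fun l _ => s l + (n₁ - 2 * ε))).P (max K' 4) e3 J F A ul := by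
    refine ⟨fun i h1 h3 j hj => ?_, fun ω _ i j hij => ?_⟩
    · obtain rfl : i = 1 := by omega
      obtain rfl : j = 0 := by omega
      have e5 : (fun ω => ul ω 1 0) = fd ((s 1 + (n₁ - 2 * ε)) * J) ou := by
        funext ω
        rw [hul]
        show (if 1 = 1 ∧ 0 = 0 then _ else _) = _
        rw [if_pos ⟨rfl, rfl⟩]
      rw [e5, i11, hou]
      exact (chA_qj2 hcu hJ1 hwJ (fl2 _ _ he3.le) (by linarith) hk4).1
    · rw [hul]
      show (if i = 1 ∧ j = 0 then _ else _) = _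
      rw [if_neg (by omega)]
  obtain ⟨V₁, z₁, hz₁, r1⟩ := H2 (fun ω => (fun _ _ => 0, (u ω).1)) (fd ((s 1 + N₁) * J) ou)
    ⟨⟨fun i h1 h3 => by omega, fun ω _ i j _ => rfl⟩,
      (qJet m ((range 1).image c) (c 1) 0 b (p 1) (s 1 + N₁)).mono (le_max_left _ _) hee2 hu.1⟩ q1
  obtain ⟨V₂, z₂, hz₂, r2⟩ := H3 (fun ω => (ul ω, (u ω).2)) (fd ((s 2 + N₂) * J) ov')
    ⟨q3, (qJet m ((range 2).image c) (c 2) 0 b (p 2) (s 2 + N₂)).mono (le_max_left _ _) hee3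
      hu.2⟩ q2
  have hBW : CH q B (fun ω => (u ω, W ω)) ≤ t * J + t * J + t * J +
      ((n₁ - ε - N₁) * J * Real.log 2 + Real.log 9) + (0 * Real.log 2 + Real.log 9) + t * J +
      ((n₂ - 2 * ε - N₂) * J * Real.log 2 + Real.log 9) := by
    rw [hBB]
    refine b_few (x₁ := fd ((s 1 + N₁) * J) ou) (x₂ := fd ((s 2 + N₂) * J) ov') (ul := ul)
      (z₁ := z₁) (z₂ := z₂) h0 ?_ ?_ ?_ ?_ ?_ ?_ ?_
    · exact le_trans (CH_mono_cond h0 fun ω ω' _ _ hh => (Prod.ext_iff.mp hh).2) (wz _ z₁ hz₁)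
    · exact le_trans (CH_mono_cond h0 fun ω ω' _ _ hh => (Prod.ext_iff.mp hh).2) (wz _ z₂ hz₂)
    · rw [← hq] at r1
      refine le_trans (CH_mono_cond h0 fun ω ω' _ _ hh => ?_) r1
      simp only [Prod.mk.injEq] at hh ⊢
      exact ⟨⟨trivial, by rw [hh.2.1]⟩, hh.1, wy ω ω' hh.2.2⟩
    · refine fl_few hcl (mul_nonneg (by linarith) hJ0) nu1 ?_
      intro ω ω' _ _ hh
      exact (Prod.ext_iff.mp hh).1
    · refine le_trans (CH_mono_left h0 fun ω ω' _ _ hh => ?_)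
        (fl_few hcl le_rfl (a' := (nu : ℝ)) (a := (s 1 + (n₁ - 2 * ε)) * J) (X := ou)
          (by linarith) ?_)
      · simp only [Prod.mk.injEq] at hh
        obtain ⟨g1, -⟩ := hh
        rw [hul]
        funext i j
        show (if i = 1 ∧ j = 0 then fd ((s 1 + (n₁ - 2 * ε)) * J) ou ω else 0) =
          if i = 1 ∧ j = 0 then fd ((s 1 + (n₁ - 2 * ε)) * J) ou ω' else 0
        rw [g1]
      · intro ω ω' _ _ hh
        exact (Prod.ext_iff.mp hh).1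
    · rw [← hq] at r2
      refine le_trans (CH_mono_cond h0 fun ω ω' _ _ hh => ?_) r2
      simp only [Prod.mk.injEq] at hh ⊢
      exact ⟨⟨hh.1, by rw [hh.2.2.1]⟩, hh.2.1, wy ω ω' hh.2.2.2⟩
    · refine fl_few hcl (mul_nonneg (by linarith) hJ0) nv1 ?_
      intro ω ω' _ _ hh
      exact (Prod.ext_iff.mp hh).1
  rw [hW] at hU hBW
  have fin := trf_lab h0 M1 dY hzR hU hBW
  have e9 := mul_le_mul_of_nonneg_right hη hJ0
  have e10 : h = 16 * t := by rw [ht]; ring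
  show ((N₁ - P + (N₂ - P)) * Real.log 2 - η - h) * J ≤ _
  rw [← hq]
  refine le_trans ?_ fin
  rw [e10]
  have e11 : ((2 * (P₀ - P) + ηx) * Real.log 2 + (θa - θb) + 2 * kM) * J =
      (2 * (P₀ - P) + ηx) * (Real.log 2 * J) + (θa - θb) * J + 2 * (kM * J) := by ring
  rw [e11] at e9
  have hl9 : 0 ≤ Real.log 9 := Real.log_nonneg (by norm_num)
  have hl11 : 0 ≤ Real.log 11 := Real.log_nonneg (by norm_num)
  have htJ : 0 ≤ t * J := mul_nonneg ht0.le hJ0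
  linarith only [e9, hJa, hl9, hl11, htJ]

end Pool.FUL95
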