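import Pool.Agent.H72.KE.Spe
import Pool.Agent.H21.KEC.Cov
import Pool.Agent.H33.EXC.Zrh

/-!
# Exactness behind records near almost every good window with different slopes

`nrd_ex`: the numbers of the chain of the base near a window, in a subclass. `rex_nea`: exactness behind
records from it. `nea_ae`: the facts near almost every good window at all small scales.
-/

set_option autoImplicit false

namespace Pool.FUL95

open MeasureTheory Finset Filter Topology
open Pool.Agent.H49.Ent Pool.Agent.H32.Dense Pool.STK Pool.KA Pool.KSAT Pool.K2S Pool.PB Pool.GEN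
open Pool.S6C Pool.GRW Pool.PKG Pool.OWN72
open Pool.TOP (TopS)
open Pool.CHT
open Pool.MIC6 (ActF)
open Pool.EXTC (upI exC)
open Pool.EXC33 (RexS rexS_of)

variable {n : ℕ} {hn : 2 ≤ n} {S : PCl n} {P : ℝ → ℝ → ℝ} {rr : ℝ → ℝ}
  {P' : ℕ → List (Fin n) × Fin n → ℝ → ℝ → ℝ} {Λ : Finset (Fin n) → Fin n → ℝ → ℝ → ℝ}
  {PB : ℕ → List (Fin n) × Fin n → ℝ → ℝ → ℝ} {o : Od n} {c g ρ d : ℝ}

/-- **The chain of the base near a window**, in a subclass. -/
theorem nrd_ex (H : Pk hn S P rr P' Λ) (hTop : TopS n) (hF : FZX (n - 1)) (hn4 : n ≤ 4)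
    {S' : PCl n} (hne : S'.Ne)
    (hsub : ∀ (τ : ℝ) (J : ℕ) (F : Fam n J) (A : F.Ω → Prop), S'.St τ J F A → S.St τ J F A)
    (h : Nea hn P P' (Gs P rr P' Λ o ∩ Ctw Λ) o c g ρ d) {r K : ℝ} (hr : 0 < r) (hK : 0 ≤ K)
    (hKρ : (K + 4) * r + 8 / c ^ 2 * d ≤ ρ) :
    ∃ (S₁ : PCl n) (Wd : Set ℝ), S₁.Ne ∧
      (∀ (τ : ℝ) (J : ℕ) (F : Fam n J) (A : F.Ω → Prop), S₁.St τ J F A → S'.St τ J F A) ∧
      NrD S₁ Λ (cc hn o.1.1) (n - 1) Wd (g - 2 * r) ((K + 2) * r) (8 / c ^ 2 * d) (c / 2) (c / 4)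
        (fun l => tl hn P P' o g l (g - 2 * r)) (fun l => slN hn P P' o l g) := by
  have hd := h.d0
  have hc := h.c0
  have hc1 := h.c1
  obtain ⟨t1, t2, t3, t4, t5, t6⟩ := h.two
  have hdc : 0 < d / c := by positivity
  have hκd : d ≤ 8 / c ^ 2 * d := by
    have e8 : 4 / c * d = 4 * (d / c) := by ring
    have e9 : 2 / c * d = d / c + d / c := by ring
    linarith
  have hκ0 : 0 < 8 / c ^ 2 * d := by positivity
  have h' : Nea hn P P' (Gs P rr P' Λ o) o c g ρ d := h.big Set.inter_subset_left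
  have hKr : (K + 4) * r = K * r + 4 * r := by ring
  have hK2 : (K + 2) * r = K * r + 2 * r := by ring
  have hK1 : (K + 1) * r = K * r + r := by ring
  have hKr0 : 0 ≤ K * r := mul_nonneg hK hr.le
  -- the windows
  have hball : ∀ w, g - 3 * r ≤ w → w ≤ g + (K + 1) * r → |w - g| + 8 / c ^ 2 * d ≤ ρ := by
    intro w h1 h2
    have : |w - g| ≤ (K + 4) * r := by rw [abs_le]; constructor <;> linarith
    linarith
  obtain ⟨Wt, hWt1, hWt2, hWt3⟩ := wd_ex h.den
  obtain ⟨Wd, hWd⟩ : ∃ Wd : Set ℝ, Wd = Wt ∩ Set.Ioc (g - 3 * r) (g + (K + 1) * r) := ⟨_, rfl⟩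
  have hW1 : Wd ⊆ Gs P rr P' Λ o ∩ Ctw Λ := fun w hw => hWt1 (by rw [hWd] at hw; exact hw.1)
  have hW2 : Wd.Countable := by
    rw [hWd]
    exact hWt2.mono Set.inter_subset_left
  have hW3 : ∀ w ∈ Wd, g - 3 * r < w ∧ w ≤ g + (K + 1) * r := fun w hw => by
    rw [hWd] at hw
    exact hw.2
  have hW4 : ∀ w ∈ Wd, |w - g| + 8 / c ^ 2 * d ≤ ρ := fun w hw =>
    hball w (hW3 w hw).1.le (hW3 w hw).2
  have hden : ∀ x y : ℝ, g - 3 * r ≤ x → x + d ≤ y → y ≤ g + (K + 1) * r →
      ∃ a ∈ Wd, x < a ∧ a < y := by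
    intro x y h1 h2 h3
    have hx := hball x h1 (by linarith)
    have hy := hball y (by linarith) h3
    obtain ⟨a, ha, ha1, ha2⟩ := hWt3 x y (by linarith) (by linarith) h2
    refine ⟨a, ?_, ha1, ha2⟩
    rw [hWd]
    exact ⟨ha, by linarith, by linarith⟩
  obtain ⟨S₀, LE, a1, a2, -, a4, -⟩ := Pool.EXTC.lamW_ex (cc hn o.1.1 (n - 1)) 0 hne
    (H.lam.sub hsub)
  have e0 : g - 3 * r + (K + 4) * r = g + (K + 1) * r := by linarith
  have hΔ : d + 17 / c ^ 2 * d ≤ c * (19 / c ^ 3 * d - d) := by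
    have e1 : c * (19 / c ^ 3 * d - d) = 19 / c ^ 2 * d - c * d := by
      field_simp
    have e2 : c * d ≤ 1 * d := mul_le_mul_of_nonneg_right hc1 hd.le
    have e3 : 8 / c ^ 2 * d = 8 * (1 / c ^ 2 * d) := by ring
    have e4 : 17 / c ^ 2 * d = 17 * (1 / c ^ 2 * d) := by ring
    have e5 : 19 / c ^ 2 * d = 19 * (1 / c ^ 2 * d) := by ring
    have e6 : d ≤ 1 / c ^ 2 * d := by
      have : 1 ≤ 1 / c ^ 2 := by
        rw [le_div_iff₀ (by positivity)]
        nlinarith
      nlinarith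
    linarith
  have hρr : ρ ≤ c / 8 := by
    have h1 := h.ρc
    have h2 : c ^ 2 ≤ c := by nlinarith
    linarith
  have hcg := h.cg
  have hg1 := h.g1
  obtain ⟨S₁, b1, b2, b3, b4, -⟩ := lab_ex H hTop hF hn4 a1
    (fun τ J F A hA => hsub τ J F A (a2 τ J F A hA)) h' hW1 hW2 hW4 (v₀ := g - 3 * r)
    (R := (K + 4) * r) (hball _ le_rfl (by linarith)) (by
      rw [e0]
      exact hball _ (by linarith) le_rfl) (fun x y h1 h2 h3 => hden x y h1 h2 (by linarith))
    (s := 0) le_rfl (N := fun w => w) a4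
    (fun w hw ε hε => ⟨w - ε, 0, by linarith, one_pos, by
      have h1 := (abs_le.1 (show |w - g| ≤ ρ by linarith [hW4 w hw])).2
      have := a4.low (upI (img (cc hn o.1.1) (n - 1))) (Fin.last n) (w - ε) 0 (by linarith)
      linarith⟩) hΔ
  have hlaw : ∀ l, 1 ≤ l → l < n - 1 → ∀ w, g - 3 * r ≤ w → w ≤ g + (K + 1) * r →
      |Λ (img (cc hn o.1.1) l) (cc hn o.1.1 l) w 0 - tl hn P P' o g l w| ≤ 8 / c ^ 2 * d :=
    fun l h1 h2 w h3 h4 => nea_law H hTop hF hn4 h' h1 h2 (hball w h3 h4)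
  have htl : ∀ l w, tl hn P P' o g l (g - 2 * r) + slN hn P P' o l g * (w - (g - 2 * r)) =
      tl hn P P' o g l w := by
    intro l w
    unfold tl
    ring
  have hlt : ∀ w, g - 3 * r ≤ w → w ≤ g + (K + 1) * r → |w - g| ≤ ρ := fun w h1 h2 => by
    linarith [hball w h1 h2]
  refine ⟨S₁, Wd, b1, fun τ J F A hA => a2 τ J F A (b2 τ J F A hA), ?_⟩
  exact
      { aff := b3
        af2 := b4
        con := fun _ w hw => (hW1 hw).2 _ _
        co2 := fun _ w hw => (hW1 hw).2 _ _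
        den := fun x y h1 h2 h3 => hden x y (by linarith) (by linarith) (by linarith)
        g0 := by linarith
        g1 := by linarith
        lin := fun l h1 h2 w _ h3 h4 => by
          rw [htl]
          exact hlaw l h1 h2 w (by linarith) (by linarith)
        slo := fun l h1 h2 => by
          have h3 := (h.slo l h1 h2.le).1
          have h4 := h.slc h1 h2.le
          have h5 : 1 / c ≤ 1 / (c / 2) := one_div_le_one_div_of_le (by linarith) (by linarith)
          exact ⟨by linarith, by linarith⟩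
        sld := fun h3 => by
          have := h.sld 1 2 le_rfl (by omega) (by omega)
          linarith
        dlo := fun l h1 h2 => by
          have := h.tl_lo h1 h2.le (hlt (g - 2 * r) (by linarith) (by linarith))
          linarith
        dhi := fun l h1 h2 => by
          have h3 := h.tl_hi h1 h2.le (hlt (g + K * r) (by linarith) (by linarith))
          have h4 := htl l (g + K * r)
          have e : g + K * r - (g - 2 * r) = (K + 2) * r := by ring
          rw [e] at h4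
          linarith
        gap := fun h3 => by
          have h4 := h.tl_gap (k := 1) (l := 2) le_rfl (by omega) (by omega)
            (hlt (g - 2 * r) (by linarith) (by linarith))
          have h5 := h.slc (l := 1) le_rfl (by omega)
          have h6 : slN hn P P' o 1 g * ((K + 2) * r) ≤ 1 / c * ((K + 2) * r) :=
            mul_le_mul_of_nonneg_right h5 (by positivity)
          have h7 : 1 / c * ((K + 2) * r) ≤ c / 8 := by
            rw [div_mul_eq_mul_div, one_mul, div_le_iff₀ hc]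
            have h8 := h.ρc
            have e : c / 8 * c = c ^ 2 / 8 := by ring
            rw [e]
            linarith
          linarith
        tie := fun h3 w hw _ _ => by
          have h4 := hW4 w hw
          have h5 := nea_up H hTop hF h' (l := 1) le_rfl (by omega) (w := w) (by linarith)
          have h6 := nea_tie H hTop hF h' (by omega) (w := w) (by linarith)
          rw [img_one] at h5
          have e8 : 4 / c * d = 2 * (2 / c * d) := by ring
          linarith }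

/-- **Exactness behind records near a window.** -/
theorem rex_nea (H : Pk hn S P rr P' Λ) (hTop : TopS n) (hF : FZX (n - 1)) (hn4 : n ≤ 4)
    (hR : RecExh n (n - 1)) (hFk : ∀ k ≤ n - 1, FZX k) {c θ : ℝ} (hc : 0 < c) (hθ : 0 < θ) :
    ∃ K₀ r₀ : ℝ, 0 < K₀ ∧ 0 < r₀ ∧ ∀ {o : Od n} {g ρ d : ℝ},
      Nea hn P P' (Gs P rr P' Λ o ∩ Ctw Λ) o c g ρ d → ∀ {r K : ℝ}, 0 < r → 0 ≤ K →
      (K + 4) * r + 8 / c ^ 2 * d ≤ ρ → ∀ {b₀ b₁ P₀ η h : ℝ}, g - 2 * r + η ≤ b₀ →
      b₁ + K₀ * (P₀ + η) ≤ g + K * r → 0 ≤ P₀ → 0 < η → P₀ + η ≤ r₀ → θ * (P₀ + η) ≤ η →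
      K₀ * (8 / c ^ 2 * d) ≤ η → K₀ * h ≤ η → ∀ S' : PCl n,
      (∀ (τ : ℝ) (J : ℕ) (F : Fam n J) (A : F.Ω → Prop), S'.St τ J F A → S.St τ J F A) →
      RexS S' Λ (cc hn o.1.1) (n - 1) b₀ b₁ P₀ η h := by
  obtain ⟨al, g₀, s, d', e', K₁, N₁, hal, hg₀, hC⟩ := H.cl
  obtain ⟨K₀, r₀, hK₀, hr₀, key⟩ := rexS_of hR hal hg₀ (be := c / 2) (co := c / 4) (θ := θ)
    (by positivity) (by positivity) hθ
  refine ⟨K₀, r₀, hK₀, hr₀, ?_⟩
  intro o g ρ d hN r K hr hK hKρ b₀ b₁ P₀ η h h1 h2 h3 h4 h5 h6 h7 h8 S' hs' S₁ hne₁ hs₁ v hv hv'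
    hb
  obtain ⟨S₂, Wd, hne₂, hs₂, hD⟩ := nrd_ex H hTop hF hn4 hne₁
    (fun τ J F A hA => hs' τ J F A (hs₁ τ J F A hA)) hN hr hK hKρ
  have hs₂₀ : ∀ (τ : ℝ) (J : ℕ) (F : Fam n J) (A : F.Ω → Prop), S₂.St τ J F A → S.St τ J F A :=
    fun τ J F A hA => hs' τ J F A (hs₁ τ J F A (hs₂ τ J F A hA))
  have hd := hN.d0
  have hB : ActB N₁ S (cc hn o.1.1 0) := by
    have h1 : cc hn o.1.1 0 = bse (o.1.1 ⟨0, by omega⟩) := cc_lt hn _ (by omega)
    rw [h1]
    exact hC.actb _ (o.1.2 _ rfl)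
  have hrex := key (S := S₂) (C₀ := 6) (L := Λ) (Na := N₁) (c := cc hn o.1.1) (by norm_num)
    (fun τ J F A hτ hA => H.tmc τ J F A hτ (hs₂₀ τ J F A hA))
    (fun τ J F A hA => hC.pos τ J F A (hs₂₀ τ J F A hA)) (H.lam.sub hs₂₀) hFk hC.actm
    (fun q q' a b c h hh => (hB q q' a b c h hh).sub hs₂₀) (by positivity) hD (b₀ := b₀) (b₁ := b₁)
    (P₀ := P₀) (η := η) (h := h) h1 (by
      have e : g - 2 * r + (K + 2) * r = g + K * r := by ring
      linarith) h3 h4 h5 h6 h7 h8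
  obtain ⟨S₃, hne₃, hs₃, hx⟩ := hrex S₂ hne₂ (fun _ _ _ _ h => h) v hv hv' (hb.sub hs₂)
  exact ⟨S₃, hne₃, fun τ J F A hA => hs₂ τ J F A (hs₃ τ J F A hA), hx⟩

/-- **The facts near almost every good window** with different slopes, at all small scales. -/
theorem nea_ae (H : PkT hn S P rr P' Λ PB) (hTop : TopS n) (hF : FZX (n - 1)) (o : Od n) :
    ∀ᵐ g : ℝ, g ∈ Gs P rr P' Λ o → ∀ Sl : ℕ → ℝ,
      (∀ l, 1 ≤ l → l ≤ n - 1 → HasDerivAt (dgN hn P P' o l) (Sl l) g) →
      (∀ l, 1 ≤ l → l ≤ n - 1 → 1 < Sl l) →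
      (∀ k l, 1 ≤ k → k < l → l < n - 1 → Sl k ≠ Sl l) →
      ∃ c : ℝ, 0 < c ∧ ∀ e : ℝ, 0 < e → ∃ r₀ : ℝ, 0 < r₀ ∧ ∀ r : ℝ, 0 < r → r < r₀ →
        16 * e ≤ c ^ 2 → Nea hn P P' (Gs P rr P' Λ o ∩ Ctw Λ) o c g r (e * r) := by
  have hct : ∀ᵐ g : ℝ, g ∈ Ctw Λ := by
    have h1 := (ctw_ae (Λ := Λ) H.lam).ae_notMem volume
    filter_upwards [h1] with g hg
    by_contra hcon
    exact hg hcon
  filter_upwards [hct, dns_pt (Gs P rr P' Λ o ∩ Ctw Λ), H.toPk.chI_ae hTop hF]
    with g kct kdn kch hgm Sl hSl hS1 hSd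
  have hds : Dsc (Gs P rr P' Λ o ∩ Ctw Λ) g := kdn ⟨hgm, kct⟩
  have hg0 : 0 < g := hgm.1.1.1
  have hg1 : g < 1 := hgm.1.1.2.1
  -- the first coordinate
  obtain ⟨c₀, sg, hc₀, hc1, r₁, hr₁, kI⟩ := kch o hgm
  have hI := kI (r₁ / 2) (by linarith) (by linarith) c₀ hc₀ le_rfl
  have hθ : 0 < tht o.2 := tht_pos o.2
  have hdg0 : HasDerivAt (dgN hn P P' o 0) 1 g := by
    obtain ⟨b, hb⟩ : ∃ b, b = min 1 (g + 4 * r₁) := ⟨_, rfl⟩
    have hb1 : b ≤ 1 := by rw [hb]; exact min_le_left _ _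
    have hb2 : b ≤ g + 4 * r₁ := by rw [hb]; exact min_le_right _ _
    have hgb : g < b := by rw [hb]; exact lt_min hg1 (by linarith)
    have hact := act_all H.toPk hF o (b := b) hb1 (fun w h1 h2 => by
      have h3 := hI.bd 0 (by omega) w h1 (by linarith)
      have h4 := hI.sgθ
      have h5 : tht o.2 * w ≤ tht o.2 * 1 := mul_le_mul_of_nonneg_left (by linarith) hθ.le
      linarith)
    refine (hasDerivAt_id g).congr_of_eventuallyEq ?_
    filter_upwards [Ioo_mem_nhds hg0 hgb] with w hw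
    rw [dgN_bas o (by omega)]
    exact hact w hw.1 hw.2
  -- the diagonals
  have hsn : ∀ l, 1 ≤ l → l ≤ n - 1 → slN hn P P' o l g = Sl l := fun l h1 h2 =>
    (hSl l h1 h2).deriv
  have hdif : ∀ l ≤ n - 1, HasDerivAt (dgN hn P P' o l) (slN hn P P' o l g) g := by
    intro l hl
    rcases Nat.eq_zero_or_pos l with rfl | hl0
    · have : slN hn P P' o 0 g = 1 := hdg0.deriv
      rw [this]
      exact hdg0
    · rw [hsn l hl0 hl]
      exact hSl l hl0 hl
  have hsl : ∀ l, 1 ≤ l → l ≤ n - 1 → 1 < slN hn P P' o l g := by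
    intro l h1 h2
    rw [hsn l h1 h2]
    exact hS1 l h1 h2
  have hdf : ∀ k l, 1 ≤ k → k < l → l < n - 1 → slN hn P P' o k g ≠ slN hn P P' o l g := by
    intro k l h1 h2 h3
    rw [hsn k h1 (by omega), hsn l (by omega) (by omega)]
    exact hSd k l h1 h2 h3
  have hlo : ∀ l, 1 ≤ l → l ≤ n - 1 → 0 < dgN hn P P' o l g - g := by
    intro l h1 h2
    refine dsc_pos hds (f := fun a => dgN hn P P' o l a - a)
      ((hdif l h2).sub (hasDerivAt_id g)) (by linarith [hsl l h1 h2]) (fun a ha => ?_) ?_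
    · linarith [gs_dlo H hTop hF ha.1 h2]
    · show 0 ≤ dgN hn P P' o l g - g
      linarith [gs_dlo H hTop hF hgm h2]
  have hgp : ∀ k l, 1 ≤ k → k < l → l < n - 1 →
      0 < dgN hn P P' o l g - dgN hn P P' o k g := by
    intro k l h1 h2 h3
    refine dsc_pos hds (f := fun a => dgN hn P P' o l a - dgN hn P P' o k a)
      ((hdif l h3.le).sub (hdif k (by omega))) (sub_ne_zero.2 (hdf k l h1 h2 h3).symm)
      (fun a ha => ?_) ?_
    · linarith [gs_gap H hTop hF ha.1 h2.le h3]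
    · show 0 ≤ dgN hn P P' o l g - dgN hn P P' o k g
      linarith [gs_gap H hTop hF hgm h2.le h3]
  have hhi : ∀ l, 1 ≤ l → l ≤ n - 1 → 0 < 1 - dgN hn P P' o l g := by
    intro l h1 h2
    have h3 := hI.sg1
    rcases h2.lt_or_eq with h4 | h4
    · have h5 := hI.bd l h4 g hg0 (by linarith)
      rw [dgN_bas o h4]
      linarith
    · subst h4
      have h5 := hI.bdN g hg0 (by linarith)
      rw [dgN_tar]
      linarith
  -- the constants
  obtain ⟨c₁, hc₁, k1⟩ := pos_fin (Finset.Icc 1 (n - 1))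
    (f := fun l => min (min (slN hn P P' o l g - 1) (1 / slN hn P P' o l g))
      (min (dgN hn P P' o l g - g) (1 - dgN hn P P' o l g))) fun l hl => by
      obtain ⟨h1, h2⟩ := Finset.mem_Icc.1 hl
      have h3 := hsl l h1 h2
      exact lt_min (lt_min (by linarith) (by positivity)) (lt_min (hlo l h1 h2) (hhi l h1 h2))
  obtain ⟨c₂, hc₂, k2⟩ := pos_fin ((Finset.range (n - 1) ×ˢ Finset.range (n - 1)).filter
      fun p : ℕ × ℕ => 1 ≤ p.1 ∧ p.1 < p.2)
    (f := fun p : ℕ × ℕ => min (dgN hn P P' o p.2 g - dgN hn P P' o p.1 g)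
      |slN hn P P' o p.1 g - slN hn P P' o p.2 g|) fun p hp => by
      obtain ⟨h1, h2, h3⟩ := Finset.mem_filter.1 hp
      have h4 := Finset.mem_range.1 (Finset.mem_product.1 h1).2
      exact lt_min (hgp _ _ h2 h3 h4) (abs_pos.2 (sub_ne_zero.2 (hdf _ _ h2 h3 h4)))
  obtain ⟨c, hc⟩ : ∃ c, c = min (min c₁ c₂) (min (min g (1 - g)) 1) := ⟨_, rfl⟩
  have m1 : c ≤ c₁ := by rw [hc]; exact (min_le_left _ _).trans (min_le_left _ _)
  have m2 : c ≤ c₂ := by rw [hc]; exact (min_le_left _ _).trans (min_le_right _ _)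
  have m3 : c ≤ g := by
    rw [hc]; exact (min_le_right _ _).trans ((min_le_left _ _).trans (min_le_left _ _))
  have m4 : c ≤ 1 - g := by
    rw [hc]; exact (min_le_right _ _).trans ((min_le_left _ _).trans (min_le_right _ _))
  have m5 : c ≤ 1 := by
    rw [hc]; exact (min_le_right _ _).trans (min_le_right _ _)
  have hc0 : 0 < c := by
    rw [hc]
    exact lt_min (lt_min hc₁ hc₂) (lt_min (lt_min hg0 (by linarith)) one_pos)
  refine ⟨c, hc0, fun e he => ?_⟩
  obtain ⟨r₂, hr₂, k3⟩ := hds e he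
  obtain ⟨δ, hδ, k4⟩ : ∃ δ : ℝ, 0 < δ ∧ ∀ l ∈ Finset.range (n - 1 + 1), ∀ w : ℝ, |w - g| < δ →
      |dgN hn P P' o l w - dgN hn P P' o l g - slN hn P P' o l g * (w - g)| ≤
        e * |w - g| := by
    have h1 := scl_fin (Finset.range (n - 1 + 1)) (Ψ := fun l r => ∀ w : ℝ, |w - g| ≤ r →
      |dgN hn P P' o l w - dgN hn P P' o l g - slN hn P P' o l g * (w - g)| ≤
        e * |w - g|) fun l hl => by
      have hl' : l ≤ n - 1 := by
        have := Finset.mem_range.1 hl
        omega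
      have h3 := (hasDerivAt_iff_isLittleO.1 (hdif l hl')).def (c := e) he
      obtain ⟨δ, hδ, h4⟩ := Metric.eventually_nhds_iff.1 h3
      refine ⟨δ, hδ, fun r hr hr' w hw => ?_⟩
      have h5 := h4 (y := w) (by rw [Real.dist_eq]; linarith)
      rw [Real.norm_eq_abs, Real.norm_eq_abs, smul_eq_mul] at h5
      rwa [mul_comm (slN hn P P' o l g) (w - g)]
    obtain ⟨δ, hδ, h2⟩ := h1
    exact ⟨δ / 2, by linarith, fun l hl w hw => h2 (δ / 2) (by linarith) (by linarith) l hl w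
      hw.le⟩
  refine ⟨min (min r₂ δ) (c ^ 2 / 8), by positivity, fun r hr hr' hec => ?_⟩
  have n1 : r < r₂ := hr'.trans_le ((min_le_left _ _).trans (min_le_left _ _))
  have n2 : r < δ := hr'.trans_le ((min_le_left _ _).trans (min_le_right _ _))
  have n3 : r < c ^ 2 / 8 := hr'.trans_le (min_le_right _ _)
  exact
    { d0 := by positivity
      c0 := hc0
      c1 := m5
      cg := m3
      g1 := by linarith
      slo := fun l h1 h2 => by
        have h3 := k1 l (Finset.mem_Icc.2 ⟨h1, h2⟩)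
        have h4 : c₁ ≤ slN hn P P' o l g - 1 :=
          h3.trans ((min_le_left _ _).trans (min_le_left _ _))
        have h5 : c₁ ≤ 1 / slN hn P P' o l g :=
          h3.trans ((min_le_left _ _).trans (min_le_right _ _))
        have h6 := hsl l h1 h2
        refine ⟨by linarith, ?_⟩
        have h7 := mul_le_mul_of_nonneg_right (m1.trans h5)
          (by linarith : 0 ≤ slN hn P P' o l g)
        have h8 : 1 / slN hn P P' o l g * slN hn P P' o l g = 1 := by
          field_simp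
        linarith
      dlo := fun l h1 h2 => by
        have h3 := (k1 l (Finset.mem_Icc.2 ⟨h1, h2⟩)).trans
          ((min_le_right _ _).trans (min_le_left _ _))
        linarith
      dhi := fun l h1 h2 => by
        have h3 := (k1 l (Finset.mem_Icc.2 ⟨h1, h2⟩)).trans
          ((min_le_right _ _).trans (min_le_right _ _))
        linarith
      gap := fun k l h1 h2 h3 => by
        have h4 := (k2 (k, l) (Finset.mem_filter.2 ⟨Finset.mem_product.2
          ⟨Finset.mem_range.2 (by omega), Finset.mem_range.2 h3⟩, h1, h2⟩)).trans (min_le_left _ _)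
        simp only at h4
        linarith
      sld := fun k l h1 h2 h3 => by
        have h4 := (k2 (k, l) (Finset.mem_filter.2 ⟨Finset.mem_product.2
          ⟨Finset.mem_range.2 (by omega), Finset.mem_range.2 h3⟩, h1, h2⟩)).trans (min_le_right _ _)
        exact m2.trans h4
      den := fun x y hx hy hxy => by
        have h1 := (abs_le.1 hx).1
        have h2 := (abs_le.1 hy).2
        exact k3 r hr n1 x y (by linarith) hxy (by linarith)
      lin := fun l hl w hw => by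
        have h1 := k4 l (Finset.mem_range.2 (by omega)) w (hw.trans_lt n2)
        have h2 : e * |w - g| ≤ e * r := mul_le_mul_of_nonneg_left hw he.le
        unfold tl
        rw [← sub_sub]
        linarith
      ρc := by linarith
      dρ := by
        have := mul_le_mul_of_nonneg_right hec hr.le
        linarith }

end Pool.FUL95
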