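import Pool.Agent.H95.VF.Ffa
import Pool.Agent.H95.VF.Fga
import Pool.Agent.H4.D2.Nvq

/-!
# The data of all items in one class; the facts near a window

`msh_ex`: chains of windows with small steps. `slo_msh`: natural slopes along a chain. `itm_cls`: the
data of countably many items in one class. `rex_g`: exactness behind records near a window at small
scales. `gwn_near`: the numbers of the good windows near a window.
-/

set_option autoImplicit false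

namespace Pool.FUL95

open MeasureTheory Finset Filter Topology
open Pool.Agent.H49.Ent Pool.Agent.H32.Dense Pool.STK Pool.KA Pool.KSAT Pool.K2S Pool.PB Pool.GEN
open Pool.S6C Pool.GRW Pool.PKG Pool.RCD Pool.LA91
open Pool.TOP (TopS)
open Pool.CHT
open Pool.MIC6 (ActF)
open Pool.EXC33 (RexS rexS_of)
open Pool.OWN17 (Gdw cnt_L att_all)
open Pool.D2F2 (bas_leS diag_subS near_up near_lo Den2 deep_ofS lin_near)
open Pool.OWN72 (RecExh Nea Ctw nlw_lo1 nlw_lo2 gs_vs gs_act epo vs_img vse_one gs_zero img)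

section cls

variable {m : ℕ}

theorem ItF.leS {S S' : PCl m} {y u v : Fin m} {b o U D P₀ n₁ n₂ ε kM ηx : ℝ}
    (h : ItF S y u v b o U D P₀ n₁ n₂ ε kM ηx) (hs : S'.Le S) :
    ItF S' y u v b o U D P₀ n₁ n₂ ε kM ηx := by
  obtain ⟨V, z, a, β, h1, h2, h3, h4⟩ := h
  exact ⟨V, z, a, β, bas_leS hs h1, bas_leS hs h2, fun ρ hρ => bas_leS hs (h3 ρ hρ),
    fun ρ hρ => bas_leS hs (h4 ρ hρ)⟩

/-- A chain of windows of `D` with steps at most `h`. -/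
def Msh (D : Set ℝ) (h b o : ℝ) : Prop :=
  ∃ (x : ℕ → ℝ) (N : ℕ), x 0 = b ∧ x N = o ∧ (∀ i ≤ N, x i ∈ D) ∧
    ∀ i < N, x i ≤ x (i + 1) ∧ x (i + 1) ≤ x i + h

/-- **Chains of windows with small steps.** -/
theorem msh_ex {D : Set ℝ} {a₀ a₁ h : ℝ} (hh : 0 < h)
    (hD : ∀ x y : ℝ, a₀ ≤ x → x + h / 2 ≤ y → y ≤ a₁ → ∃ a ∈ D, x < a ∧ a < y) (N : ℕ) :
    ∀ b ∈ D, ∀ o ∈ D, a₀ ≤ b → b ≤ o → o ≤ a₁ → o - b ≤ N * (h / 2) → Msh D h b o := by
  induction N with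
  | zero =>
    intro b hb o _ _ h2 _ h4
    rw [Nat.cast_zero, zero_mul] at h4
    have e : b = o := by linarith
    exact ⟨fun _ => b, 0, rfl, e, fun _ _ => hb, fun i hi => by omega⟩
  | succ N ih =>
    intro b hb o ho h1 h2 h3 h4
    rcases le_or_gt o (b + h) with h5 | h5
    · refine ⟨fun i => if i = 0 then b else o, 1, if_pos rfl, if_neg one_ne_zero, fun i _ => ?_,
        fun i hi => ?_⟩
      · show (if i = 0 then b else o) ∈ D
        split_ifs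
        · exact hb
        · exact ho
      · obtain rfl : i = 0 := by omega
        show (if 0 = 0 then b else o) ≤ (if 0 + 1 = 0 then b else o) ∧
          (if 0 + 1 = 0 then b else o) ≤ (if 0 = 0 then b else o) + h
        rw [if_pos rfl, if_neg (by omega)]
        exact ⟨h2, h5⟩
    · obtain ⟨a, ha, a1, a2⟩ := hD (b + h / 2) (b + h) (by linarith) (by linarith) (by linarith)
      have h6 : ((N + 1 : ℕ) : ℝ) * (h / 2) = N * (h / 2) + h / 2 := by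
        push_cast
        ring
      rw [h6] at h4
      obtain ⟨x, M, x0, xM, x1, x2⟩ := ih a ha o ho (by linarith) (by linarith) h3 (by linarith)
      refine ⟨fun i => if i = 0 then b else x (i - 1), M + 1, if_pos rfl, ?_, fun i hi => ?_,
        fun i hi => ?_⟩
      · show (if M + 1 = 0 then b else x (M + 1 - 1)) = o
        rw [if_neg (by omega), Nat.add_sub_cancel]
        exact xM
      · show (if i = 0 then b else x (i - 1)) ∈ D
        split_ifs with h7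
        · exact hb
        · exact x1 _ (by omega)
      · show (if i = 0 then b else x (i - 1)) ≤ (if i + 1 = 0 then b else x (i + 1 - 1)) ∧
          (if i + 1 = 0 then b else x (i + 1 - 1)) ≤ (if i = 0 then b else x (i - 1)) + h
        rw [if_neg (by omega : ¬ i + 1 = 0), Nat.add_sub_cancel]
        split_ifs with h7
        · rw [h7, x0]
          exact ⟨by linarith, by linarith⟩
        · have h8 := x2 (i - 1) (by omega)
          have e : i - 1 + 1 = i := by omega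
          rw [e] at h8
          exact h8

/-- **Natural slopes along a chain of windows.** -/
theorem slo_msh {S : PCl m} {C₀ : ℝ} (htm : TmC S C₀) {c : ℕ → Fin m} {D : Set ℝ} {V : ℝ → ℝ}
    {h b o κ : ℝ} {sn : ℝ → ℕ → ℝ}
    (hch : ∀ w ∈ D, b ≤ w → w ≤ o → ∃ (u₁ : ℝ) (rd : ℕ → ℝ), Chn S c 1 2 w w u₁ (sn w) rd)
    (hV : ∀ w ∈ D, b ≤ w → w ≤ o → SRel.Ex S (RL m {c 0} (c 1) (c 2) w (V w)))
    (hm : Msh D h b o)
    (h1 : ∀ w ∈ D, ∀ w' ∈ D, b ≤ w → w ≤ w' → w' ≤ o → w' ≤ w + h → sn w' 1 + κ ≤ V w)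
    (h2 : ∀ w ∈ D, ∀ w' ∈ D, b ≤ w → w ≤ w' → w' ≤ o → sn w 1 ≤ sn w' 1) :
    SloN S (RL m {c 0} (c 1) (c 2) b (sn b 1 + κ)) (RL m {c 0} (c 1) (c 2) o (sn o 1 + κ)) κ := by
  obtain ⟨x, N, x0, xN, x1, x2⟩ := hm
  have hmo : ∀ i j : ℕ, i ≤ j → j ≤ N → x i ≤ x j := by
    intro i j hij
    induction j, hij using Nat.le_induction with
    | base => exact fun _ => le_rfl
    | succ j hij ih => exact fun hj => (ih (by omega)).trans (x2 j (by omega)).1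
  have hlo : ∀ i ≤ N, b ≤ x i := fun i hi => by
    rw [← x0]
    exact hmo 0 i (Nat.zero_le _) hi
  have hhi : ∀ i ≤ N, x i ≤ o := fun i hi => by
    rw [← xN]
    exact hmo i N hi le_rfl
  have hch' : ∀ i : ℕ, ∃ (u₁ : ℝ) (rd : ℕ → ℝ), i ≤ N → Chn S c 1 2 (x i) (x i) u₁ (sn (x i)) rd := by
    intro i
    by_cases hi : i ≤ N
    · obtain ⟨u₁, rd, h3⟩ := hch (x i) (x1 i hi) (hlo i hi) (hhi i hi)
      exact ⟨u₁, rd, fun _ => h3⟩
    · exact ⟨0, fun _ => 0, fun h3 => absurd h3 hi⟩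
  choose u₁ rd hch' using hch'
  have key := slo_chain htm (r₀ := 1) (n := 1) (c := c) le_rfl (c 2) (x := x) (u₀ := x) (u₁ := u₁)
    (D := fun i => V (x i)) (s := fun i => sn (x i)) (rd := rd) (g := κ) N
    (fun i hi => (x2 i hi).1) (fun i hi => hch' i hi) (fun i hi => by
      rw [img1]
      exact hV (x i) (x1 i hi.le) (hlo i hi.le) (hhi i hi.le))
    (fun i hi => h1 (x i) (x1 i hi.le) (x (i + 1)) (x1 (i + 1) hi) (hlo i hi.le) (x2 i hi).1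
      (hhi (i + 1) hi) (x2 i hi).2)
    (fun i hi => h2 (x i) (x1 i hi.le) (x (i + 1)) (x1 (i + 1) hi) (hlo i hi.le) (x2 i hi).1
      (hhi (i + 1) hi))
  rw [img1, x0, xN] at key
  exact key

/-- **The data of countably many items in one class.** -/
theorem itm_cls {S₀ : PCl m} (hS : S₀.Ne) {C₀ : ℝ} (hC₀ : 0 ≤ C₀) (htm : TmC S₀ C₀)
    (hpos : ∀ (τ : ℝ) (J : ℕ) (F : Fam m J) (A : F.Ω → Prop), S₀.St τ J F A → 0 < Pe F.p A)
    {L : Finset (Fin m) → Fin m → ℝ → ℝ → ℝ} (hL : LamW S₀ L) {c : ℕ → Fin m} (h01 : c 0 ≠ c 1)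
    (hact : ActF S₀ (c 0)) {M : ℝ}
    (hM : Bas S₀ (fun J F A => (cnt F.p (ptr F J) A : ℝ) ≤ Real.exp (M * J)))
    {D : Set ℝ} (hD : D.Countable) :
    ∃ S' : PCl m, S'.Ne ∧
      (∀ (τ : ℝ) (J : ℕ) (F : Fam m J) (A : F.Ω → Prop), S'.St τ J F A → S₀.St τ J F A) ∧
      ∀ b ∈ D, ∀ o ∈ D, ∀ P₀ n₁ n₂ ε kM ηx : ℚ, ∀ κ NI b₀ b₁ hx : ℝ,
        HNm S₀ L (c 0) (c 1) (c 2) b o κ P₀ n₁ n₂ NI ε → 0 < kM → L ∅ (c 0) b 0 ≤ b →
        RexS S₀ L c 3 b₀ b₁ P₀ ηx hx → 0 < hx → b₀ < b → b < b₁ →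
        ItF S' (c 0) (c 1) (c 2) b o (L {c 0} (c 1) b b) (L {c 0, c 1} (c 2) b b) P₀ n₁ n₂ ε kM
          ηx := by
  classical
  have hDc : Countable D := hD.to_subtype
  obtain ⟨HI, hHI⟩ : ∃ HI : (D × D) × (ℚ × ℚ × ℚ) × (ℚ × ℚ × ℚ) → Prop,
      HI = fun i => ∃ κ NI b₀ b₁ hx : ℝ,
        HNm S₀ L (c 0) (c 1) (c 2) i.1.1 i.1.2 κ i.2.1.1 i.2.1.2.1 i.2.1.2.2 NI i.2.2.1 ∧
        (0 : ℝ) < i.2.2.2.1 ∧ L ∅ (c 0) i.1.1 0 ≤ i.1.1 ∧
        RexS S₀ L c 3 b₀ b₁ i.2.1.1 i.2.2.2.2 hx ∧ 0 < hx ∧ b₀ < i.1.1 ∧ (i.1.1 : ℝ) < b₁ :=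
    ⟨_, rfl⟩
  obtain ⟨Q, hQ⟩ : ∃ Q : (D × D) × (ℚ × ℚ × ℚ) × (ℚ × ℚ × ℚ) → PCl m → Prop,
      Q = fun i S' => HI i → ItF S' (c 0) (c 1) (c 2) i.1.1 i.1.2 (L {c 0} (c 1) i.1.1 i.1.1)
        (L {c 0, c 1} (c 2) i.1.1 i.1.1) i.2.1.1 i.2.1.2.1 i.2.1.2.2 i.2.2.1 i.2.2.2.1
        i.2.2.2.2 := ⟨_, rfl⟩
  obtain ⟨S', h1, h2, h3⟩ := diag_subS hS Q (by
      rw [hQ]
      exact fun i S₁ S₂ hle h a => (h a).leS hle) (by
      rw [hQ]
      intro i S₁ hne hs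
      by_cases hi : HI i
      · have hi' := hi
        rw [hHI] at hi'
        obtain ⟨κ, NI, b₀, b₁, hx, e1, e2, e3, e4, e5, e6, e7⟩ := hi'
        obtain ⟨S₂, g1, g2, g3⟩ := itm_root hC₀ htm hpos hL h01 hact hM e1 e2 e3 e4 e5 e6 e7 hne hs
        exact ⟨S₂, g1, g2, fun _ => g3⟩
      · exact ⟨S₁, hne, fun _ _ _ _ h => h, fun a => absurd a hi⟩)
  refine ⟨S', h1, h2, fun b hb o ho P₀ n₁ n₂ ε kM ηx κ NI b₀ b₁ hx e1 e2 e3 e4 e5 e6 e7 => ?_⟩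
  have h4 := h3 ((⟨b, hb⟩, ⟨o, ho⟩), (P₀, n₁, n₂), (ε, kM, ηx))
  rw [hQ, hHI] at h4
  exact h4 ⟨κ, NI, b₀, b₁, hx, e1, by exact_mod_cast e2, e3, e4, e5, e6, e7⟩

end cls

section near

variable {n : ℕ} {hn : 2 ≤ n} {S : PCl n} {P : ℝ → ℝ → ℝ} {rr : ℝ → ℝ}
  {P' : ℕ → List (Fin n) × Fin n → ℝ → ℝ → ℝ} {Λ : Finset (Fin n) → Fin n → ℝ → ℝ → ℝ}
  {PB : ℕ → List (Fin n) × Fin n → ℝ → ℝ → ℝ} {o : Od n} {g : ℝ}

/-- **Exactness behind records near a window**, at small scales. -/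
theorem rex_g (H : Pk hn S P rr P' Λ) (hTop : TopS n) (hF : FZX (n - 1)) (hn4 : n ≤ 4)
    (hR : RecExh n (n - 1)) (hFk : ∀ k ≤ n - 1, FZX k) {c : ℝ} (hc : 0 < c)
    (hN : ∀ e : ℝ, 0 < e → ∃ r₀ : ℝ, 0 < r₀ ∧ ∀ r : ℝ, 0 < r → r < r₀ → 16 * e ≤ c ^ 2 →
      Nea hn P P' (Gs P rr P' Λ o ∩ Ctw Λ) o c g r (e * r)) {θ M : ℝ} (hθ : 0 < θ) (hM : 0 < M) :
    ∃ ρ : ℝ, 0 < ρ ∧ ∀ R : ℝ, 0 < R → R < ρ → ∀ P₀ η : ℝ, 0 ≤ P₀ → θ * R ≤ η →
      P₀ + η ≤ M * R → ∃ h : ℝ, 0 < h ∧ ∀ S' : PCl n,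
      (∀ (τ : ℝ) (J : ℕ) (F : Fam n J) (A : F.Ω → Prop), S'.St τ J F A → S.St τ J F A) →
      RexS S' Λ (cc hn o.1.1) (n - 1) (g - M * R) (g + M * R) P₀ η h := by
  obtain ⟨K₀, r₁, hK₀, hr₁, key⟩ := rex_nea (θ := θ / M) H hTop hF hn4 hR hFk hc (by positivity)
  obtain ⟨T, hT⟩ : ∃ T, T = K₀ + 6 := ⟨_, rfl⟩
  have hT0 : 0 < T := by rw [hT]; linarith
  obtain ⟨e, he, e1, e2, e3⟩ : ∃ e : ℝ, 0 < e ∧ 16 * e ≤ c ^ 2 ∧ 8 * e * T ≤ c ^ 2 ∧
      K₀ * (8 * e * T) * M ≤ c ^ 2 * θ := by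
    refine ⟨min (c ^ 2 / 16) (min (c ^ 2 / (8 * T)) (c ^ 2 * θ / (8 * K₀ * T * M))),
      by positivity, ?_, ?_, ?_⟩
    · have h1 : min (c ^ 2 / 16) (min (c ^ 2 / (8 * T)) (c ^ 2 * θ / (8 * K₀ * T * M))) ≤
        c ^ 2 / 16 := min_le_left _ _
      linarith
    · have h1 : min (c ^ 2 / 16) (min (c ^ 2 / (8 * T)) (c ^ 2 * θ / (8 * K₀ * T * M))) ≤
        c ^ 2 / (8 * T) := (min_le_right _ _).trans (min_le_left _ _)
      rw [le_div_iff₀ (by positivity)] at h1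
      linarith
    · have h1 : min (c ^ 2 / 16) (min (c ^ 2 / (8 * T)) (c ^ 2 * θ / (8 * K₀ * T * M))) ≤
        c ^ 2 * θ / (8 * K₀ * T * M) := (min_le_right _ _).trans (min_le_right _ _)
      rw [le_div_iff₀ (by positivity)] at h1
      linarith
  obtain ⟨r₀, hr₀, hNe⟩ := hN e he
  refine ⟨min (r₀ / (T * M)) (r₁ / M), by positivity, fun R hR hRρ P₀ η hP₀ hη hPη => ?_⟩
  have k1 : T * M * R < r₀ := by
    have := hRρ.trans_le (min_le_left _ _)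
    rw [lt_div_iff₀ (by positivity)] at this
    linarith
  have k2 : M * R < r₁ := by
    have := hRρ.trans_le (min_le_right _ _)
    rw [lt_div_iff₀ (by positivity)] at this
    linarith
  have hη0 : 0 < η := lt_of_lt_of_le (by positivity) hη
  have hNea := hNe (T * M * R) (by positivity) k1 e1
  have hMR : 0 < M * R := by positivity
  have x1 : 8 / c ^ 2 * (e * (T * M * R)) ≤ M * R := by
    rw [div_mul_eq_mul_div, div_le_iff₀ (by positivity)]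
    have := mul_le_mul_of_nonneg_right e2 hMR.le
    linarith
  have x2 : K₀ * (8 / c ^ 2 * (e * (T * M * R))) ≤ θ * R := by
    have x3 : K₀ * (8 / c ^ 2 * (e * (T * M * R))) = (K₀ * (8 * e * T) * M) * R / c ^ 2 := by
      ring
    rw [x3, div_le_iff₀ (by positivity)]
    have := mul_le_mul_of_nonneg_right e3 hR.le
    linarith
  refine ⟨η / K₀, by positivity, fun S' hs' => ?_⟩
  refine key hNea (r := M * R) (K := 1 + K₀) hMR (by linarith) ?_ ?_ ?_ hP₀ hη0 (by linarith) ?_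
    (x2.trans hη) ?_ S' hs'
  · have x4 : T * M * R = (1 + K₀ + 4) * (M * R) + M * R := by
      rw [hT]
      ring
    linarith
  · linarith
  · have x4 : K₀ * (P₀ + η) ≤ K₀ * (M * R) := mul_le_mul_of_nonneg_left hPη hK₀.le
    have x5 : (1 + K₀) * (M * R) = M * R + K₀ * (M * R) := by ring
    linarith
  · have x4 : θ / M * (P₀ + η) ≤ θ / M * (M * R) := mul_le_mul_of_nonneg_left hPη (by positivity)
    have x5 : θ / M * (M * R) = θ * R := by field_simp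
    linarith
  · have : K₀ * (η / K₀) = η := by field_simp
    exact this.le

/-- **The numbers of the good windows near a window.** -/
theorem gwn_near (H : Pk hn S P rr P' Λ) (hTop : TopS n) (hF : FZX (n - 1)) (hn4 : 4 ≤ n)
    {G : Set ℝ} (hG : G ⊆ Gs P rr P' Λ o) {S₁ : ℝ} (hg : g ∈ G) (hd : Den2 G g) (hS : 1 < S₁)
    (h1 : HasDerivAt (fun w => LvL hn P P' o 1 w w) S₁ g) :
    g < LvL hn P P' o 1 g g ∧ LvL hn P P' o 1 g g ≤ LvL hn P P' o 2 g g ∧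
      LvL hn P P' o 2 g g < 1 ∧
    ∃ ρ : ℝ, 0 < ρ ∧ ∀ w ∈ G, |w - g| ≤ ρ → w ∈ Ctw Λ →
      ContinuousAt (fun W => Λ {cc hn o.1.1 0} (cc hn o.1.1 1) W W) w →
      ContinuousAt (fun W => Λ {cc hn o.1.1 0, cc hn o.1.1 1} (cc hn o.1.1 2) W W) w →
      Gdw Λ (cc hn o.1.1 0) (cc hn o.1.1 1) (cc hn o.1.1 2) w ∧
      LvL hn P P' o 1 w w = Λ {cc hn o.1.1 0} (cc hn o.1.1 1) w w ∧
      LvL hn P P' o 2 w w = Λ {cc hn o.1.1 0, cc hn o.1.1 1} (cc hn o.1.1 2) w w ∧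
      Λ ∅ (cc hn o.1.1 0) w 0 ≤ w := by
  obtain ⟨y, hy⟩ : ∃ y, y = cc hn o.1.1 0 := ⟨_, rfl⟩
  obtain ⟨u, hu⟩ : ∃ u, u = cc hn o.1.1 1 := ⟨_, rfl⟩
  obtain ⟨v, hv⟩ : ∃ v, v = cc hn o.1.1 2 := ⟨_, rfl⟩
  obtain ⟨f1, hf1⟩ : ∃ f1 : ℝ → ℝ, f1 = fun w => LvL hn P P' o 1 w w := ⟨_, rfl⟩
  obtain ⟨f2, hf2⟩ : ∃ f2 : ℝ → ℝ, f2 = fun w => LvL hn P P' o 2 w w := ⟨_, rfl⟩
  rw [← hf1] at h1
  have hmon := H.lam.mono
  -- the values at the windows of `G`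
  have v1 : ∀ a ∈ G, f1 a = vs Λ (epo hn o) a 2 := fun a ha => by
    rw [hf1]
    exact gs_lvl H hTop hF (hG ha) (by omega)
  have v2 : ∀ a ∈ G, f2 a = vs Λ (epo hn o) a 3 := fun a ha => by
    rw [hf2]
    exact gs_lvl H hTop hF (hG ha) (by omega)
  have w1 : ∀ a ∈ G, f1 a = Λ {y} u a a := fun a ha => by
    rw [v1 a ha, vs_img o a (l := 1) (by omega), Pool.D2F2.img1, vse_one H o (hG ha).1.1.1.le
      (hG ha).1.1.2.1, hy, hu]
  have w2 : ∀ a ∈ G, f2 a = Λ {y, u} v a (f1 a) := fun a ha => by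
    rw [v2 a ha, vs_img o a (l := 2) (by omega), Pool.D2F2.img2, ← v1 a ha, hy, hu, hv]
  have g0 : ∀ a ∈ G, 0 < a ∧ a < 1 := fun a ha => ⟨(hG ha).1.1.1, (hG ha).1.1.2.1⟩
  have ge1 : ∀ a ∈ G, a ≤ f1 a := fun a ha => by
    rw [v1 a ha]
    exact le_vs H.lam _ (g0 a ha).2.le 2
  have le12 : ∀ a ∈ G, f1 a ≤ f2 a := fun a ha => by
    rw [v1 a ha, v2 a ha]
    exact ((hG ha).1.1.2.2.1.mono H.lam (g0 a ha).2.le) (by norm_num)
  have lt2 : ∀ a ∈ G, f2 a < 1 := fun a ha => by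
    obtain ⟨u₁, rd, -, hch⟩ := gs_chn H hTop hF (hG ha) (i := n - 1) le_rfl
    have h3 := (hch.s0 2 (Nat.zero_le _) (by omega)).2
    rw [hf2]
    exact h3
  -- the first number
  have F1 : ∀ e : ℝ, 0 < e → ∃ r₀ : ℝ, 0 < r₀ ∧ ∀ r : ℝ, 0 < r → r < r₀ → ∀ w : ℝ,
      |w - g| ≤ r → Λ {y} u w w ≤ f1 g + S₁ * (w - g) + e * r := by
    refine near_up hd h1 one_pos fun a ha w _ hwa => ?_
    rw [w1 a ha]
    exact hmon _ _ _ _ _ _ _ (Finset.Subset.refl _) hwa hwa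
  have F1' : ∀ e : ℝ, 0 < e → ∃ r₀ : ℝ, 0 < r₀ ∧ ∀ r : ℝ, 0 < r → r < r₀ → ∀ w : ℝ,
      |w - g| ≤ r → f1 g + S₁ * (w - g) - e * r ≤ Λ {y} u w 0 := by
    refine near_lo hd h1 one_pos fun a ha w _ haw => ?_
    have h3 := nlw_lo1 H hTop hF (hG ha) haw (by omega)
    rw [gs_vs H hTop hF (hG ha) (by omega), ← v1 a ha, ← hy, ← hu] at h3
    exact h3
  have hgp := (g0 g hg).1
  have pos0 : ∀ {w r : ℝ}, |w - g| ≤ r → r < g → 0 ≤ w := fun hw hr => by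
    have := (abs_le.1 hw).1
    linarith
  -- the value at `g`
  have hgu : g < f1 g := by
    obtain ⟨r₁, hr₁, k⟩ := lin_near h1 (ε := (S₁ - 1) / 4) (by linarith)
    obtain ⟨q₁, hq₁, hd'⟩ := hd (1 / 2) (by norm_num)
    obtain ⟨r, hr0, hr1, hr2⟩ : ∃ r : ℝ, 0 < r ∧ r < r₁ ∧ r < q₁ :=
      ⟨min r₁ q₁ / 2, by positivity, by
        have : min r₁ q₁ ≤ r₁ := min_le_left _ _
        linarith, by
        have : min r₁ q₁ ≤ q₁ := min_le_right _ _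
        linarith⟩
    obtain ⟨-, a, ha, a1, a2⟩ := hd' r hr0 hr2 (g - r / 2) (by
      rw [abs_le]
      constructor <;> linarith)
    have h3 := (abs_le.1 (k r hr0 hr1 a (by
      rw [abs_le]
      constructor <;> linarith))).2
    have h4 := ge1 a ha
    have h5 : (S₁ - 1) * (r / 2) ≤ (S₁ - 1) * (g - a) :=
      mul_le_mul_of_nonneg_left (by linarith) (by linarith)
    have h6 : 0 < (S₁ - 1) * r := mul_pos (by linarith) hr0
    nlinarith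
  obtain ⟨a₀, a₁, ha0, haa, ha1, hda⟩ := deep_ofS (f := fun w => Λ {y} u w w) hgp (g0 g hg).2 hS
    (fun e he => by
      obtain ⟨r₀, hr₀, h⟩ := F1' e he
      refine ⟨min r₀ g, lt_min hr₀ hgp, fun r hr hrr w hw => ?_⟩
      exact (h r hr (hrr.trans_le (min_le_left _ _)) w hw).trans
        (hmon _ _ _ _ _ _ _ (Finset.Subset.refl _) le_rfl
          (pos0 hw (hrr.trans_le (min_le_right _ _)))))
  have hf1g : f1 g < 1 := (le12 g hg).trans_lt (lt2 g hg)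
  obtain ⟨ρ, hρ, hnear⟩ : ∃ ρ : ℝ, 0 < ρ ∧ ∀ w : ℝ, |w - g| ≤ ρ → w < Λ {y} u w 0 ∧
      Λ {y} u w w < 1 ∧ Λ {y} u w w - w < Λ {y} u a₀ a₀ - a₁ ∧ 0 ≤ w := by
    obtain ⟨ra, hra, ka⟩ := F1 1 one_pos
    obtain ⟨rb, hrb, kb⟩ := F1' 1 one_pos
    obtain ⟨d, hd0, d1, d2, d3⟩ : ∃ d : ℝ, 0 < d ∧ d ≤ f1 g - g ∧ d ≤ 1 - f1 g ∧
        d ≤ Λ {y} u a₀ a₀ - a₁ - (f1 g - g) := by
      refine ⟨min (min (f1 g - g) (1 - f1 g)) (Λ {y} u a₀ a₀ - a₁ - (f1 g - g)),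
        lt_min (lt_min (by linarith) (by linarith)) (by linarith), ?_, ?_, ?_⟩
      · exact (min_le_left _ _).trans (min_le_left _ _)
      · exact (min_le_left _ _).trans (min_le_right _ _)
      · exact min_le_right _ _
    have hT : 0 < 2 * (S₁ + 2) := by linarith
    obtain ⟨r, hr0, r1, r2, r3, r4⟩ : ∃ r : ℝ, 0 < r ∧ r < ra ∧ r < rb ∧
        r * (2 * (S₁ + 2)) ≤ d ∧ r < g := by
      refine ⟨min (min (ra / 2) (rb / 2)) (min (d / (2 * (S₁ + 2))) (g / 2)),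
        lt_min (lt_min (by linarith) (by linarith)) (lt_min (by positivity) (by linarith)),
        ?_, ?_, ?_, ?_⟩
      · exact lt_of_le_of_lt ((min_le_left _ _).trans (min_le_left _ _)) (by linarith)
      · exact lt_of_le_of_lt ((min_le_left _ _).trans (min_le_right _ _)) (by linarith)
      · have : min (min (ra / 2) (rb / 2)) (min (d / (2 * (S₁ + 2))) (g / 2)) ≤
            d / (2 * (S₁ + 2)) := (min_le_right _ _).trans (min_le_left _ _)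
        rwa [le_div_iff₀ hT] at this
      · exact lt_of_le_of_lt ((min_le_right _ _).trans (min_le_right _ _)) (by linarith)
    refine ⟨r, hr0, fun w hw => ?_⟩
    have h3 := ka r hr0 r1 w hw
    have h4 := kb r hr0 r2 w hw
    have h6 : |S₁ * (w - g)| ≤ S₁ * r := by
      rw [abs_mul, abs_of_pos (by linarith : (0 : ℝ) < S₁)]
      exact mul_le_mul_of_nonneg_left hw (by linarith)
    obtain ⟨h6, h7⟩ := abs_le.1 h6
    obtain ⟨h8, h9⟩ := abs_le.1 hw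
    have h10 : 0 < S₁ * r := mul_pos (by linarith) hr0
    exact ⟨by linarith, by linarith, by linarith, pos0 hw r4⟩
  have hcnt : {W : ℝ | ¬ ContinuousAt (fun W => Λ {y} u W 0) W}.Countable :=
    Monotone.countable_not_continuousAt fun a b hab =>
      hmon _ _ _ _ _ _ _ (Finset.Subset.refl _) hab le_rfl
  rw [← hy, ← hu, ← hv]
  have q1 : ∀ w, LvL hn P P' o 1 w w = f1 w := fun w => by rw [hf1]
  have q2 : ∀ w, LvL hn P P' o 2 w w = f2 w := fun w => by rw [hf2]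
  simp only [q1, q2]
  refine ⟨hgu, le12 g hg, lt2 g hg, ρ / 2, by positivity, fun w hw hwg hC c1 c2 => ?_⟩
  obtain ⟨b1, b2⟩ := abs_le.1 hwg
  obtain ⟨m1, m2, m3, m4⟩ := hnear w (by linarith)
  have e1 := w1 w hw
  have e2 : f2 w = Λ {y, u} v w w := by
    refine le_antisymm ?_ ?_
    · have h3 : ∀ W, w < W → W - g ≤ ρ → f2 w ≤ Λ {y, u} v W 0 := by
        intro W hW hWg
        obtain ⟨W', hWc, hW1, hW2⟩ := (hcnt.dense_compl ℝ).exists_between hW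
        obtain ⟨m1', m2', m3', m4'⟩ := hnear W' (by
          rw [abs_le]
          constructor <;> linarith)
        have hWc' : ContinuousAt (fun w => Λ {y} u w 0) W' := by
          by_contra hcon
          exact hWc hcon
        have l1 : Λ {y} u W' 0 ≤ Λ {y} u W' W' :=
          hmon _ _ _ _ _ _ _ (Finset.Subset.refl _) le_rfl m4'
        rw [hy, hu] at hWc' m1' m2' m3' l1
        have h3 := nlw_lo2 H hTop hF (hG hw) hW1 (by omega) hWc' m1' (by linarith) ha0 haa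
          (by linarith)
        rw [gs_vs H hTop hF (hG hw) (by omega), ← v2 w hw, ← hy, ← hu, ← hv] at h3
        exact h3.trans (hmon _ _ _ _ _ _ _ (Finset.Subset.refl _) hW2.le le_rfl)
      have h4 : f2 w ≤ Λ {y, u} v w 0 := by
        by_contra hcon
        rw [not_le] at hcon
        have h5 : ∀ᶠ W in 𝓝 w, Λ {y, u} v W 0 < f2 w := (hC {y, u} v).eventually_lt_const hcon
        obtain ⟨δ, hδ, h6⟩ := Metric.eventually_nhds_iff.1 h5
        obtain ⟨t, ht, ht1, ht2⟩ : ∃ t : ℝ, 0 < t ∧ t < δ ∧ t ≤ ρ / 2 :=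
          ⟨min (δ / 2) (ρ / 2), by positivity,
            (min_le_left _ _).trans_lt (by linarith), min_le_right _ _⟩
        have h7 := h6 (y := w + t) (by
          rw [Real.dist_eq, add_sub_cancel_left, abs_of_pos ht]
          exact ht1)
        have h8 := h3 (w + t) (by linarith) (by linarith)
        linarith
      exact h4.trans (hmon _ _ _ _ _ _ _ (Finset.Subset.refl _) le_rfl m4)
    · rw [w2 w hw]
      exact hmon _ _ _ _ _ _ _ (Finset.Subset.refl _) le_rfl (ge1 w hw)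
  have l1 : Λ {y} u w 0 ≤ Λ {y} u w w := hmon _ _ _ _ _ _ _ (Finset.Subset.refl _) le_rfl m4
  have l2 := le12 w hw
  refine ⟨⟨(g0 w hw).1, c1, c2, by linarith, by rw [← e2]; linarith, m2, a₀, a₁, ha0, haa, ha1,
    m3⟩, e1, e2, ?_⟩
  have h3 := gs_zero (r := 0) H o (g0 w hw).1.le (g0 w hw).2
  rw [← hy] at h3
  exact h3.le

end near

end Pool.FUL95
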