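import Pool.Agent.H95.VF.Fgb
import Pool.Agent.H95.VF.Ffc

/-!
# The places `1` and `2` are full behind their own paths at a window

`fulG_near`: from the data of all items, the numbers near the window, the rate of the velocity of the
base and exactness behind records near the window.
-/

set_option autoImplicit false

namespace Pool.FUL95

open Finset Real MvPolynomial Filter Topology
open Pool.Agent.H49.Ent Pool.Agent.H32.Dense Pool.STK Pool.KA Pool.KSAT Pool.K2S Pool.PB Pool.S6C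
  Pool.GEN Pool.RCD Pool.LA91 Pool.MIC6 Pool.OWN68 Pool.OWN17 Pool.EXC33
open Pool.OWN83 (yX dT YkV)

variable {m : ℕ}

/-- **The places `1` and `2` are full behind their own paths** at a window. -/
theorem fulG_near {S₂ S' : PCl m} {C₀ : ℝ} (htm : TmC S' C₀)
    (hpos : ∀ (τ : ℝ) (J : ℕ) (F : Fam m J) (A : F.Ω → Prop), S'.St τ J F A → 0 < Pe F.p A)
    {L : Finset (Fin m) → Fin m → ℝ → ℝ → ℝ} {c : ℕ → Fin m} {sn : ℝ → ℕ → ℝ} {G D : Set ℝ}
    (hDG : D ⊆ G) {g S₁ Sd u₀ v₀ : ℝ} (hg0 : 0 < g) (h1 : 1 < S₁) (h2 : 1 < Sd) (gu : g < u₀)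
    (uv : u₀ ≤ v₀) (v1 : v₀ < 1)
    (hlin : ∀ e : ℝ, 0 < e → ∃ r₀ : ℝ, 0 < r₀ ∧ ∀ r : ℝ, 0 < r → r < r₀ → ∀ w : ℝ,
      |w - g| ≤ r → |sn w 1 - u₀ - S₁ * (w - g)| ≤ e * r ∧ |sn w 2 - v₀ - Sd * (w - g)| ≤ e * r)
    (hden : Pool.OWN72.Dsc D g) {ρ₁ : ℝ} (hρ₁ : 0 < ρ₁)
    (hW : ∀ w ∈ D, |w - g| ≤ ρ₁ → Gdw L (c 0) (c 1) (c 2) w ∧ sn w 1 = L {c 0} (c 1) w w ∧
      sn w 2 = L {c 0, c 1} (c 2) w w ∧ L ∅ (c 0) w 0 ≤ w ∧
      ∃ (u₁ : ℝ) (rd : ℕ → ℝ), Chn S' c 1 3 w w u₁ (sn w) rd)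
    (hslo : ∀ h b o κ : ℝ, |b - g| ≤ ρ₁ → |o - g| ≤ ρ₁ → Msh D h b o →
      (∀ w ∈ D, ∀ w' ∈ D, b ≤ w → w ≤ w' → w' ≤ o → w' ≤ w + h → sn w' 1 + κ ≤ sn w 2) →
      SloN S₂ (RL m {c 0} (c 1) (c 2) b (sn b 1 + κ)) (RL m {c 0} (c 1) (c 2) o (sn o 1 + κ)) κ)
    (hrex : ∀ θ M : ℝ, 0 < θ → 0 < M → ∃ ρ : ℝ, 0 < ρ ∧ ∀ R : ℝ, 0 < R → R < ρ → ∀ P₀ η : ℝ,
      0 ≤ P₀ → θ * R ≤ η → P₀ + η ≤ M * R → ∃ h : ℝ, 0 < h ∧
        RexS S₂ L c 3 (g - M * R) (g + M * R) P₀ η h)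
    (hitm : ∀ b ∈ D, ∀ o ∈ D, ∀ P₀ n₁ n₂ ε kM ηx : ℚ, ∀ κ NI b₀ b₁ hx : ℝ,
      HNm S₂ L (c 0) (c 1) (c 2) b o κ P₀ n₁ n₂ NI ε → 0 < kM → L ∅ (c 0) b 0 ≤ b →
      RexS S₂ L c 3 b₀ b₁ P₀ ηx hx → 0 < hx → b₀ < b → b < b₁ →
      ItF S' (c 0) (c 1) (c 2) b o (L {c 0} (c 1) b b) (L {c 0, c 1} (c 2) b b) P₀ n₁ n₂ ε kM
        ηx)
    {θ : ℕ → ℚ → ℝ} {M₀ : ℝ} (hM₀ : 0 ≤ M₀)
    (hrn : ∀ q : ℚ, |(q : ℝ) - g| ≤ ρ₁ → (∃ η, RNum S' (fun J F => ptr F J) (vg q) η) ∧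
      ∀ k : ℕ, NN S' (fun J F => ptr F J) (vg q) (yX ((range 1).image c))
        (Qt.fn (dT (m := m) ((range 1).image c) ((1 / 8) ^ k))) (θ k q))
    (hrate : ∀ r : ℝ, 0 < r → r ≤ ρ₁ → ∀ k : ℕ, ∀ q q' : ℚ, g - r ≤ q → q ≤ q' →
      (q' : ℝ) ≤ g + r → θ k q - θ k q' ≤ (1 / 2) ^ k * (M₀ * r)) :
    FulG S' c sn G g := by
  intro K e C he hC
  -- the constants
  obtain ⟨e₁, he₁, e₁e, e₁1⟩ : ∃ e₁ : ℝ, 0 < e₁ ∧ e₁ ≤ e ∧ e₁ ≤ 1 :=
    ⟨min e 1, lt_min he one_pos, min_le_left _ _, min_le_right _ _⟩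
  obtain ⟨μ, hμ, μ1, μ2⟩ : ∃ μ : ℝ, 0 < μ ∧ μ ≤ S₁ - 1 ∧ μ ≤ Sd - 1 :=
    ⟨min (S₁ - 1) (Sd - 1), lt_min (by linarith) (by linarith), min_le_left _ _,
      min_le_right _ _⟩
  obtain ⟨T, hT0, hT⟩ : ∃ T : ℝ, 0 < T ∧ μ * T = C + 3 :=
    ⟨(C + 3) / μ, by positivity, by field_simp⟩
  obtain ⟨M, hM⟩ : ∃ M, M = C + T + 3 := ⟨_, rfl⟩
  have hM0 : 0 < M := by rw [hM]; linarith
  have hS₁ : 0 < S₁ := by linarith
  have hSd : 0 < Sd := by linarith
  have hg1 : g < 1 := by linarith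
  obtain ⟨k, hk⟩ : ∃ k : ℕ, (1 / 2 : ℝ) ^ k < min (e₁ / 4 / (M₀ * M + 1)) ((1 - g) / 2) :=
    exists_pow_lt_of_lt_one (lt_min (by positivity) (by linarith)) (by norm_num)
  have hk1 : (1 / 2 : ℝ) ^ k * (M₀ * M) ≤ e₁ / 4 := by
    have h3 := (hk.trans_le (min_le_left _ _)).le
    have h4 : 0 < M₀ * M + 1 := by positivity
    rw [le_div_iff₀ h4] at h3
    have h5 : (0 : ℝ) < (1 / 2) ^ k := by positivity
    linarith
  have hk2 : (1 / 8 : ℝ) ^ k ≤ (1 - g) / 2 :=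
    (pow_le_pow_left₀ (by norm_num) (by norm_num) k).trans (hk.trans_le (min_le_right _ _)).le
  obtain ⟨lam, hlam⟩ : ∃ lam : ℝ, lam = (1 / 8) ^ k := ⟨_, rfl⟩
  have hlam0 : 0 < lam := by rw [hlam]; positivity
  refine ⟨k, e₁ / 32, by positivity, fun γ y hy => ?_⟩
  -- the scales
  obtain ⟨rl, hrl, hlin⟩ := hlin (1 / 16 / M) (by positivity)
  obtain ⟨σ, hσ0, hσ, hσ1⟩ : ∃ σ : ℝ, 0 < σ ∧ S₁ * σ = 1 ∧ σ ≤ 1 :=
    ⟨1 / S₁, by positivity, by field_simp, by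
      rw [div_le_one hS₁]
      exact h1.le⟩
  obtain ⟨eD, heD, eD1, eD2⟩ : ∃ eD : ℝ, 0 < eD ∧ eD * M ≤ σ / 2 ∧ eD * M ≤ e₁ := by
    refine ⟨min (σ / 2) e₁ / M, by positivity, ?_, ?_⟩
    · rw [div_mul_cancel₀ _ hM0.ne']
      exact min_le_left _ _
    · rw [div_mul_cancel₀ _ hM0.ne']
      exact min_le_right _ _
  obtain ⟨rd, hrd, hden⟩ := hden eD heD
  obtain ⟨rx, hrx, hrex⟩ := hrex (e₁ / 16) (C + 2) (by positivity) (by linarith)
  obtain ⟨B, hB⟩ : ∃ B, B = S₁ * M + Sd * M + M + C + 4 := ⟨_, rfl⟩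
  have hB0 : 0 < B := by rw [hB]; positivity
  obtain ⟨d, hd0, d1, d2, d3, d4, d5⟩ : ∃ d : ℝ, 0 < d ∧ d ≤ g ∧ d ≤ u₀ - g ∧ d ≤ 1 - v₀ ∧
      d ≤ lam ∧ d ≤ (1 - g) / 2 := by
    refine ⟨min (min g (u₀ - g)) (min (1 - v₀) (min lam ((1 - g) / 2))),
      lt_min (lt_min hg0 (by linarith)) (lt_min (by linarith) (lt_min hlam0 (by linarith))),
      (min_le_left _ _).trans (min_le_left _ _), (min_le_left _ _).trans (min_le_right _ _),
      (min_le_right _ _).trans (min_le_left _ _),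
      (min_le_right _ _).trans ((min_le_right _ _).trans (min_le_left _ _)),
      (min_le_right _ _).trans ((min_le_right _ _).trans (min_le_right _ _))⟩
  refine ⟨min (min (ρ₁ / M) (rl / M)) (min (rd / M) (min rx (d / B))), by positivity,
    fun R hR hRρ b₀ hb1 hb2 => ?_⟩
  have k1 : M * R ≤ ρ₁ := by
    have := (hRρ.trans_le ((min_le_left _ _).trans (min_le_left _ _))).le
    rwa [le_div_iff₀ hM0, mul_comm] at this
  have k2 : M * R < rl := by
    have := (hRρ.trans_le ((min_le_left _ _).trans (min_le_right _ _)))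
    rwa [lt_div_iff₀ hM0, mul_comm] at this
  have k3 : M * R < rd := by
    have := (hRρ.trans_le ((min_le_right _ _).trans (min_le_left _ _)))
    rwa [lt_div_iff₀ hM0, mul_comm] at this
  have k4 : R < rx := hRρ.trans_le ((min_le_right _ _).trans ((min_le_right _ _).trans
    (min_le_left _ _)))
  have k5 : S₁ * (M * R) + Sd * (M * R) + M * R + C * R + 4 * R ≤ d := by
    have h3 := (hRρ.trans_le ((min_le_right _ _).trans ((min_le_right _ _).trans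
      (min_le_right _ _)))).le
    rw [le_div_iff₀ hB0, hB] at h3
    linarith
  have hMR : 0 < M * R := by positivity
  have eMR : M * R = C * R + T * R + 3 * R := by rw [hM]; ring
  have hCR : 0 < C * R := by positivity
  have hTR : 0 < T * R := by positivity
  have hSM : 0 < S₁ * (M * R) := by positivity
  have hSM' : 0 < Sd * (M * R) := by positivity
  have e1R : 0 < e₁ * R := by positivity
  have e1R' : e₁ * R ≤ R := by
    have := mul_le_mul_of_nonneg_right e₁1 hR.le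
    linarith
  have heR : e₁ * R ≤ e * R := mul_le_mul_of_nonneg_right e₁e hR.le
  have eDR : eD * (M * R) ≤ σ * R / 2 := by
    have := mul_le_mul_of_nonneg_right eD1 hR.le
    linarith
  have eDR' : eD * (M * R) ≤ e₁ * R := by
    have := mul_le_mul_of_nonneg_right eD2 hR.le
    linarith
  have hσR : 0 < σ * R := by positivity
  have hσR1 : σ * R ≤ R := by
    have := mul_le_mul_of_nonneg_right hσ1 hR.le
    linarith
  have hSσ : S₁ * (σ * R) = R := by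
    rw [← mul_assoc, hσ, one_mul]
  -- the windows
  obtain ⟨b, hbD, b1, b2⟩ := hden (M * R) hMR k3 (b₀ - e₁ * R) b₀
    (by linarith only [hb1, eMR, hTR, e1R', hR]) (by linarith only [eDR'])
    (by linarith only [hb2, eMR, hTR, hR])
  obtain ⟨o, hoD, o1, o2⟩ := hden (M * R) hMR k3 (b + T * R) (b + T * R + R)
    (by linarith only [b1, hb1, eMR, hTR, hR, e1R']) (by linarith only [eDR', e1R'])
    (by linarith only [b2, hb2, eMR, hR])
  have hbg1 : -(M * R) ≤ b - g := by linarith only [b1, hb1, e1R', eMR, hTR, hR]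
  have hbg2 : b - g ≤ M * R := by linarith only [b2, hb2, eMR, hTR, hR]
  have hog1 : -(M * R) ≤ o - g := by linarith only [o1, hbg1, hTR]
  have hog2 : o - g ≤ M * R := by linarith only [o2, b2, hb2, eMR, hR]
  have hbg : |b - g| ≤ M * R := abs_le.2 ⟨hbg1, hbg2⟩
  have hog : |o - g| ≤ M * R := abs_le.2 ⟨hog1, hog2⟩
  refine ⟨b, hDG hbD, by linarith only [b1, heR], b2.le, fun p P N₁ N₂ hP hP1 hP2 hN1 hN2 hp => ?_⟩
  obtain ⟨gb, eb1, eb2, lb0, u₁, rdd, hch⟩ := hW b hbD (hbg.trans k1)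
  obtain ⟨go, eo1, eo2, -, -⟩ := hW o hoD (hog.trans k1)
  have lin : ∀ w : ℝ, |w - g| ≤ M * R → |sn w 1 - u₀ - S₁ * (w - g)| ≤ R / 16 ∧
      |sn w 2 - v₀ - Sd * (w - g)| ≤ R / 16 := by
    intro w hw
    have h3 := hlin (M * R) hMR k2 w hw
    have h4 : 1 / 16 / M * (M * R) = R / 16 := by field_simp
    rwa [h4] at h3
  have sbd : ∀ (s w : ℝ), 0 < s → |w - g| ≤ M * R → |s * (w - g)| ≤ s * (M * R) := by
    intro s w hs hw
    rw [abs_mul, abs_of_pos hs]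
    exact mul_le_mul_of_nonneg_left hw hs.le
  obtain ⟨lb1, lb1'⟩ := abs_le.1 (lin b hbg).1
  obtain ⟨lb2, lb2'⟩ := abs_le.1 (lin b hbg).2
  obtain ⟨lo1, lo1'⟩ := abs_le.1 (lin o hog).1
  obtain ⟨lo2, lo2'⟩ := abs_le.1 (lin o hog).2
  obtain ⟨tb1, tb1'⟩ := abs_le.1 (sbd S₁ b hS₁ hbg)
  obtain ⟨tb2, tb2'⟩ := abs_le.1 (sbd Sd b hSd hbg)
  -- the numbers
  obtain ⟨ε, ε1, ε2⟩ := exists_rat_btwn (show e₁ * R / 512 < e₁ * R / 256 by linarith only [e1R])
  have hε0 : (0 : ℝ) < ε := by linarith only [ε1, e1R]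
  obtain ⟨δ, hδ⟩ : ∃ δ : ℝ, δ = e₁ / 32 * R := ⟨_, rfl⟩
  have hδ' : δ = e₁ * R / 32 := by rw [hδ]; ring
  obtain ⟨P₀, P1, P2⟩ := exists_rat_btwn
    (show P + δ + 7 * ε < P + δ + 8 * (ε : ℝ) by linarith only [hε0])
  obtain ⟨n₁, n11, n12⟩ := exists_rat_btwn
    (show max (N₁ + ε) (N₂ + δ + 4 * ε) < max (N₁ + ε) (N₂ + δ + 4 * ε) + (ε : ℝ) by
      linarith only [hε0])
  obtain ⟨n₂, n21, n22⟩ := exists_rat_btwn
    (show N₂ + 2 * ε < N₂ + 3 * (ε : ℝ) by linarith only [hε0])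
  obtain ⟨ηx, x1, x2⟩ := exists_rat_btwn (show e₁ / 16 * R < e₁ * R / 8 by linarith only [e1R])
  obtain ⟨kM, m1, m2⟩ := exists_rat_btwn (show 0 < e₁ * R / 16 by linarith only [e1R])
  have hm1 : N₁ + ε ≤ n₁ := (le_max_left _ _).trans n11.le
  have hm2 : N₂ + δ + 4 * ε ≤ n₁ := (le_max_right _ _).trans n11.le
  have hm3 : (n₁ : ℝ) ≤ C * R + R / 2 := by
    have : max (N₁ + (ε : ℝ)) (N₂ + δ + 4 * ε) ≤ C * R + R / 4 :=
      max_le (by linarith only [hN1, ε2, e1R', hR]) (by linarith only [hN2, hδ', ε2, e1R', hR])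
    linarith only [this, n12, ε2, e1R', hR]
  have hm4 : (n₂ : ℝ) ≤ C * R + R / 2 := by linarith only [n22, hN2, ε2, e1R', hR]
  have hm5 : (P₀ : ℝ) ≤ C * R + R / 2 := by linarith only [P2, hP1, hN1, hδ', ε2, e1R', hR]
  have hP00 : (0 : ℝ) ≤ P₀ := by linarith only [P1, hP, hδ', e1R, hε0]
  obtain ⟨hx, hx0, hrx'⟩ := hrex R hR k4 P₀ ηx hP00 x1.le
    (by linarith only [hm5, x2, e1R', hR])
  -- the slopes
  obtain ⟨mn, hmn⟩ : ∃ mn : ℝ, mn = min ((Sd - S₁) * (b - g)) ((Sd - S₁) * (o - g)) := ⟨_, rfl⟩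
  obtain ⟨κ, hκ⟩ : ∃ κ : ℝ, κ = v₀ - u₀ + mn - 3 / 2 * R := ⟨_, rfl⟩
  have hmw : ∀ w : ℝ, b ≤ w → w ≤ o → mn ≤ Sd * (w - g) - S₁ * (w - g) := by
    intro w hw1 hw2
    have h3 : Sd * (w - g) - S₁ * (w - g) = (Sd - S₁) * (w - g) := by ring
    rw [h3, hmn]
    rcases le_total S₁ Sd with h4 | h4
    · exact (min_le_left _ _).trans (mul_le_mul_of_nonneg_left (by linarith only [hw1])
        (by linarith only [h4]))
    · exact (min_le_right _ _).trans (mul_le_mul_of_nonpos_left (by linarith only [hw2])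
        (by linarith only [h4]))
  have hbo : b ≤ o := by linarith only [o1, hTR]
  have qb := hmw b le_rfl hbo
  have qo := hmw o hbo le_rfl
  have hμo : μ * (T * R) ≤ μ * (o - b) := mul_le_mul_of_nonneg_left (by linarith only [o1]) hμ.le
  have hob1 : (C + 3) * R ≤ (S₁ - 1) * (o - b) := by
    rw [← hT, mul_assoc]
    exact hμo.trans (mul_le_mul_of_nonneg_right μ1 (by linarith only [hbo]))
  have hob2 : (C + 3) * R ≤ (Sd - 1) * (o - b) := by
    rw [← hT, mul_assoc]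
    exact hμo.trans (mul_le_mul_of_nonneg_right μ2 (by linarith only [hbo]))
  have hDI : (C + 3) * R + Sd * (b - g) ≤ S₁ * (o - g) + mn - (o - b) := by
    have h3 : mn = (Sd - S₁) * (b - g) ∨ mn = (Sd - S₁) * (o - g) := by
      rw [hmn]
      exact min_choice _ _
    rcases h3 with h3 | h3
    · rw [h3]
      linarith only [hob1]
    · rw [h3]
      linarith only [hob2]
  have hUI : (C + 3) * R + S₁ * (b - g) ≤ S₁ * (o - g) - (o - b) := by linarith only [hob1]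
  -- the chain of windows
  have hms : Msh D (σ * R) b o := by
    obtain ⟨N, hN⟩ := exists_nat_ge ((o - b) / (σ * R / 2))
    rw [div_le_iff₀ (by positivity)] at hN
    exact msh_ex (a₀ := g - M * R) (a₁ := g + M * R) hσR (fun x y a1 a2 a3 =>
      hden (M * R) hMR k3 x y a1 (by linarith only [a2, eDR]) a3) N b hbD o hoD
      (by linarith only [hbg1]) hbo (by linarith only [hog2]) hN
  have hsl := hslo (σ * R) b o κ (hbg.trans k1) (hog.trans k1) hms (by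
    intro w hw w' hw' a1 a2 a3 a4
    obtain ⟨-, l2⟩ := lin w (abs_le.2 ⟨by linarith only [a1, hbg1],
      by linarith only [a2, a3, hog2]⟩)
    obtain ⟨l1, -⟩ := lin w' (abs_le.2 ⟨by linarith only [a1, a2, hbg1],
      by linarith only [a3, hog2]⟩)
    have h3 := (abs_le.1 l2).1
    have h4 := (abs_le.1 l1).2
    have h5 := hmw w a1 (a2.trans a3)
    have h6 : S₁ * (w' - g) ≤ S₁ * (w - g) + R := by
      have h7 : S₁ * (w' - g) ≤ S₁ * (w - g + σ * R) :=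
        mul_le_mul_of_nonneg_left (by linarith only [a4]) hS₁.le
      rw [mul_add, hSσ] at h7
      exact h7
    rw [hκ]
    linarith only [h3, h4, h5, h6, hR])
  have hCR3 : (C + 3) * R = C * R + 3 * R := by ring
  have hCR1 : (C + 1) * R = C * R + R := by ring
  rw [hCR3] at hDI hUI
  -- the inequalities
  have i1 : b < sn b 1 - ε := by
    linarith only [lb1, tb1, hbg2, k5, d2, ε2, e1R', hSM', hCR, hR]
  have i2 : b < sn b 2 - 2 * ε := by
    linarith only [lb2, tb2, hbg2, k5, d2, uv, ε2, e1R', hSM, hCR, hR]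
  have i3 : sn b 1 + n₁ ≤ 1 := by
    linarith only [lb1', tb1', hm3, k5, d3, uv, hSM', hMR, hR]
  have i4 : sn b 2 + n₂ ≤ 1 := by
    linarith only [lb2', tb2', hm4, k5, d3, hSM, hMR, hR]
  have i5 : sn b 1 + P₀ ≤ 1 := by
    linarith only [lb1', tb1', hm5, k5, d3, uv, hSM', hMR, hR]
  have i6 : sn b 2 + P₀ ≤ 1 := by
    linarith only [lb2', tb2', hm5, k5, d3, hSM, hMR, hR]
  have i7 : o + R ≤ 1 := by linarith only [hog2, k5, d5, hSM, hSM', hCR, hR, hg1]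
  have i8 : b + (C * R + R) < 1 := by linarith only [hbg2, k5, d5, hSM, hSM', hR, hg1]
  have i9 : 0 ≤ b := by linarith only [hbg1, k5, d1, hSM, hSM', hCR, hR]
  have hN : HNm S₂ L (c 0) (c 1) (c 2) b o κ P₀ n₁ n₂ ((C + 1) * R) ε :=
    { gb := gb
      go := go
      bo := hbo
      o1 := by linarith only [i7, hR]
      slo := by
        rw [← eb1, ← eo1]
        exact hsl
      ε0 := hε0
      bU := by
        rw [← eb1]
        exact i1
      bD := by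
        rw [← eb2]
        exact i2
      UI := by
        rw [← eb1, ← eo1, hCR1]
        linarith only [lb1', lo1, hUI, hR]
      DI := by
        rw [← eb2, ← eo1, hCR1, hκ]
        linarith only [lb2', lo1, hDI, hR]
      kb := by
        rw [← eb1, ← eb2, hκ]
        linarith only [lb1', lb2, qb, hR]
      ko := by
        rw [← eo1, ← eo2, hκ]
        linarith only [lo1', lo2, qo, hR]
      P0 := hP00
      PI := by
        rw [hCR1]
        linarith only [hm5, hR]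
      n10 := by linarith only [hm1, hP, hP1, hε0]
      n1I := by
        rw [hCR1]
        linarith only [hm3, hR]
      n20 := by linarith only [n21, hP, hP2, hε0]
      n2I := by
        rw [hCR1]
        linarith only [hm4, hR]
      bI := by
        rw [hCR1]
        exact i8
      U1 := by
        rw [← eb1]
        exact i3
      D1 := by
        rw [← eb2]
        exact i4 }
  have hI := hitm b hbD o hoD P₀ n₁ n₂ ε kM ηx κ ((C + 1) * R) (g - (C + 2) * R) (g + (C + 2) * R)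
    hx hN (by exact_mod_cast m1) lb0 hrx' hx0 (by linarith only [b1, hb1, e1R', hR])
    (by linarith only [b2, hb2, hR])
  rw [← eb1, ← eb2] at hI
  -- the velocity of the base
  obtain ⟨xa, xa1, xa2⟩ := exists_rat_btwn (show b - R < b by linarith only [hR])
  obtain ⟨xb, xb1, xb2⟩ := exists_rat_btwn (show o < o + R by linarith only [hR])
  have xab : (xa : ℝ) ≤ xb := by linarith only [xa2, xb1, hbo]
  have ya : g - M * R ≤ xa := by linarith only [xa1, b1, hb1, e1R', eMR, hTR, hR]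
  have yb : (xb : ℝ) ≤ g + M * R := by linarith only [xb2, o2, b2, hb2, eMR, hR]
  obtain ⟨⟨ηa, ra⟩, na⟩ := hrn xa (abs_le.2 ⟨by linarith only [ya, k1],
    by linarith only [xab, yb, k1]⟩)
  obtain ⟨⟨ηb, rb⟩, nb⟩ := hrn xb (abs_le.2 ⟨by linarith only [ya, xab, k1],
    by linarith only [yb, k1]⟩)
  have hrt := hrate (M * R) hMR k1 k xa xb ya (by exact_mod_cast xab) yb
  have hrt' : θ k xa - θ k xb ≤ e₁ * R / 4 := by
    have h3 : (1 / 2 : ℝ) ^ k * (M₀ * (M * R)) = (1 / 2 : ℝ) ^ k * (M₀ * M) * R := by ring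
    rw [h3] at hrt
    have h4 := mul_le_mul_of_nonneg_right hk1 hR.le
    linarith only [hrt, h4]
  rw [← hlam] at hy hk2
  have na' := na k
  have nb' := nb k
  rw [← hlam] at na' nb'
  have hl20 : 0 < Real.log 2 := Real.log_pos one_lt_two
  have hl21 : Real.log 2 ≤ 1 := by
    have := Real.log_two_lt_d9
    linarith only [this]
  refine fulP_of hpos htm (δ := δ) hI hch hy xa2.le hbo xb1.le (by linarith only [xb2, i7]) ra rb
    na' nb' hε0 (by linarith only [ε2, hδ', e1R]) (fun l l1 l2 => ?_) hP P1.le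
    (hP.trans hP1) (hP.trans hP2) hm1 hm2 n21.le
    (by linarith only [hm3, hδ', ε2, e1R', k5, d4, hSM, hSM', hMR, hR])
    (by linarith only [hm5, k5, d4, hSM, hSM', hMR, hR])
    (by linarith only [hk2, hbg2, k5, d5, hSM, hSM', hCR, hR]) i3 i4 i5 i6 i9 i1.le i2.le ?_
  · rw [hδ]
    exact hp l l1 l2
  · have h3 : 0 ≤ 2 * (P₀ - P) + (ηx : ℝ) := by linarith only [P1, hδ', e1R, hε0, x1]
    have h4 : (2 * (P₀ - P) + (ηx : ℝ)) * Real.log 2 ≤ 2 * (P₀ - P) + ηx := by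
      have := mul_le_mul_of_nonneg_left hl21 h3
      linarith only [this]
    linarith only [h4, P2, hδ', ε2, x2, hrt', m2, heR, e1R]

end Pool.FUL95
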