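import Pool.Agent.H17.COR.Nat1
import Pool.Agent.H17.COR.Dpt

/-!
# The own heights are full behind the record of a tube: one law

`xs_le`: the entropy of the exact points given the record of a tube is at most the entropy of the
digits of the own heights, given the record and the exact first coordinate, and the remaining digits.
-/

set_option autoImplicit false

namespace Pool.FUL95

open Finset Real
open Pool.Agent.H49.Ent Pool.Agent.H32.Dense Pool.STK Pool.CH30 Pool.KM7 Pool.OWN68 Pool.OWN17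

section

variable {Ω 𝒮 S : Type} [Fintype Ω] {p : Ω → ℝ}

theorem log_dig (n : ℕ) {K : ℕ} (hK : (K : ℝ) ≤ 1 + 2 * 2 ^ n) :
    Real.log (2 * ((K : ℝ) + 1) + 1) ≤ n * Real.log 2 + Real.log 9 := by
  have h1 : (1 : ℝ) ≤ 2 ^ n := one_le_pow₀ (by norm_num)
  have h2 : 2 * ((K : ℝ) + 1) + 1 ≤ 9 * 2 ^ n := by linarith
  have h3 : (0 : ℝ) ≤ K := Nat.cast_nonneg K
  calc Real.log (2 * ((K : ℝ) + 1) + 1) ≤ Real.log (9 * 2 ^ n) :=
        Real.log_le_log (by linarith) h2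
    _ = n * Real.log 2 + Real.log 9 := by
        rw [Real.log_mul (by norm_num) (by positivity), Real.log_pow]
        ring

/-- The digits of a height. -/
theorem dig_near {J N : ℕ} (hN : N ≤ J) {x c : ℝ} (X : ℤ) (h1 : |(X : ℝ) / 2 ^ J - x| ≤ 1 / 2 ^ J)
    {B : ℝ} (h2 : |x - c| ≤ B / 2 ^ J + 1 / 2 ^ N) : |(X : ℝ) - 2 ^ J * c| ≤ 1 + B + 2 ^ (J - N) := by
  have e1 : (X : ℝ) - 2 ^ J * c = 2 ^ J * ((X : ℝ) / 2 ^ J - x) + 2 ^ J * (x - c) := by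
    field_simp
    ring
  have p0 : (0 : ℝ) < 2 ^ J := by positivity
  have e2 : (2 : ℝ) ^ J * (B / 2 ^ J + 1 / 2 ^ N) = B + 2 ^ (J - N) := by
    have : (2 : ℝ) ^ J = 2 ^ (J - N) * 2 ^ N := by
      rw [← pow_add]
      congr 1
      omega
    rw [mul_add, mul_div_cancel₀ _ p0.ne', this]
    field_simp
  have a1 : |2 ^ J * ((X : ℝ) / 2 ^ J - x)| ≤ 1 := by
    rw [abs_mul, abs_of_pos p0]
    calc 2 ^ J * |(X : ℝ) / 2 ^ J - x| ≤ 2 ^ J * (1 / 2 ^ J) :=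
          mul_le_mul_of_nonneg_left h1 p0.le
      _ = 1 := by field_simp
  have a2 : |2 ^ J * (x - c)| ≤ B + 2 ^ (J - N) := by
    rw [abs_mul, abs_of_pos p0, ← e2]
    exact mul_le_mul_of_nonneg_left h2 p0.le
  rw [e1]
  have := abs_add_le (2 ^ J * ((X : ℝ) / 2 ^ J - x)) (2 ^ J * (x - c))
  linarith

variable {J w NU NV i : ℕ} {l : Ω → Ln} {h : Ω → Cht} {T : Ω → ℕ} {Y : Ω → ℤ} {cs : Ω → 𝒮}

/-- The first coordinate behind the record. -/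
theorem y_le (hp : IsLaw p) (hwJ : w + i ≤ J)
    (yc : ∀ ω, 0 < p ω → |(Y ω : ℝ) / 2 ^ J - ((l ω).y + tT J w (T ω) * (l ω).e)| ≤ 1 / 2 ^ J)
    {Z : Ω → S} (hZ : Det p Z (fun ω => (Rd J w NU NV i l h T cs ω, T ω))) :
    CH p Y Z ≤ ((J - (w + i) : ℕ) : ℝ) * Real.log 2 + Real.log 9 := by
  refine (cnt_det hp (c := fun ω => 2 ^ J * ((⌊2 ^ (w + i) * (l ω).y⌋ : ℤ) / 2 ^ (w + i) +
    tT J w (T ω) * ((⌊2 ^ i * (l ω).e⌋ : ℤ) / 2 ^ i))) ?_ (1 + 2 * 2 ^ (J - (w + i)))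
    fun ω hω => ?_).trans (log_dig _ (by push_cast; linarith))
  · intro ω ω' h1 h2 hh
    have := hZ ω ω' h1 h2 hh
    simp only [Rd, Prod.mk.injEq] at this
    obtain ⟨⟨-, -, ⟨a1, a2⟩, -⟩, a3⟩ := this
    simp only [a1, a2, a3]
  · have hw : w ≤ J := by omega
    have ht0 := tT_nonneg (J := J) (w := w) (T ω)
    have ht1 := tT_lt (J := J) (w := w) hw (T ω)
    have f1 := fl_div (n := w + i) (l ω).y
    have f2 := fl_div (n := i) (l ω).e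
    have e1 : (l ω).y + tT J w (T ω) * (l ω).e -
        ((⌊2 ^ (w + i) * (l ω).y⌋ : ℤ) / 2 ^ (w + i) +
        tT J w (T ω) * ((⌊2 ^ i * (l ω).e⌋ : ℤ) / 2 ^ i)) =
        ((l ω).y - (⌊2 ^ (w + i) * (l ω).y⌋ : ℤ) / 2 ^ (w + i)) +
        tT J w (T ω) * ((l ω).e - (⌊2 ^ i * (l ω).e⌋ : ℤ) / 2 ^ i) := by ring
    have b1 : tT J w (T ω) ≤ 1 / 2 ^ w := by
      rw [le_div_iff₀ (by positivity)]
      exact ht1
    have b2 : |tT J w (T ω) * ((l ω).e - (⌊2 ^ i * (l ω).e⌋ : ℤ) / 2 ^ i)| ≤ 1 / 2 ^ (w + i) := by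
      rw [abs_mul, abs_of_nonneg ht0]
      calc tT J w (T ω) * |(l ω).e - (⌊2 ^ i * (l ω).e⌋ : ℤ) / 2 ^ i| ≤
            1 / 2 ^ w * (1 / 2 ^ i) := mul_le_mul b1 f2 (abs_nonneg _) (by positivity)
        _ = 1 / 2 ^ (w + i) := by rw [pow_add]; field_simp
    have key := dig_near (N := w + i) hwJ (x := (l ω).y + tT J w (T ω) * (l ω).e)
      (c := (⌊2 ^ (w + i) * (l ω).y⌋ : ℤ) / 2 ^ (w + i) +
        tT J w (T ω) * ((⌊2 ^ i * (l ω).e⌋ : ℤ) / 2 ^ i)) (Y ω) (yc ω hω)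
      (B := 2 ^ (J - (w + i))) (by
        rw [e1]
        have e2 : (2 : ℝ) ^ (J - (w + i)) / 2 ^ J = 1 / 2 ^ (w + i) := by
          have : (2 : ℝ) ^ J = 2 ^ (J - (w + i)) * 2 ^ (w + i) := by
            rw [← pow_add]
            congr 1
            omega
          rw [this]
          field_simp
        rw [e2]
        refine (abs_add_le _ _).trans ?_
        linarith)
    push_cast
    linarith

/-- The second coordinate behind its own height. -/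
theorem u_le (hp : IsLaw p) (hwJ : w ≤ J) {n E : ℕ} (hn : n ≤ J) (hE : E ≤ J - n)
    (yc : ∀ ω, 0 < p ω → |(Y ω : ℝ) / 2 ^ J - ((l ω).y + tT J w (T ω) * (l ω).e)| ≤ 1 / 2 ^ J)
    {U : Ω → ℤ} (uc : ∀ ω, 0 < p ω → |(U ω : ℝ) / 2 ^ J -
      ((l ω).u + tT J w (T ω) * (l ω).du)| ≤ 1 / 2 ^ J) (ha : ∀ ω, 0 < p ω → |(h ω).a2| ≤ 2 ^ E)
    {Z : Ω → S} (hZ : Det p Z (fun ω => (hgU J w n l h T ω, (h ω, (T ω, Y ω))))) :
    CH p U Z ≤ ((J - n : ℕ) : ℝ) * Real.log 2 + Real.log 9 := by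
  refine (cnt_det hp (c := fun ω => 2 ^ J * ((hgU J w n l h T ω : ℤ) / 2 ^ n +
    (h ω).a0 + (h ω).a1 * tT J w (T ω) + (h ω).a2 * ((Y ω : ℝ) / 2 ^ J))) ?_
    (1 + 2 * 2 ^ (J - n)) fun ω hω => ?_).trans (log_dig _ (by push_cast; linarith))
  · intro ω ω' h1 h2 hh
    have := hZ ω ω' h1 h2 hh
    simp only [Prod.mk.injEq] at this
    obtain ⟨a1, a2, a3, a4⟩ := this
    simp only [a1, a2, a3, a4]
  · have f1 := fl_div (n := n) ((l ω).hu (h ω) (tT J w (T ω)))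
    have f2 : (2 : ℝ) ^ E ≤ 2 ^ (J - n) := pow_le_pow_right₀ (by norm_num) hE
    have e1 : (l ω).u + tT J w (T ω) * (l ω).du - ((hgU J w n l h T ω : ℤ) / 2 ^ n +
        (h ω).a0 + (h ω).a1 * tT J w (T ω) + (h ω).a2 * ((Y ω : ℝ) / 2 ^ J)) =
        ((l ω).hu (h ω) (tT J w (T ω)) - (hgU J w n l h T ω : ℤ) / 2 ^ n) -
        (h ω).a2 * ((Y ω : ℝ) / 2 ^ J - ((l ω).y + tT J w (T ω) * (l ω).e)) := by
      unfold Ln.hu
      ring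
    have b1 : |(h ω).a2 * ((Y ω : ℝ) / 2 ^ J - ((l ω).y + tT J w (T ω) * (l ω).e))| ≤
        2 ^ E / 2 ^ J := by
      rw [abs_mul]
      calc |(h ω).a2| * |(Y ω : ℝ) / 2 ^ J - ((l ω).y + tT J w (T ω) * (l ω).e)| ≤
            2 ^ E * (1 / 2 ^ J) := mul_le_mul (ha ω hω) (yc ω hω) (abs_nonneg _) (by positivity)
        _ = 2 ^ E / 2 ^ J := by ring
    have key := dig_near (N := n) hn (x := (l ω).u + tT J w (T ω) * (l ω).du)
      (c := (hgU J w n l h T ω : ℤ) / 2 ^ n + (h ω).a0 + (h ω).a1 * tT J w (T ω) +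
        (h ω).a2 * ((Y ω : ℝ) / 2 ^ J)) (U ω) (uc ω hω) (B := 2 ^ E) (by
        rw [e1]
        refine (abs_sub _ _).trans ?_
        unfold hgU
        linarith)
    push_cast
    linarith

/-- The third coordinate behind its own height. -/
theorem v_le (hp : IsLaw p) (hwJ : w ≤ J) {n E : ℕ} (hn : n ≤ J) (hE : E + 1 ≤ J - n)
    (yc : ∀ ω, 0 < p ω → |(Y ω : ℝ) / 2 ^ J - ((l ω).y + tT J w (T ω) * (l ω).e)| ≤ 1 / 2 ^ J)
    {U V : Ω → ℤ} (uc : ∀ ω, 0 < p ω → |(U ω : ℝ) / 2 ^ J -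
      ((l ω).u + tT J w (T ω) * (l ω).du)| ≤ 1 / 2 ^ J)
    (vc : ∀ ω, 0 < p ω → |(V ω : ℝ) / 2 ^ J -
      ((l ω).v + tT J w (T ω) * (l ω).dv)| ≤ 1 / 2 ^ J)
    (hb : ∀ ω, 0 < p ω → |(h ω).b2| ≤ 2 ^ E) (hb3 : ∀ ω, 0 < p ω → |(h ω).b3| ≤ 2 ^ E)
    {Z : Ω → S} (hZ : Det p Z (fun ω => (hgV J w n l h T ω, (h ω, (T ω, (Y ω, U ω)))))) :
    CH p V Z ≤ ((J - n : ℕ) : ℝ) * Real.log 2 + Real.log 9 := by
  refine (cnt_det hp (c := fun ω => 2 ^ J * ((hgV J w n l h T ω : ℤ) / 2 ^ n +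
    (h ω).b0 + (h ω).b1 * tT J w (T ω) + (h ω).b2 * ((Y ω : ℝ) / 2 ^ J) +
    (h ω).b3 * ((U ω : ℝ) / 2 ^ J))) ?_
    (1 + 2 * 2 ^ (J - n)) fun ω hω => ?_).trans (log_dig _ (by push_cast; linarith))
  · intro ω ω' h1 h2 hh
    have := hZ ω ω' h1 h2 hh
    simp only [Prod.mk.injEq] at this
    obtain ⟨a1, a2, a3, a4, a5⟩ := this
    simp only [a1, a2, a3, a4, a5]
  · have f1 := fl_div (n := n) ((l ω).hv (h ω) (tT J w (T ω)))
    have f2 : (2 : ℝ) ^ (E + 1) ≤ 2 ^ (J - n) := pow_le_pow_right₀ (by norm_num) hE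
    have f3 : (2 : ℝ) ^ (E + 1) = 2 ^ E + 2 ^ E := by rw [pow_succ]; ring
    have e1 : (l ω).v + tT J w (T ω) * (l ω).dv - ((hgV J w n l h T ω : ℤ) / 2 ^ n +
        (h ω).b0 + (h ω).b1 * tT J w (T ω) + (h ω).b2 * ((Y ω : ℝ) / 2 ^ J) +
        (h ω).b3 * ((U ω : ℝ) / 2 ^ J)) =
        ((l ω).hv (h ω) (tT J w (T ω)) - (hgV J w n l h T ω : ℤ) / 2 ^ n) -
        ((h ω).b2 * ((Y ω : ℝ) / 2 ^ J - ((l ω).y + tT J w (T ω) * (l ω).e)) +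
        (h ω).b3 * ((U ω : ℝ) / 2 ^ J - ((l ω).u + tT J w (T ω) * (l ω).du))) := by
      unfold Ln.hv
      ring
    have b1 : |(h ω).b2 * ((Y ω : ℝ) / 2 ^ J - ((l ω).y + tT J w (T ω) * (l ω).e))| ≤
        2 ^ E / 2 ^ J := by
      rw [abs_mul]
      calc |(h ω).b2| * |(Y ω : ℝ) / 2 ^ J - ((l ω).y + tT J w (T ω) * (l ω).e)| ≤
            2 ^ E * (1 / 2 ^ J) := mul_le_mul (hb ω hω) (yc ω hω) (abs_nonneg _) (by positivity)
        _ = 2 ^ E / 2 ^ J := by ring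
    have b2 : |(h ω).b3 * ((U ω : ℝ) / 2 ^ J - ((l ω).u + tT J w (T ω) * (l ω).du))| ≤
        2 ^ E / 2 ^ J := by
      rw [abs_mul]
      calc |(h ω).b3| * |(U ω : ℝ) / 2 ^ J - ((l ω).u + tT J w (T ω) * (l ω).du)| ≤
            2 ^ E * (1 / 2 ^ J) := mul_le_mul (hb3 ω hω) (uc ω hω) (abs_nonneg _) (by positivity)
        _ = 2 ^ E / 2 ^ J := by ring
    have key := dig_near (N := n) hn (x := (l ω).v + tT J w (T ω) * (l ω).dv)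
      (c := (hgV J w n l h T ω : ℤ) / 2 ^ n + (h ω).b0 + (h ω).b1 * tT J w (T ω) +
        (h ω).b2 * ((Y ω : ℝ) / 2 ^ J) + (h ω).b3 * ((U ω : ℝ) / 2 ^ J)) (V ω) (vc ω hω)
      (B := 2 ^ (E + 1)) (by
        rw [e1, f3]
        refine (abs_sub _ _).trans ?_
        have b3 := abs_add_le ((h ω).b2 * ((Y ω : ℝ) / 2 ^ J - ((l ω).y +
          tT J w (T ω) * (l ω).e))) ((h ω).b3 * ((U ω : ℝ) / 2 ^ J - ((l ω).u +
          tT J w (T ω) * (l ω).du)))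
        unfold hgV
        have b4 : ((2 : ℝ) ^ E + 2 ^ E) / 2 ^ J = 2 ^ E / 2 ^ J + 2 ^ E / 2 ^ J := add_div _ _ _
        rw [b4]
        linarith)
    push_cast
    linarith

/-- **The exact points behind the record of a tube.** -/
theorem xs_le (hp : IsLaw p) (hwJ : w + i ≤ J) {nu nv E : ℕ} (hnu : nu ≤ J) (hnv : nv ≤ J)
    (hEu : E ≤ J - nu) (hEv : E + 1 ≤ J - nv) (dh : Det p cs h)
    (yc : ∀ ω, 0 < p ω → |(Y ω : ℝ) / 2 ^ J - ((l ω).y + tT J w (T ω) * (l ω).e)| ≤ 1 / 2 ^ J)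
    {U V : Ω → ℤ} (uc : ∀ ω, 0 < p ω → |(U ω : ℝ) / 2 ^ J -
      ((l ω).u + tT J w (T ω) * (l ω).du)| ≤ 1 / 2 ^ J)
    (vc : ∀ ω, 0 < p ω → |(V ω : ℝ) / 2 ^ J -
      ((l ω).v + tT J w (T ω) * (l ω).dv)| ≤ 1 / 2 ^ J)
    (ha : ∀ ω, 0 < p ω → |(h ω).a2| ≤ 2 ^ E) (hb : ∀ ω, 0 < p ω → |(h ω).b2| ≤ 2 ^ E)
    (hb3 : ∀ ω, 0 < p ω → |(h ω).b3| ≤ 2 ^ E)
    {Z : Ω → S} (hZ : Det p Z (fun ω => (Rd J w NU NV i l h T cs ω, T ω))) :
    CH p (fun ω => (Y ω, (U ω, V ω))) Z ≤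
      CH p (fun ω => (hgU J w nu l h T ω, hgV J w nv l h T ω)) (fun ω => (Y ω, Z ω)) +
      (((J - (w + i) : ℕ) : ℝ) + ((J - nu : ℕ) : ℝ) + ((J - nv : ℕ) : ℝ)) * Real.log 2 +
      3 * Real.log 9 := by
  have h0 := hp.nonneg
  have hw : w ≤ J := by omega
  have dZ : ∀ ω ω', 0 < p ω → 0 < p ω' → Z ω = Z ω' → h ω = h ω' ∧ T ω = T ω' := by
    intro ω ω' h1 h2 hh
    have := hZ ω ω' h1 h2 hh
    simp only [Rd, Prod.mk.injEq] at this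
    exact ⟨dh ω ω' h1 h2 this.1.1, this.2⟩
  have k1 := y_le hp hwJ yc hZ (h := h) (NU := NU) (NV := NV) (cs := cs)
  have k2 := u_le hp hw (l := l) (h := h) (T := T) (Y := Y) hnu hEu yc uc ha
    (Z := fun ω => ((hgU J w nu l h T ω, hgV J w nv l h T ω), (Y ω, Z ω))) (by
      intro ω ω' h1 h2 hh
      simp only [Prod.mk.injEq] at hh ⊢
      obtain ⟨⟨a1, a2⟩, a3, a4⟩ := hh
      obtain ⟨a5, a6⟩ := dZ ω ω' h1 h2 a4
      exact ⟨a1, a5, a6, a3⟩)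
  have k3 := v_le hp hw (l := l) (h := h) (T := T) (Y := Y) hnv hEv yc uc vc hb hb3
    (Z := fun ω => (U ω, ((hgU J w nu l h T ω, hgV J w nv l h T ω), (Y ω, Z ω)))) (by
      intro ω ω' h1 h2 hh
      simp only [Prod.mk.injEq] at hh ⊢
      obtain ⟨a0, ⟨a1, a2⟩, a3, a4⟩ := hh
      obtain ⟨a5, a6⟩ := dZ ω ω' h1 h2 a4
      exact ⟨a2, a5, a6, a3, a0⟩)
  have c1 := CH_chain2 h0 Y (fun ω => (U ω, V ω)) Z
  have c2 := CH_le_add h0 (fun ω => (U ω, V ω))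
    (fun ω => (hgU J w nu l h T ω, hgV J w nv l h T ω)) (fun ω => (Y ω, Z ω))
  have c3 := CH_chain2 h0 U V
    (fun ω => ((hgU J w nu l h T ω, hgV J w nv l h T ω), (Y ω, Z ω)))
  rw [c1]
  linarith

end

end Pool.FUL95
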