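import Pool.Agent.H95.VF.Fla

/-!
# The record of a tube and the own heights are few bits given a deep window: one law
-/

set_option autoImplicit false

namespace Pool.FUL95

open Finset Real
open Pool.Agent.H49.Ent Pool.Agent.H32.Dense Pool.STK Pool.CH30 Pool.KM7 Pool.OWN68 Pool.OWN17

section

variable {Ω 𝒮 S : Type} [Fintype Ω] {p : Ω → ℝ} {c J w NU NV I i : ℕ} {l : Ω → Ln} {h : Ω → Cht}
  {f : Ω → Pool.OWN17.Frm} {T : Ω → ℕ} {Y : Ω → ℤ} {Au Av : Ω → ℝ} {cs : Ω → 𝒮}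

/-- The number of bits. -/
noncomputable def cfw (c : ℕ) : ℝ :=
  6 * Real.log (2 * ((3 * c : ℕ) + 1) + 1) + 2 * Real.log (2 * ((6 * c : ℕ) + 1) + 1) +
    3 * Real.log 11

theorem cfw_nonneg (c : ℕ) : 0 ≤ cfw c := by
  have h1 : (0 : ℝ) ≤ ((3 * c : ℕ) : ℝ) := Nat.cast_nonneg _
  have h2 : (0 : ℝ) ≤ ((6 * c : ℕ) : ℝ) := Nat.cast_nonneg _
  have h3 : 0 ≤ Real.log (2 * ((3 * c : ℕ) + 1) + 1) := Real.log_nonneg (by linarith)
  have h4 : 0 ≤ Real.log (2 * ((6 * c : ℕ) + 1) + 1) := Real.log_nonneg (by linarith)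
  have h5 : 0 ≤ Real.log 11 := Real.log_nonneg (by norm_num)
  unfold cfw
  linarith

/-- **The record of the tube and the own heights are few bits** given the labels of a deep window,
the time, the exact first coordinate and the first digits of its velocity. -/
theorem rd_few (hp : IsLaw p) (H : Dpl p c J w NU NV I l h f T Y Au Av) (hi : i ≤ I) {n₁ n₂ : ℕ}
    (h1 : n₁ ≤ I) (h2 : n₂ ≤ I) (hwi : w + i ≤ J) (dh : Det p cs h) {Z : Ω → S}
    (hZ : Det p Z (fun ω => (Au ω, (Av ω, (cs ω, (f ω, (T ω, (Y ω, eD i l ω)))))))) :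
    CH p (fun ω => (Rd J w NU NV i l h T cs ω,
      (hgU J w (NU + n₁) l h T ω, hgV J w (NV + n₂) l h T ω))) Z ≤ cfw c := by
  have h0 := hp.nonneg
  have dZ : ∀ ω ω', 0 < p ω → 0 < p ω' → Z ω = Z ω' → Au ω = Au ω' ∧ Av ω = Av ω' ∧
      cs ω = cs ω' ∧ h ω = h ω' ∧ f ω = f ω' ∧ T ω = T ω' ∧ Y ω = Y ω' ∧
      eD i l ω = eD i l ω' := by
    intro ω ω' a1 a2 hh
    have := hZ ω ω' a1 a2 hh
    simp only [Prod.mk.injEq] at this
    obtain ⟨b1, b2, b3, b4, b5, b6, b7⟩ := this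
    exact ⟨b1, b2, b3, dh ω ω' a1 a2 b3, b4, b5, b6, b7⟩
  have dX : Det p Z (fun ω => (Au ω, (Av ω, (h ω, (f ω, (T ω, Y ω)))))) := by
    intro ω ω' a1 a2 hh
    obtain ⟨b1, b2, b3, b4, b5, b6, b7, b8⟩ := dZ ω ω' a1 a2 hh
    simp only [Prod.mk.injEq]
    exact ⟨b1, b2, b4, b5, b6, b7⟩
  have kx := H.x_few hp hi dX
  have k1 := H.x_few hp h1 dX
  have k2 := H.x_few hp h2 dX
  have kd := H.d_few hp hi (Z := Z) (by
    intro ω ω' a1 a2 hh
    obtain ⟨b1, b2, b3, b4, b5, b6, b7, b8⟩ := dZ ω ω' a1 a2 hh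
    simp only [Prod.mk.injEq]
    exact ⟨b4, b5, b8⟩)
  obtain ⟨A, hA⟩ : ∃ A : Ω → (ℤ × ℤ) × (ℤ × ℤ), A = fun ω => ((hgU J w (NU + i) l h T ω,
      hgV J w (NV + i) l h T ω), (vU w (NU + i) l h ω, vV w (NV + i) l h ω)) := ⟨_, rfl⟩
  obtain ⟨B, hB⟩ : ∃ B : Ω → ℤ × ℤ, B = fun ω => (hgU J w (NU + n₁) l h T ω,
      hgV J w (NV + n₂) l h T ω) := ⟨_, rfl⟩
  have s1 : CH p A Z ≤ 2 * Real.log (2 * ((3 * c : ℕ) + 1) + 1) +
      2 * Real.log (2 * ((6 * c : ℕ) + 1) + 1) := by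
    have := CH_subadd h0 (fun ω => (hgU J w (NU + i) l h T ω, hgV J w (NV + i) l h T ω))
      (fun ω => (vU w (NU + i) l h ω, vV w (NV + i) l h ω)) Z
    rw [hA]
    linarith
  have s2 : CH p B Z ≤ 4 * Real.log (2 * ((3 * c : ℕ) + 1) + 1) := by
    have t1 := CH_subadd h0 (hgU J w (NU + n₁) l h T) (hgV J w (NV + n₂) l h T) Z
    have t2 : CH p (hgU J w (NU + n₁) l h T) Z ≤
        CH p (fun ω => (hgU J w (NU + n₁) l h T ω, hgV J w (NV + n₁) l h T ω)) Z :=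
      CH_mono_left h0 fun ω ω' _ _ hh => by
        simp only [Prod.mk.injEq] at hh
        exact hh.1.1
    have t3 : CH p (hgV J w (NV + n₂) l h T) Z ≤
        CH p (fun ω => (hgU J w (NU + n₂) l h T ω, hgV J w (NV + n₂) l h T ω)) Z :=
      CH_mono_left h0 fun ω ω' _ _ hh => by
        simp only [Prod.mk.injEq] at hh
        exact hh.1.2
    rw [hB]
    linarith
  have s3 : CH p (Rd J w NU NV i l h T cs) (fun ω => (A ω, Z ω)) ≤ 3 * Real.log 11 := by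
    refine Rd_few hp hwi dh H.yc (Y := Y) (Z := fun ω => (A ω, Z ω)) ?_
    intro ω ω' a1 a2 hh
    simp only [Prod.mk.injEq] at hh
    obtain ⟨c1, c2⟩ := hh
    obtain ⟨b1, b2, b3, b4, b5, b6, b7, b8⟩ := dZ ω ω' a1 a2 c2
    simp only [hA, Prod.mk.injEq] at c1
    obtain ⟨⟨d1, d2⟩, d3, d4⟩ := c1
    unfold Nd
    rw [d1, d2, d3, d4, b3, b6, b7, b8]
  have s4 := CH_subadd h0 (Rd J w NU NV i l h T cs) B Z
  have s5 := CH_le_add h0 (Rd J w NU NV i l h T cs) A Z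
  have e1 : (fun ω => (Rd J w NU NV i l h T cs ω,
      (hgU J w (NU + n₁) l h T ω, hgV J w (NV + n₂) l h T ω))) =
      fun ω => (Rd J w NU NV i l h T cs ω, B ω) := by
    funext ω
    rw [hB]
  rw [e1]
  unfold cfw
  linarith

end

end Pool.FUL95
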