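import Pool.Agent.H95.VF.Flb

/-!
# More side information, other labels: entropies

`add_dir`: a further function `D` in the condition costs the difference of two numbers. `trf_lab`:
from the record of a tube to any other data which are few bits given it.
-/

set_option autoImplicit false

namespace Pool.FUL95

open Finset Real
open Pool.Agent.H49.Ent Pool.Agent.H32.Dense Pool.STK Pool.CH30 Pool.KM7 Pool.OWN68

section

variable {Ω : Type} [Fintype Ω] {p : Ω → ℝ} {TD TB TR TX TP TZ TZo TY TU TV : Type}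

/-- **A further function in the condition.** -/
theorem add_dir (h0 : ∀ ω, 0 ≤ p ω) {B : Ω → TB} {D : Ω → TD} {R : Ω → TR} {X : Ω → TX} {P : Ω → TP}
    {zb : Ω → TZ} {zo : Ω → TZo} {M θb θo c₁ c₂ : ℝ}
    (hM : M ≤ CH p B (fun ω => (X ω, R ω))) (hb : CH p D (fun ω => (zb ω, X ω)) ≤ θb)
    (ho : θo ≤ CH p D (fun ω => (zo ω, X ω)))
    (h1 : CH p (fun ω => (R ω, B ω)) (fun ω => (zo ω, (P ω, X ω))) ≤ c₁)
    (h2 : CH p zb zo ≤ c₂) (dP : Det p D P) (dR : Det p R (fun ω => (zb ω, P ω))) :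
    M - (θb - θo) - c₁ - c₂ ≤ CH p B (fun ω => (D ω, (X ω, R ω))) := by
  -- the exchange
  have x1 := CH_chain2 h0 B D (fun ω => (X ω, R ω))
  have x2 := CH_chain2 h0 D B (fun ω => (X ω, R ω))
  have x3 := CH_swap2 h0 B D (fun ω => (X ω, R ω))
  -- the first number
  have a1 : CH p D (fun ω => (X ω, R ω)) ≤ CH p D (fun ω => (P ω, (zb ω, X ω))) :=
    CH_mono_cond h0 fun ω ω' q1 q2 hh => by
      simp only [Prod.mk.injEq] at hh ⊢
      have := dR ω ω' q1 q2 hh.2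
      simp only [Prod.mk.injEq] at this
      exact ⟨this.2, this.1, hh.1⟩
  have pc : ∀ {Q : Type} (W : Ω → Q), CH p D (fun ω => (P ω, W ω)) = CH p D W - CH p P W := by
    intro Q W
    have c1 := CH_chain2 h0 P D W
    have c2 : CH p (fun ω => (P ω, D ω)) W = CH p D W :=
      CH_congr h0 (fun ω ω' _ _ hh => by
        simp only [Prod.mk.injEq] at hh
        exact hh.1.2) (fun ω ω' q1 q2 hh => by
        simp only [Prod.mk.injEq] at hh ⊢
        exact ⟨dP ω ω' q1 q2 hh.1, hh.1⟩) (fun _ _ _ _ hh => hh) (fun _ _ _ _ hh => hh)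
    linarith
  have a2 := pc (fun ω => (zb ω, X ω))
  have a3 := pc (fun ω => (zo ω, X ω))
  -- the second number
  have b1 := CH_le_add h0 D (fun ω => (R ω, B ω)) (fun ω => (zo ω, (P ω, X ω)))
  have b2 : CH p D (fun ω => (P ω, (zo ω, X ω))) = CH p D (fun ω => (zo ω, (P ω, X ω))) :=
    CH_congr h0 (fun ω ω' _ _ hh => (Prod.ext_iff.mp hh).1) (fun ω ω' _ _ hh =>
      (Prod.ext_iff.mp hh).1) (fun ω ω' _ _ hh => by
        simp only [Prod.mk.injEq] at hh ⊢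
        exact ⟨hh.2.1, hh.1, hh.2.2⟩) (fun ω ω' _ _ hh => by
        simp only [Prod.mk.injEq] at hh ⊢
        exact ⟨hh.2.1, hh.1, hh.2.2⟩)
  have b3 : CH p D (fun ω => ((R ω, B ω), (zo ω, (P ω, X ω)))) ≤
      CH p D (fun ω => (B ω, (X ω, R ω))) :=
    CH_mono_cond h0 fun ω ω' _ _ hh => by
      simp only [Prod.mk.injEq] at hh ⊢
      exact ⟨hh.1.2, hh.2.2.2, hh.1.1⟩
  -- the first digits
  have d1 := CH_le_add h0 P zb (fun ω => (zo ω, X ω))
  have d2 : CH p zb (fun ω => (zo ω, X ω)) ≤ CH p zb zo :=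
    CH_mono_cond h0 fun ω ω' _ _ hh => (Prod.ext_iff.mp hh).1
  have d3 : CH p P (fun ω => (zb ω, (zo ω, X ω))) ≤ CH p P (fun ω => (zb ω, X ω)) :=
    CH_mono_cond h0 fun ω ω' _ _ hh => by
      simp only [Prod.mk.injEq] at hh ⊢
      exact ⟨hh.1, hh.2.2⟩
  linarith

/-- **From the record of a tube to other data.** -/
theorem trf_lab (h0 : ∀ ω, 0 ≤ p ω) {B : Ω → TB} {D : Ω → TD} {R : Ω → TR} {X : Ω → TX}
    {z : Ω → TZ} {u₀ : Ω → TV} {u : Ω → TU} {y : Ω → TY} {M c₁ c₂ c₃ : ℝ}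
    (hM : M ≤ CH p B (fun ω => (D ω, (X ω, R ω))))
    (dy : Det p (fun ω => (X ω, D ω)) y) (h1 : CH p z R ≤ c₁)
    (h2 : CH p u₀ (fun ω => (z ω, (D ω, (X ω, R ω)))) ≤ c₂)
    (h3 : CH p B (fun ω => (u ω, (z ω, (D ω, (X ω, R ω))))) ≤ c₃) :
    M - c₁ - c₂ - c₃ ≤ CH p u (fun ω => (z ω, (u₀ ω, y ω))) := by
  obtain ⟨W, hW⟩ : ∃ W : Ω → TD × TX × TR, W = fun ω => (D ω, (X ω, R ω)) := ⟨_, rfl⟩
  rw [← hW] at hM
  have e2 : CH p u₀ (fun ω => (z ω, W ω)) ≤ c₂ := by rw [hW]; exact h2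
  have e3 : CH p B (fun ω => (u ω, (z ω, W ω))) ≤ c₃ := by rw [hW]; exact h3
  have a1 : CH p u (fun ω => (u₀ ω, (z ω, W ω))) ≤ CH p u (fun ω => (z ω, (u₀ ω, y ω))) :=
    CH_mono_cond h0 fun ω ω' q1 q2 hh => by
      simp only [hW, Prod.mk.injEq] at hh ⊢
      exact ⟨hh.2.1, hh.1, dy ω ω' q1 q2 (by
        simp only [Prod.mk.injEq]
        exact ⟨hh.2.2.2.1, hh.2.2.1⟩)⟩
  have a2 := CH_le_add h0 B u (fun ω => (u₀ ω, (z ω, W ω)))
  have a3 : CH p B (fun ω => (u ω, (u₀ ω, (z ω, W ω)))) ≤ CH p B (fun ω => (u ω, (z ω, W ω))) :=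
    CH_mono_cond h0 fun ω ω' _ _ hh => by
      simp only [Prod.mk.injEq] at hh ⊢
      exact ⟨hh.1, hh.2.2⟩
  have a4 := CH_le_add h0 B u₀ (fun ω => (z ω, W ω))
  have a5 := CH_le_add h0 B z W
  have a6 : CH p z W ≤ CH p z R :=
    CH_mono_cond h0 fun ω ω' _ _ hh => by
      simp only [hW, Prod.mk.injEq] at hh
      exact hh.2.2
  linarith

end

end Pool.FUL95
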