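import Pool.Agent.H17.COR.Bxd

/-!
# The charts of two windows are near: the deep chart with the slope of the first window

`bsh`: the chart of `v` at the deep window, written with the `u`-slope of the chart of the first
window. `chw_root`: for it the charts of the two windows are near in the natural units of the first
window, on all events of a nonempty subclass; no relation between the slopes of `u` and `v`.
-/

set_option autoImplicit false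

namespace Pool.FUL95

open Finset Real MvPolynomial Filter Topology
open Pool.Agent.H49.Ent Pool.Agent.H32.Dense Pool.STK Pool.KA Pool.KSAT Pool.K2S Pool.PB Pool.S6C
  Pool.GEN Pool.RCD Pool.LA91 Pool.MIC6
open Pool.OWN17 (ChA Chd Chq oh ov act_f prop_root half_of fl_ev ge_ev)
open Pool.GRD (LbP)

variable {m : ℕ}

/-- **The chart of `v` at the deep window** with the slope of the chart of the first window. -/
noncomputable def bsh {J : ℕ} (F : Fam m J) (wW wO : ℕ) (b a' b' : LnT F → Fin 4 → ℝ) (s : LnT F) :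
    Fin 4 → ℝ := fun i =>
  if i = 3 then b (s.1, s.2.1, s.2.2 / 2 ^ (wO - wW)) 3 else
    b' s i + (b' s 3 - b (s.1, s.2.1, s.2.2 / 2 ^ (wO - wW)) 3) * a' s i

section one

variable {J : ℕ} {F : Fam m J} {y u v : Fin m} {wW wO : ℕ} {b a' b' : LnT F → Fin 4 → ℝ}

theorem bsh_ap (hw : wW ≤ wO) (hJ : wO ≤ J) (ω : F.Ω) :
    bsh F wW wO b a' b' (slam F wO ω) 3 = b (slam F wW ω) 3 ∧ ∀ i, i ≠ 3 →
      bsh F wW wO b a' b' (slam F wO ω) i = b' (slam F wO ω) i +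
        (b' (slam F wO ω) 3 - b (slam F wW ω) 3) * a' (slam F wO ω) i := by
  have h1 := slam_coarse F hw hJ ω
  unfold bsh
  rw [← h1]
  exact ⟨if_pos rfl, fun i hi => if_neg hi⟩

theorem bsh_oh (hw : wW ≤ wO) (hJ : wO ≤ J) (h3 : ∀ s, a' s 3 = 0) (ω : F.Ω) :
    oh F y u v (bsh F wW wO b a' b' (slam F wO ω)) ω = oh F y u v (b' (slam F wO ω)) ω +
      (b' (slam F wO ω) 3 - b (slam F wW ω) 3) * oh F y y u (a' (slam F wO ω)) ω := by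
  obtain ⟨k1, k2⟩ := bsh_ap (b := b) (a' := a') (b' := b') hw hJ ω
  unfold oh
  rw [k1, k2 0 (by decide), k2 1 (by decide), k2 2 (by decide), h3]
  ring

theorem bsh_ov (hw : wW ≤ wO) (hJ : wO ≤ J) (h3 : ∀ s, a' s 3 = 0) (ω : F.Ω) :
    ov F y u v (bsh F wW wO b a' b' (slam F wO ω)) ω = ov F y u v (b' (slam F wO ω)) ω +
      (b' (slam F wO ω) 3 - b (slam F wW ω) 3) * ov F y y u (a' (slam F wO ω)) ω := by
  obtain ⟨k1, k2⟩ := bsh_ap (b := b) (a' := a') (b' := b') hw hJ ω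
  unfold ov
  rw [k1, k2 1 (by decide), k2 2 (by decide), h3]
  ring

/-- The sheared chart is a chart. -/
theorem bsh_ChA {A : F.Ω → Prop} {MU MV MU' MV' M E : ℕ} {a : LnT F → Fin 4 → ℝ}
    (h : Chd F y u v wW wO MU MV MU' MV' E a b a' b' A) (hw : wW ≤ wO) (hJ : wO ≤ J) {D : ℝ}
    (hd : ∀ ω, A ω → |b' (slam F wO ω) 3 - b (slam F wW ω) 3| ≤ D)
    (hM : 1 / (2 : ℝ) ^ MV' + D * (1 / 2 ^ MU') ≤ 1 / 2 ^ M) :
    ChA F y u v wO M (2 * E + 2) (bsh F wW wO b a' b') A where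
  cls := by
    obtain ⟨φ, hφ⟩ := h.cv.cls
    obtain ⟨φ', hφ'⟩ := h.cu'.cls
    obtain ⟨ψ, hψ⟩ := h.cv'.cls
    refine ⟨fun x i => if i = 3 then φ x 3 else ψ x i + (ψ x 3 - φ x 3) * φ' x i,
      fun ω hω => funext fun i => ?_⟩
    obtain ⟨k1, k2⟩ := bsh_ap (b := b) (a' := a') (b' := b') hw hJ ω
    show _ = if i = 3 then _ else _
    by_cases hi : i = 3
    · subst hi
      rw [k1, if_pos rfl, hφ ω hω]
    · rw [k2 i hi, if_neg hi, hφ ω hω, hφ' ω hω, hψ ω hω]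
  pos := fun ω hω => by
    rw [bsh_oh hw hJ h.a3']
    refine (abs_add_le _ _).trans (le_trans (add_le_add (h.cv'.pos ω hω) ?_) hM)
    rw [abs_mul]
    exact mul_le_mul (hd ω hω) (h.cu'.pos ω hω) (abs_nonneg _) ((abs_nonneg _).trans (hd ω hω))
  vel := fun ω hω => by
    rw [bsh_ov hw hJ h.a3']
    have p0 : (0 : ℝ) < 2 ^ wO := by positivity
    have k1 : |(b' (slam F wO ω) 3 - b (slam F wW ω) 3) * ov F y y u (a' (slam F wO ω)) ω| ≤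
        D * (2 ^ wO / 2 ^ MU') := by
      rw [abs_mul]
      exact mul_le_mul (hd ω hω) (h.cu'.vel ω hω) (abs_nonneg _) ((abs_nonneg _).trans (hd ω hω))
    refine (abs_add_le _ _).trans ((add_le_add (h.cv'.vel ω hω) k1).trans ?_)
    have e1 : (2 : ℝ) ^ wO / 2 ^ MV' + D * (2 ^ wO / 2 ^ MU') =
        2 ^ wO * (1 / 2 ^ MV' + D * (1 / 2 ^ MU')) := by ring
    have e2 : (2 : ℝ) ^ wO / 2 ^ M = 2 ^ wO * (1 / 2 ^ M) := by ring
    rw [e1, e2]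
    exact mul_le_mul_of_nonneg_left hM p0.le
  bnd := fun ω hω i hi => by
    obtain ⟨k1, k2⟩ := bsh_ap (b := b) (a' := a') (b' := b') hw hJ ω
    have p1 : (1 : ℝ) ≤ 2 ^ E := one_le_pow₀ (by norm_num)
    have e1 : (2 : ℝ) ^ (2 * E + 2) = 4 * (2 ^ E * 2 ^ E) := by
      rw [pow_add, two_mul, pow_add]
      ring
    rw [e1]
    by_cases hi3 : i = 3
    · rw [hi3, k1]
      have := h.cv.bnd ω hω 3 (by decide)
      nlinarith
    · rw [k2 i hi3]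
      have q1 := h.cv'.bnd ω hω i hi
      have q2 := h.cv'.bnd ω hω 3 (by decide)
      have q3 := h.cv.bnd ω hω 3 (by decide)
      have q4 := h.cu'.bnd ω hω i hi
      have q5 : |(b' (slam F wO ω) 3 - b (slam F wW ω) 3) * a' (slam F wO ω) i| ≤
          (2 * 2 ^ E) * 2 ^ E := by
        rw [abs_mul]
        refine mul_le_mul ((abs_sub _ _).trans ?_) q4 (abs_nonneg _) (by positivity)
        linarith
      refine (abs_add_le _ _).trans ?_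
      nlinarith

end one

/-- **The charts of two windows are near**, with the sheared chart at the deep window, on all events
of a subclass. -/
theorem chw_root {S : PCl m} {C₀ : ℝ} (htm : TmC S C₀) {y u v : Fin m} (hyu : y ≠ u)
    (hact : ActF S y) {W O U₀ U₁ D₀ D₁ g ε : ℝ}
    (hslo : SloN S (RL m {y} u v W (U₀ + g)) (RL m {y} u v O (U₁ + g)) g)
    (hW : 0 ≤ W) (hO' : W ≤ O) (hO1 : O ≤ 1) (hU : W < U₀ - ε) (hNV : W < D₀ - 2 * ε)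
    (hWO : U₀ - W ≤ U₁ - O) (hg0 : U₀ + g ≤ D₀) (hg1 : U₁ + g ≤ D₁)
    (hDO : D₀ - W ≤ U₁ + g - O) (hε : 0 < ε) :
    ∃ e₀ : ℝ, 0 < e₀ ∧ ∀ e : ℝ, 0 < e → e ≤ e₀ → ∀ S₁ : PCl m, S₁.Ne →
      (∀ (τ : ℝ) (J : ℕ) (F : Fam m J) (A : F.Ω → Prop), S₁.St τ J F A → S.St τ J F A) →
      ∀ a b a' b' : ∀ (J : ℕ) (F : Fam m J), LnT F → Fin 4 → ℝ,
      (∀ (τ : ℝ) (J : ℕ) (F : Fam m J) (A : F.Ω → Prop), S₁.St τ J F A →
        Chd F y u v ⌊W * J⌋₊ ⌊O * J⌋₊ ⌊(U₀ - e) * J⌋₊ ⌊(D₀ - e) * J⌋₊ ⌊(U₁ - e) * J⌋₊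
          ⌊(D₁ - e) * J⌋₊ ⌊e * J⌋₊ (a J F) (b J F) (a' J F) (b' J F) A) →
      ∀ J₀ : ℕ, ∃ S₂ : PCl m, S₂.Ne ∧
        (∀ (τ : ℝ) (J : ℕ) (F : Fam m J) (A : F.Ω → Prop), S₂.St τ J F A → S₁.St τ J F A) ∧
        ∀ (τ : ℝ) (J : ℕ) (F : Fam m J) (A : F.Ω → Prop), S₂.St τ J F A → J₀ ≤ J ∧
          ChA F y u v ⌊O * J⌋₊ ⌊(U₁ + g - ε) * J⌋₊ (2 * ⌊e * J⌋₊ + 2)
            (bsh F ⌊W * J⌋₊ ⌊O * J⌋₊ (b J F) (a' J F) (b' J F)) A ∧
          Chq F ⌊W * J⌋₊ ⌊O * J⌋₊ ⌊W * J⌋₊ ⌊(U₀ - ε) * J⌋₊ ⌊(D₀ - 2 * ε) * J⌋₊ 1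
            (a J F) (b J F) (a' J F)
            (bsh F ⌊W * J⌋₊ ⌊O * J⌋₊ (b J F) (a' J F) (b' J F)) A := by
  classical
  obtain ⟨e₁, he₁, hs⟩ := hslo (ε / 4) (by linarith)
  obtain ⟨x, hx⟩ : ∃ x, x = ε / 8 := ⟨_, rfl⟩
  have hx0 : 0 < x := by rw [hx]; linarith
  refine ⟨min e₁ x, lt_min he₁ hx0, ?_⟩
  intro e he hee S₁ hS₁ hsub a b a' b' hch J₀
  have ee1 : e ≤ e₁ := hee.trans (min_le_left _ _)
  have ee2 : e ≤ x := hee.trans (min_le_right _ _)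
  have hO : 0 ≤ O := hW.trans hO'
  -- the numbers
  obtain ⟨J₁, hfit⟩ := (((fl_ev [(1, U₀ - ε), (1, x)] [(1, U₀ - e)] 3 (by
      simp only [List.mem_cons, List.not_mem_nil, or_false, forall_eq_or_imp, forall_eq]
      exact ⟨by linarith, hx0.le⟩) (by
      simp only [List.map_cons, List.map_nil, List.sum_cons, List.sum_nil]
      push_cast
      linarith)).and (fl_ev [(1, U₀ - ε), (1, x), (1, O)] [(1, U₁ - e), (1, W)] 3 (by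
      simp only [List.mem_cons, List.not_mem_nil, or_false, forall_eq_or_imp, forall_eq]
      exact ⟨by linarith, hx0.le, hO⟩) (by
      simp only [List.map_cons, List.map_nil, List.sum_cons, List.sum_nil]
      push_cast
      linarith))).and ((fl_ev [(1, D₀ - 2 * ε), (1, x)] [(1, D₀ - e)] 3 (by
      simp only [List.mem_cons, List.not_mem_nil, or_false, forall_eq_or_imp, forall_eq]
      exact ⟨by linarith, hx0.le⟩) (by
      simp only [List.map_cons, List.map_nil, List.sum_cons, List.sum_nil]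
      push_cast
      linarith)).and (fl_ev [(1, D₀ - 2 * ε), (1, x), (1, O)] [(1, U₁ + g - ε), (1, W)] 3 (by
      simp only [List.mem_cons, List.not_mem_nil, or_false, forall_eq_or_imp, forall_eq]
      exact ⟨by linarith, hx0.le, hO⟩) (by
      simp only [List.map_cons, List.map_nil, List.sum_cons, List.sum_nil]
      push_cast
      linarith)))).exists_forall_of_atTop
  simp only [List.map_cons, List.map_nil, List.sum_cons, List.sum_nil, one_mul, add_zero] at hfit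
  have hpos₁ : Bas S₁ (fun _ F A => 0 < Pe F.p A) := Bas.sub hsub
    ⟨1, one_pos, 0, fun J _ F A hA => (htm 1 J F A one_pos hA).1⟩
  -- the slopes of `v` over `u`
  obtain ⟨J₂, hJ₂⟩ := (ge_ev 4 (by linarith : (0 : ℝ) < ε / 4)).exists_forall_of_atTop
  obtain ⟨S₂, hS₂, hsub₂, h3⟩ := prop_root (C := 2) hS₁ (fun J F ω =>
      |b' J F (slam F ⌊O * J⌋₊ ω) 3 - b J F (slam F ⌊W * J⌋₊ ω) 3| ≤
        2 ^ (-((g - ε / 4) * J))) (max (max J₀ J₁) J₂) (by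
    refine Bas.mono 0 ((Bas.sub hsub (hs 4 (1 / 2) (by norm_num))).and (hpos₁.and
      ⟨1, one_pos, 0, fun J _ F A hA => hch 1 J F A hA⟩)) ?_
    rintro J - F A ⟨h1, h2, hc⟩
    have hJ0 : (0 : ℝ) ≤ J := Nat.cast_nonneg J
    have k1 := hc.cv.rl hyu (p := U₀ + g) (e := e₁) (Nat.floor_le_floor
      (mul_le_mul_of_nonneg_right (by linarith) hJ0)) (K := 4) (by norm_num)
    have k2 := hc.cv'.rl hyu (p := U₁ + g) (e := e₁) (Nat.floor_le_floor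
      (mul_le_mul_of_nonneg_right (by linarith) hJ0)) (K := 4) (by norm_num)
    have k3 := h1 _ _ k1 k2
    refine ⟨fun ω => A ω ∧ |b J F (slam F ⌊W * J⌋₊ ω) 3 - b' J F (slam F ⌊O * J⌋₊ ω) 3| ≤
      2 ^ (-((g - ε / 4) * J)), fun ω hω => hω.1, half_of F.isLaw h2 k3, fun ω hω => ?_⟩
    have k4 := hω.2
    rw [abs_sub_comm] at k4
    exact k4)
  have htm₂ : TmC S₂ C₀ := fun τ J F A hτ h => htm τ J F A hτ (hsub τ J F A (hsub₂ τ J F A h))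
  have hact₂ : ActF S₂ y := fun z hz => by
    obtain ⟨c, hc, hb⟩ := hact z hz
    exact ⟨c, hc, Bas.sub (fun τ J F A h => hsub τ J F A (hsub₂ τ J F A h)) hb⟩
  -- the sheared chart
  have hsh : ∀ (τ : ℝ) (J : ℕ) (F : Fam m J) (A : F.Ω → Prop), S₂.St τ J F A →
      ChA F y u v ⌊O * J⌋₊ ⌊(U₁ + g - ε) * J⌋₊ (2 * ⌊e * J⌋₊ + 2)
        (bsh F ⌊W * J⌋₊ ⌊O * J⌋₊ (b J F) (a' J F) (b' J F)) A := by
    intro τ J F A hA
    obtain ⟨hJ, hd⟩ := h3 τ J F A hA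
    have hJ0 : (0 : ℝ) ≤ J := Nat.cast_nonneg J
    have hJ4 := hJ₂ J ((le_max_right _ _).trans hJ)
    have hOJ : ⌊O * (J : ℝ)⌋₊ ≤ J := floor_le hO1 J
    refine bsh_ChA (hch τ J F A (hsub₂ τ J F A hA))
      (Nat.floor_le_floor (mul_le_mul_of_nonneg_right hO' hJ0)) hOJ hd ?_
    -- the numbers
    have f : ∀ a : ℝ, 1 / (2 : ℝ) ^ ⌊a * J⌋₊ ≤ 2 * 2 ^ (-(a * J)) := fun a => ip2_le _
    have f1 := f (D₁ - e)
    have f2 := f (U₁ - e)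
    have f3 : (2 : ℝ) ^ (-((U₁ + g - ε) * J)) ≤ 1 / 2 ^ ⌊(U₁ + g - ε) * (J : ℝ)⌋₊ := by
      rw [Real.rpow_neg (by norm_num), ← one_div]
      refine one_div_le_one_div_of_le (by positivity) ?_
      rw [← Real.rpow_natCast]
      exact Real.rpow_le_rpow_of_exponent_le (by norm_num)
        (Nat.floor_le (mul_nonneg (by linarith) hJ0))
    refine le_trans ?_ f3
    have p0 : (0 : ℝ) < 2 ^ (-((g - ε / 4) * J)) := Real.rpow_pos_of_pos (by norm_num) _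
    have g1 : (2 : ℝ) * 2 ^ (-((D₁ - e) * J)) ≤ 1 / 2 * 2 ^ (-((U₁ + g - ε) * J)) := by
      have e1 : (1 / 2 : ℝ) * 2 ^ (-((U₁ + g - ε) * J)) =
          2 * 2 ^ (-((U₁ + g - ε) * J) - 2) := by
        rw [Real.rpow_sub (by norm_num)]
        norm_num
        ring
      rw [e1]
      refine mul_le_mul_of_nonneg_left ?_ (by norm_num)
      refine Real.rpow_le_rpow_of_exponent_le (by norm_num) ?_
      have : (U₁ + g - ε) * J + ε / 2 * J ≤ (D₁ - e) * J := by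
        rw [← add_mul]
        exact mul_le_mul_of_nonneg_right (by linarith) hJ0
      linarith
    have g2 : (2 : ℝ) ^ (-((g - ε / 4) * J)) * (2 * 2 ^ (-((U₁ - e) * J))) ≤
        1 / 2 * 2 ^ (-((U₁ + g - ε) * J)) := by
      have e1 : (1 / 2 : ℝ) * 2 ^ (-((U₁ + g - ε) * J)) =
          2 * 2 ^ (-((U₁ + g - ε) * J) - 2) := by
        rw [Real.rpow_sub (by norm_num)]
        norm_num
        ring
      have e2 : (2 : ℝ) ^ (-((g - ε / 4) * J)) * (2 * 2 ^ (-((U₁ - e) * J))) =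
          2 * 2 ^ (-((g - ε / 4) * J) + -((U₁ - e) * J)) := by
        rw [Real.rpow_add (by norm_num)]
        ring
      rw [e1, e2]
      refine mul_le_mul_of_nonneg_left ?_ (by norm_num)
      refine Real.rpow_le_rpow_of_exponent_le (by norm_num) ?_
      have : (U₁ + g - ε) * J + ε / 2 * J ≤ (g - ε / 4) * J + (U₁ - e) * J := by
        rw [← add_mul, ← add_mul]
        exact mul_le_mul_of_nonneg_right (by linarith) hJ0
      linarith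
    have g3 := mul_le_mul_of_nonneg_left f2 p0.le
    linarith
  -- the slopes of `u` over `y`
  obtain ⟨S₃, hS₃, hsub₃, h4⟩ := prop_root (C := 2) hS₂ (fun J F ω =>
      |a' J F (slam F ⌊O * J⌋₊ ω) 2 - a J F (slam F ⌊W * J⌋₊ ω) 2| ≤
        1 * (2 ^ ⌊W * J⌋₊ / 2 ^ ⌊(U₀ - ε) * J⌋₊)) (max J₀ J₁) (by
    refine Bas.mono J₁ ((act_f htm₂ hact₂ hx0).and
      ⟨1, one_pos, 0, fun J _ F A hA => hch 1 J F A (hsub₂ 1 J F A hA)⟩) ?_
    rintro J hJ F A ⟨h1, hc⟩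
    obtain ⟨⟨g1, g2⟩, -, -⟩ := hfit J hJ
    obtain ⟨φ, hφ⟩ := hc.cu.cls
    obtain ⟨φ', hφ'⟩ := hc.cu'.cls
    obtain ⟨R, hR⟩ : ∃ R : ℝ, R = 2 ^ ⌊W * (J : ℝ)⌋₊ /
      2 ^ (⌊(U₀ - ε) * (J : ℝ)⌋₊ + (⌊x * (J : ℝ)⌋₊ + 3)) := ⟨_, rfl⟩
    have hR0 : 0 < R := by rw [hR]; positivity
    have e1 : (2 : ℝ) ^ ⌊W * (J : ℝ)⌋₊ / 2 ^ ⌊(U₀ - e) * (J : ℝ)⌋₊ ≤ R := by
      rw [hR]
      exact div_le_div_of_nonneg_left (by positivity) (by positivity)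
        (pow_le_pow_right₀ (by norm_num) (by omega))
    have e2 : (2 : ℝ) ^ ⌊O * (J : ℝ)⌋₊ / 2 ^ ⌊(U₁ - e) * (J : ℝ)⌋₊ ≤ R := by
      rw [hR, div_le_div_iff₀ (by positivity) (by positivity), ← pow_add, ← pow_add]
      exact pow_le_pow_right₀ (by norm_num) (by omega)
    obtain ⟨B, p1, p2, p3⟩ := h1
      (fun ω => a' J F (slam F ⌊O * J⌋₊ ω) 1 - a J F (slam F ⌊W * J⌋₊ ω) 1)
      (fun ω => a' J F (slam F ⌊O * J⌋₊ ω) 2 - a J F (slam F ⌊W * J⌋₊ ω) 2) (2 * R)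
      (by positivity) (fun ω ω' hω hω' hh => by
        rw [hφ ω hω, hφ ω' hω', hφ' ω hω, hφ' ω' hω', hh]
        exact ⟨rfl, rfl⟩) (fun ω hω => by
        have k1 := hc.cu.vel ω hω
        have k2 := hc.cu'.vel ω hω
        have k3 : (a' J F (slam F ⌊O * J⌋₊ ω) 1 - a J F (slam F ⌊W * J⌋₊ ω) 1) +
            (a' J F (slam F ⌊O * J⌋₊ ω) 2 - a J F (slam F ⌊W * J⌋₊ ω) 2) * F.d ω y =
            ov F y y u (a J F (slam F ⌊W * J⌋₊ ω)) ω -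
              ov F y y u (a' J F (slam F ⌊O * J⌋₊ ω)) ω := by
          unfold ov
          rw [hc.a3, hc.a3']
          ring
        rw [k3]
        refine (abs_sub _ _).trans ?_
        linarith)
    refine ⟨B, p1, p2, fun ω hω => (p3 ω hω).trans ?_⟩
    rw [one_mul, hR]
    have e3 : (2 : ℝ) ^ (⌊x * (J : ℝ)⌋₊ + 1) * (2 * (2 ^ ⌊W * (J : ℝ)⌋₊ /
        2 ^ (⌊(U₀ - ε) * (J : ℝ)⌋₊ + (⌊x * (J : ℝ)⌋₊ + 3)))) =
        1 / 2 * (2 ^ ⌊W * (J : ℝ)⌋₊ / 2 ^ ⌊(U₀ - ε) * (J : ℝ)⌋₊) := by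
      rw [pow_add, pow_add, pow_add]
      field_simp
    rw [e3]
    have : (0 : ℝ) ≤ 2 ^ ⌊W * (J : ℝ)⌋₊ / 2 ^ ⌊(U₀ - ε) * (J : ℝ)⌋₊ := by positivity
    linarith)
  have htm₃ : TmC S₃ C₀ := fun τ J F A hτ h => htm₂ τ J F A hτ (hsub₃ τ J F A h)
  have hact₃ : ActF S₃ y := fun z hz => by
    obtain ⟨c, hc, hb⟩ := hact₂ z hz
    exact ⟨c, hc, Bas.sub hsub₃ hb⟩
  -- the slopes of `v` over `y`
  obtain ⟨S₄, hS₄, hsub₄, h5⟩ := prop_root (C := 2) hS₃ (fun J F ω =>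
      |bsh F ⌊W * J⌋₊ ⌊O * J⌋₊ (b J F) (a' J F) (b' J F) (slam F ⌊O * J⌋₊ ω) 2 -
          b J F (slam F ⌊W * J⌋₊ ω) 2| ≤
        1 * (2 ^ ⌊W * J⌋₊ / 2 ^ ⌊(D₀ - 2 * ε) * J⌋₊)) (max J₀ J₁) (by
    have hb : Bas S₃ (fun J F A => Chd F y u v ⌊W * J⌋₊ ⌊O * J⌋₊ ⌊(U₀ - e) * J⌋₊
        ⌊(D₀ - e) * J⌋₊ ⌊(U₁ - e) * J⌋₊ ⌊(D₁ - e) * J⌋₊ ⌊e * J⌋₊ (a J F) (b J F) (a' J F)
          (b' J F) A) :=
      ⟨1, one_pos, 0, fun J _ F A hA => hch 1 J F A (hsub₂ 1 J F A (hsub₃ 1 J F A hA))⟩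
    have hb' : Bas S₃ (fun J F A => ChA F y u v ⌊O * J⌋₊ ⌊(U₁ + g - ε) * J⌋₊ (2 * ⌊e * J⌋₊ + 2)
        (bsh F ⌊W * J⌋₊ ⌊O * J⌋₊ (b J F) (a' J F) (b' J F)) A) :=
      ⟨1, one_pos, 0, fun J _ F A hA => hsh 1 J F A (hsub₃ 1 J F A hA)⟩
    refine Bas.mono J₁ ((act_f htm₃ hact₃ hx0).and (hb.and hb')) ?_
    rintro J hJ F A ⟨h1, hc, hc3⟩
    have hJ0 : (0 : ℝ) ≤ J := Nat.cast_nonneg J
    obtain ⟨-, g3, g4⟩ := hfit J hJ
    obtain ⟨φ, hφ⟩ := hc.cv.cls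
    obtain ⟨φ', hφ'⟩ := hc3.cls
    have hOJ : ⌊O * (J : ℝ)⌋₊ ≤ J := floor_le hO1 J
    have hWJ : ⌊W * (J : ℝ)⌋₊ ≤ ⌊O * (J : ℝ)⌋₊ :=
      Nat.floor_le_floor (mul_le_mul_of_nonneg_right hO' hJ0)
    obtain ⟨bb, hbb⟩ : ∃ bb, bb = bsh F ⌊W * J⌋₊ ⌊O * J⌋₊ (b J F) (a' J F) (b' J F) := ⟨_, rfl⟩
    have hb3 : ∀ ω, bb (slam F ⌊O * J⌋₊ ω) 3 = b J F (slam F ⌊W * J⌋₊ ω) 3 := fun ω => by
      rw [hbb]
      exact (bsh_ap hWJ hOJ ω).1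
    rw [← hbb] at hφ' hc3 ⊢
    obtain ⟨R, hR⟩ : ∃ R : ℝ, R = 2 ^ ⌊W * (J : ℝ)⌋₊ /
      2 ^ (⌊(D₀ - 2 * ε) * (J : ℝ)⌋₊ + (⌊x * (J : ℝ)⌋₊ + 3)) := ⟨_, rfl⟩
    have hR0 : 0 < R := by rw [hR]; positivity
    have e1 : (2 : ℝ) ^ ⌊W * (J : ℝ)⌋₊ / 2 ^ ⌊(D₀ - e) * (J : ℝ)⌋₊ ≤ R := by
      rw [hR]
      exact div_le_div_of_nonneg_left (by positivity) (by positivity)
        (pow_le_pow_right₀ (by norm_num) (by omega))
    have e2 : (2 : ℝ) ^ ⌊O * (J : ℝ)⌋₊ / 2 ^ ⌊(U₁ + g - ε) * (J : ℝ)⌋₊ ≤ R := by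
      rw [hR, div_le_div_iff₀ (by positivity) (by positivity), ← pow_add, ← pow_add]
      exact pow_le_pow_right₀ (by norm_num) (by omega)
    obtain ⟨B, p1, p2, p3⟩ := h1
      (fun ω => bb (slam F ⌊O * J⌋₊ ω) 1 - b J F (slam F ⌊W * J⌋₊ ω) 1)
      (fun ω => bb (slam F ⌊O * J⌋₊ ω) 2 - b J F (slam F ⌊W * J⌋₊ ω) 2) (2 * R)
      (by positivity) (fun ω ω' hω hω' hh => by
        rw [hφ ω hω, hφ ω' hω', hφ' ω hω, hφ' ω' hω', hh]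
        exact ⟨rfl, rfl⟩) (fun ω hω => by
        have k1 := hc.cv.vel ω hω
        have k2 := hc3.vel ω hω
        have k3 : (bb (slam F ⌊O * J⌋₊ ω) 1 - b J F (slam F ⌊W * J⌋₊ ω) 1) +
            (bb (slam F ⌊O * J⌋₊ ω) 2 - b J F (slam F ⌊W * J⌋₊ ω) 2) * F.d ω y =
            ov F y u v (b J F (slam F ⌊W * J⌋₊ ω)) ω -
              ov F y u v (bb (slam F ⌊O * J⌋₊ ω)) ω := by
          unfold ov
          rw [hb3]
          ring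
        rw [k3]
        refine (abs_sub _ _).trans ?_
        linarith)
    refine ⟨B, p1, p2, fun ω hω => (p3 ω hω).trans ?_⟩
    rw [one_mul, hR]
    have e3 : (2 : ℝ) ^ (⌊x * (J : ℝ)⌋₊ + 1) * (2 * (2 ^ ⌊W * (J : ℝ)⌋₊ /
        2 ^ (⌊(D₀ - 2 * ε) * (J : ℝ)⌋₊ + (⌊x * (J : ℝ)⌋₊ + 3)))) =
        1 / 2 * (2 ^ ⌊W * (J : ℝ)⌋₊ / 2 ^ ⌊(D₀ - 2 * ε) * (J : ℝ)⌋₊) := by
      rw [pow_add, pow_add, pow_add]
      field_simp
    rw [e3]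
    have : (0 : ℝ) ≤ 2 ^ ⌊W * (J : ℝ)⌋₊ / 2 ^ ⌊(D₀ - 2 * ε) * (J : ℝ)⌋₊ := by positivity
    linarith)
  refine ⟨S₄, hS₄, fun τ J F A h => hsub₂ τ J F A (hsub₃ τ J F A (hsub₄ τ J F A h)), ?_⟩
  intro τ J F A hA
  have q5 := h5 τ J F A hA
  have q4 := h4 τ J F A (hsub₄ τ J F A hA)
  have q3 := hsh τ J F A (hsub₃ τ J F A (hsub₄ τ J F A hA))
  have hJ0 : (0 : ℝ) ≤ J := Nat.cast_nonneg J
  have hOJ : ⌊O * (J : ℝ)⌋₊ ≤ J := floor_le hO1 J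
  have hWJ : ⌊W * (J : ℝ)⌋₊ ≤ ⌊O * (J : ℝ)⌋₊ :=
    Nat.floor_le_floor (mul_le_mul_of_nonneg_right hO' hJ0)
  refine ⟨(le_max_left _ _).trans q5.1, q3, ⟨q4.2, fun ω _ => ?_, fun ω hω => ?_⟩⟩
  · rw [(bsh_ap hWJ hOJ ω).1, sub_self, abs_zero]
    positivity
  · rw [(bsh_ap hWJ hOJ ω).1, sub_self, zero_mul, add_zero]
    exact q5.2 ω hω

end Pool.FUL95
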