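import Pool.Agent.H95.VF.Flc
import Pool.Agent.H95.VF.Fld
import Pool.Agent.H33.EXC.Zrc
import Pool.Agent.H83.OWN.Lvo

/-!
# The record of a tube and the own heights of a sample

`rdR`: the record of the tube with the codes. `hgB`: the digits of the own heights. `rd_line`: the
record is a function of the line in the window. `rdB_few`: both are few bits given the charts of a
deep window. `ex_hgt`: from the exactness of the three coordinates to the fullness of the own heights.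
-/

set_option autoImplicit false

namespace Pool.FUL95

open Finset Real MvPolynomial
open Pool.Agent.H49.Ent Pool.Agent.H32.Dense Pool.STK Pool.KA Pool.KSAT Pool.K2S Pool.PB Pool.S6C
  Pool.GEN Pool.RCD Pool.LA91 Pool.MIC6 Pool.CH30 Pool.OWN68 Pool.OWN17
open Pool.OWN83 (yX)

variable {m J : ℕ}

/-- The codes of the record. -/
noncomputable def csF {V : Type} (F : Fam m J) (w : ℕ) (z : LnT F → V)
    (a b : LnT F → Fin 4 → ℝ) (ω : F.Ω) : (V × ((Fin 4 → ℝ) × (Fin 4 → ℝ))) × ℕ :=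
  ((z (slam F w ω), (a (slam F w ω), b (slam F w ω))), F.T1 w ω)

/-- **The record of the tube.** -/
noncomputable def rdR {V : Type} (F : Fam m J) (y u v : Fin m) (w NU NV i : ℕ) (z : LnT F → V)
    (a b : LnT F → Fin 4 → ℝ) : F.Ω → ((V × ((Fin 4 → ℝ) × (Fin 4 → ℝ))) × ℕ) ×
      (ℕ × ((ℤ × ℤ) × ((ℤ × ℤ) × (ℤ × ℤ)))) :=
  Rd J w NU NV i (lnF F y u v w) (OWN17.hC F w w a b) F.T (csF F w z a b)

/-- **The digits of the own heights.** -/
noncomputable def hgB (F : Fam m J) (y u v : Fin m) (w nu nv : ℕ) (a b : LnT F → Fin 4 → ℝ)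
    (ω : F.Ω) : ℤ × ℤ :=
  (⌊2 ^ nu * oh F y y u (a (slam F w ω)) ω⌋, ⌊2 ^ nv * oh F y u v (b (slam F w ω)) ω⌋)

section

variable {V : Type} {F : Fam m J} {y u v : Fin m} {w wO NU NV I i nu nv : ℕ} {z : LnT F → V}
  {a b a' bb : LnT F → Fin 4 → ℝ} {A : F.Ω → Prop}

theorem hgB_eq (hw : w ≤ J) (h3 : ∀ s, a s 3 = 0) : hgB F y u v w nu nv a b = fun ω =>
    (hgU J w nu (lnF F y u v w) (OWN17.hC F w w a b) F.T ω,
      hgV J w nv (lnF F y u v w) (OWN17.hC F w w a b) F.T ω) := by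
  funext ω
  unfold hgB hgU hgV OWN17.hC
  rw [lnF_hu F y u v hw, lnF_hv F y u v hw]
  unfold oh
  rw [h3, zero_mul, add_zero]

theorem cs_det {p : F.Ω → ℝ} : Det p (csF F w z a b) (OWN17.hC F w w a b) := by
  intro ω ω' _ _ hh
  simp only [csF, Prod.mk.injEq] at hh
  obtain ⟨⟨-, h1, h2⟩, h3⟩ := hh
  unfold OWN17.hC tw0
  rw [h1, h2, h3]

/-- The record is a function of the line in the window. -/
theorem rd_line (hw : w ≤ J) {ω ω' : F.Ω} (h : slam F w ω = slam F w ω') :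
    rdR F y u v w NU NV i z a b ω = rdR F y u v w NU NV i z a b ω' := by
  have h1 : F.T1 w ω = F.T1 w ω' := congrArg (fun s => s.2.2) h
  have h2 : F.T ω / 2 ^ (J - w) = F.T ω' / 2 ^ (J - w) := h1
  have h3 : F.l ω = F.l ω' := congrArg (fun s => s.1) h
  have h4 : F.u ω = F.u ω' := congrArg Prod.fst h3
  have h5 : F.d ω = F.d ω' := congrArg Prod.snd h3
  have h6 : lnF F y u v w ω = lnF F y u v w ω' := by
    unfold lnF tw0
    rw [h4, h5, h1]
  have h7 : OWN17.hC F w w a b ω = OWN17.hC F w w a b ω' := by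
    unfold OWN17.hC tw0
    rw [h, h1]
  unfold rdR Rd csF
  rw [h6, h7, h2, h, h1]

/-- The record with the heights is few bits given the charts of a deep window. -/
theorem rdB_few {p : F.Ω → ℝ} (hp : IsLaw p) {c : ℕ} (h3 : ∀ s, a s 3 = 0)
    (H : Dpl p c J w NU NV I (lnF F y u v w) (OWN17.hC F w w a b) (fC F wO a' bb) F.T
      (fun ω => F.X J ω y) (AuC F w wO a a') (AvC F w wO b a' bb)) (hi : i ≤ I) {n₁ n₂ : ℕ}
    (h1 : n₁ ≤ I) (h2 : n₂ ≤ I) (hwi : w + i ≤ J) :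
    CH p (fun ω => (rdR F y u v w NU NV i z a b ω,
      hgB F y u v w (NU + n₁) (NV + n₂) a b ω)) (fun ω => ((((a' (slam F wO ω), bb (slam F wO ω)),
        (a (slam F w ω), b (slam F w ω))), z (slam F w ω)), (F.D i ω y, (F.X J ω y, F.W ω)))) ≤
      cfw c := by
  have hw : w ≤ J := by omega
  rw [hgB_eq hw h3]
  refine rd_few hp H hi h1 h2 hwi cs_det ?_
  intro ω ω' _ _ hh
  simp only [Prod.mk.injEq] at hh
  obtain ⟨⟨⟨⟨k1, k2⟩, k3, k4⟩, k5⟩, k6, k7, k8⟩ := hh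
  have hT : F.T ω = F.T ω' := congrArg Prod.fst k8
  have e1 : F.t ω = F.t ω' := by unfold Fam.t; rw [hT]
  have e2 : F.T1 w ω = F.T1 w ω' := by unfold Fam.T1; rw [hT]
  simp only [Prod.mk.injEq]
  refine ⟨?_, ?_, ?_, ?_, hT, k7, k6⟩
  · unfold AuC
    rw [k1, k3, e1]
  · unfold AvC
    rw [k2, k1, k4, e1]
  · unfold csF
    rw [k3, k4, k5, e2]
  · unfold fC
    rw [k1, k2]

/-- **From the exactness of the coordinates to the fullness of the own heights.** -/
theorem ex_hgt {p : F.Ω → ℝ} (hp : IsLaw p) (hwJ : w + i ≤ J) (hnu : nu ≤ J) (hnv : nv ≤ J)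
    {E : ℕ} (hEu : E ≤ J - nu) (hEv : E + 1 ≤ J - nv) (h3 : ∀ s, a s 3 = 0)
    (ha : ∀ ω, 0 < p ω → |a (slam F w ω) 2| ≤ 2 ^ E)
    (hb : ∀ ω, 0 < p ω → |b (slam F w ω) 2| ≤ 2 ^ E)
    (hb3 : ∀ ω, 0 < p ω → |b (slam F w ω) 3| ≤ 2 ^ E) {c : ℕ → Fin m} (c0 : c 0 = y)
    (c1 : c 1 = u) (c2 : c 2 = v) :
    CH p (fun ω (l : Fin 3) => F.X J ω (c l))
      (fun ω => (some (rdR F y u v w NU NV i z a b ω), F.W ω)) ≤
      CH p (hgB F y u v w nu nv a b)
        (fun ω => ((F.X J ω y, F.W ω), rdR F y u v w NU NV i z a b ω)) +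
      (((J - (w + i) : ℕ) : ℝ) + ((J - nu : ℕ) : ℝ) + ((J - nv : ℕ) : ℝ)) * Real.log 2 +
      3 * Real.log 9 := by
  have h0 := hp.nonneg
  have hw : w ≤ J := by omega
  have xn : ∀ (k : Fin m) (ω : F.Ω), |((F.X J ω k : ℤ) : ℝ) / 2 ^ J - F.x ω k| ≤ 1 / 2 ^ J :=
    fun k ω => fl_near J (F.x ω k)
  have eu : ∀ ω, (lnF F y u v w ω).u + tT J w (F.T ω) * (lnF F y u v w ω).du = F.x ω u := by
    intro ω
    unfold lnF Fam.x
    simp only
    rw [← tw0_add F hw ω]
    ring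
  have ev : ∀ ω, (lnF F y u v w ω).v + tT J w (F.T ω) * (lnF F y u v w ω).dv = F.x ω v := by
    intro ω
    unfold lnF Fam.x
    simp only
    rw [← tw0_add F hw ω]
    ring
  have key := xs_le hp hwJ hnu hnv hEu hEv (NU := NU) (NV := NV) (l := lnF F y u v w)
    (h := OWN17.hC F w w a b) (T := F.T) (Y := fun ω => F.X J ω y) (U := fun ω => F.X J ω u)
    (V := fun ω => F.X J ω v) (cs := csF F w z a b) cs_det
    (fun ω _ => yc_of F y u v hw ω)
    (fun ω _ => by rw [eu]; exact xn u ω) (fun ω _ => by rw [ev]; exact xn v ω)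
    (fun ω hω => ha ω hω) (fun ω hω => hb ω hω) (fun ω hω => hb3 ω hω)
    (Z := fun ω => (some (rdR F y u v w NU NV i z a b ω), F.W ω)) (by
      intro ω ω' _ _ hh
      simp only [Prod.mk.injEq, Option.some.injEq] at hh
      obtain ⟨k1, k2⟩ := hh
      have hT : F.T ω = F.T ω' := congrArg Prod.fst k2
      exact Prod.ext k1 hT)
  have s1 : CH p (fun ω (l : Fin 3) => F.X J ω (c l))
      (fun ω => (some (rdR F y u v w NU NV i z a b ω), F.W ω)) ≤
      CH p (fun ω => (F.X J ω y, (F.X J ω u, F.X J ω v)))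
        (fun ω => (some (rdR F y u v w NU NV i z a b ω), F.W ω)) := by
    refine CH_mono_left h0 fun ω ω' _ _ hh => ?_
    simp only [Prod.mk.injEq] at hh
    obtain ⟨⟨k1, k2, k3⟩, -⟩ := hh
    funext l
    fin_cases l
    · show F.X J ω (c 0) = F.X J ω' (c 0)
      rw [c0]
      exact k1
    · show F.X J ω (c 1) = F.X J ω' (c 1)
      rw [c1]
      exact k2
    · show F.X J ω (c 2) = F.X J ω' (c 2)
      rw [c2]
      exact k3
  rw [← hgB_eq hw h3] at key
  have s2 : CH p (hgB F y u v w nu nv a b) (fun ω => (F.X J ω y,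
        (some (rdR F y u v w NU NV i z a b ω), F.W ω))) ≤
      CH p (hgB F y u v w nu nv a b)
        (fun ω => ((F.X J ω y, F.W ω), rdR F y u v w NU NV i z a b ω)) :=
    CH_mono_cond h0 fun ω ω' _ _ hh => by
      simp only [Prod.mk.injEq, Option.some.injEq] at hh ⊢
      exact ⟨⟨hh.1, hh.2.2⟩, hh.2.1⟩
  linarith

end

end Pool.FUL95
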